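import Pool.Agent.H246KN.Cls

/-!
# Connected sums with many copies of a knot
-/

set_option autoImplicit false

namespace KN

/-- the polygonal knot `l` is a connected sum of some lattice knot and of `M` copies of `k`
(for `M = 0` there is no condition) -/
def Plus (k : List V) : ℕ → List V → Prop
  | 0 => fun _ => True
  | M + 1 => fun l => ∃ l1 v l2 : List Dir, Facing l1 v l2 ∧ Plus k M (vl (l1 ++ .zp :: l2)) ∧
      Same (vl (.zm :: v)) k ∧ Same l (vl (join l1 v l2))

end KN
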