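import Pool.Agent.U611.MS.Cnt
import Pool.Agent.U611.MS.Def
import Pool.Agent.R945.KR.Kn

/-!
# Polygons with many occurrences of the block are connected sums with many summands
-/

set_option autoImplicit false

namespace KN

open Finset Filter Topology
open scoped Classical

noncomputable section

namespace MS

theorem Plus_same {k : List V} {M : ℕ} {l l' : List V} (h : Plus k M l) (hs : Same l l') :
    Plus k M l' := by
  cases M with
  | zero => trivial
  | succ M =>
    obtain ⟨l1, v, l2, hF, ht, hk, hl⟩ := h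
    exact ⟨l1, v, l2, hF, ht, hk, hs.symm.trans hl⟩

/-- fewer summands -/
theorem Plus_anti {k : List V} : ∀ (M N : ℕ), N ≤ M → ∀ l : List V, Plus k M l → Plus k N l := by
  intro M
  induction M with
  | zero =>
    intro N hN l h
    have : N = 0 := by omega
    subst this
    exact h
  | succ M ih =>
    intro N hN l h
    cases N with
    | zero => trivial
    | succ N =>
      obtain ⟨l1, v, l2, hF, ht, hk, hl⟩ := h
      exact ⟨l1, v, l2, hF, ih N (by omega) _ ht, hk, hl⟩

theorem DD_pos (T L : ℕ) (v : List Dir) : 1 ≤ DD T L v := by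
  unfold DD
  have : 0 < (2 * (blk T v).length + 1) + (2 * (T + L + 1) + 1) ^ 3 := by positivity
  omega

theorem plus_of_oc {T L : ℕ} {v : List Dir} {k : List V} (hv : SmR L v)
    (hk : Same (vl (.zm :: v)) k) : ∀ (M : ℕ) (w : List Dir), SAP w →
    M * (blk T v).length + 4 ≤ w.length → M * DD T L v ≤ (oc T L v w).card →
    Plus k M (vl w) := by
  intro M
  induction M with
  | zero => intro w _ _ _; trivial
  | succ M ih =>
    intro w hw hlen hoc
    have hD := DD_pos T L v
    have hpos : 0 < (oc T L v w).card := by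
      have : 1 ≤ (M + 1) * DD T L v := Nat.mul_pos (Nat.succ_pos M) hD
      omega
    obtain ⟨⟨i, d, f⟩, hq⟩ := Finset.card_pos.1 hpos
    rw [mem_oc] at hq
    simp only at hq
    have hdf := hq.1
    obtain ⟨⟨d', f', hp', hd', hf', -, hinv, -, -⟩, -, -, -⟩ := T_rtc_proof d f hdf
    have h1 := Oc_rot T_rtc_proof hp' hq
    rw [hd', hf'] at h1
    obtain ⟨-, A, B, hw1, hB, hroom⟩ := h1
    rw [blk_map_id] at hw1
    obtain ⟨g1, g2⟩ := T_rt_proof d' f' hp' w hw
    -- number of occurrences after the rotation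
    have hcard : (oc T L v w).card ≤ (oc T L v (w.map (rt d' f'))).card := by
      obtain ⟨⟨d2, f2, hp2, -, -, hi2, -, -, -⟩, -, -, -⟩ := T_rtc_proof d' f' hp'
      have h2 := oc_rot T_rtc_proof T L v (w.map (rt d' f')) hp2
      rw [List.map_map] at h2
      have e : (rt d2 f2 ∘ rt d' f') = id := funext fun e => hi2 e
      rw [e, List.map_id] at h2
      exact h2
    have hlen1 : (w.map (rt d' f')).length = w.length := List.length_map _
    rw [hw1] at g1 g2 hcard hlen1
    have hb : pos (blk T v) = vec .zp := pos_blk T hv.1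
    have hrb : ∀ d f : Dir, perp d f → pos ((blk T v).map (rt d f)) = vec f := by
      intro d f hdf
      obtain ⟨-, -, hpp, -⟩ := T_rtc_proof d f hdf
      rw [(hpp _).1, hb, K2WROT.Rp_vec]
      rfl
    have hblk1 := blk_len T v
    have hmul : (M + 1) * (blk T v).length = M * (blk T v).length + (blk T v).length := by ring
    have hmul2 : (M + 1) * DD T L v = M * DD T L v + DD T L v := by ring
    simp only [List.length_append] at hlen1
    have hu : SAP (A ++ .zp :: B) := by
      refine (T_Wrep_proof A B (blk T v) .zp hb (blk_ne T v)).2 g1 ?_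
      simp only [List.length_append, List.length_cons]
      omega
    have hoc2 : (oc T L v (A ++ blk T v ++ B)).card ≤
        (oc T L v (A ++ .zp :: B)).card + DD T L v := by
      have e : A ++ .zp :: B = A ++ [.zp] ++ B := by simp
      rw [e]
      refine oc_repl (y0 := 0) hrb g1 ?_ ?_ (by simp) (by omega)
      · rw [hb]; simp [pos]
      · intro P R _ p hp
        left
        have := (T_Wrep_proof P R (blk T v) .zp hb (blk_ne T v)).1 p
        simp only [List.append_assoc, List.cons_append, List.nil_append] at hp this ⊢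
        exact this hp
    have hih := ih (A ++ .zp :: B) hu (by
      simp only [List.length_append, List.length_cons]
      omega) (by omega)
    obtain ⟨m1, m2, hm, hmx, hms⟩ := K3YTYPE.rep_R hu
    have hBg := K3YTYPE.bgL L hm hmx
    have hspot : Spot T L A B := by
      refine ⟨hu, fun j hj hj' => ?_, fun g a1 a2 a3 a4 a5 => ?_⟩
      · have := hroom.1 j hj hj'
        rwa [Rp_id, Rp_id] at this
      · have := hroom.2 g a1 a2 a3 a4 a5
        rwa [Rp_id] at this
    obtain ⟨-, g4⟩ := d_master T L A B m1 m2 v hspot hv hBg hms.symm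
    refine ⟨m1, v, m2, ⟨hm, hmx, hv.1, fun p hp => (hv.2 p hp).1⟩,
      Plus_same hih hms.symm, hk, g2.trans g4⟩

/-- an unknotted polygon has no nontrivial summand -/
theorem U_plus {k : List V} (hk : NCG k) {w : List Dir} (hU : U w) : ¬ Plus k 1 (vl w) := by
  rintro ⟨l1, v, l2, hF, -, hk2, hs⟩
  refine ncg_ninv k hk l1 v l2 hF hk2 ?_
  rcases hU with h | h
  · exact Or.inl (hs.symm.trans h)
  · exact Or.inr (hs.symm.trans h)

/-- all but few polygons of the class have many summands -/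
theorem many {Q : List Dir → Prop} (hQ : KClass Q) (hc : CSum Q) {k : List V}
    (hk : ∃ w, SAP w ∧ Q w ∧ Same (vl w) k) : ∃ c : ℝ, 0 < c ∧ ∀ᶠ j : ℕ in atTop,
      (((K Q (2 * j)).filter (fun w => ¬ ∃ M : ℕ, c * (2 * j : ℝ) ^ (2 / 3 : ℝ) ≤ M ∧
        Plus k M (vl w))).card : ℝ) ≤
        Real.exp (-(c * (2 * j : ℝ) ^ (2 / 3 : ℝ))) * a Q (2 * j) := by
  obtain ⟨w0, hs0, hq0, hk0⟩ := hk
  obtain ⟨L, v, hv, hvk⟩ := T_vex_proof k ⟨w0, hs0, hk0⟩
  obtain ⟨R, hR, hLR⟩ := d_LL (2 * L + 4) L le_rfl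
  have hqv : Q (.zm :: v) := hQ.same _ _ hs0 hv.1 (hk0.trans hvk.symm) hq0
  set T := 2 * L + 4 with hT
  have D : Dat Q T L R v := ⟨hQ, hc, hv, hqv, hLR, hR⟩
  obtain ⟨δ, hδ, hfew⟩ := few D
  obtain ⟨ℓ, hℓ⟩ : ∃ ℓ, ℓ = (blk T v).length := ⟨_, rfl⟩
  obtain ⟨E, hE⟩ : ∃ E, E = DD T L v := ⟨_, rfl⟩
  have hE1 : 1 ≤ E := hE ▸ DD_pos T L v
  have hE0 : (0 : ℝ) < E := by exact_mod_cast hE1
  have hE1' : (1 : ℝ) ≤ E := by exact_mod_cast hE1
  have hl2 : (0 : ℝ) < Real.log 2 := Real.log_pos (by norm_num)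
  -- the constant
  set c : ℝ := min (δ / (4 * E)) (min (δ * Real.log 2 / 2) 1) with hcdef
  have hcp : 0 < c := by
    rw [hcdef]
    refine lt_min (by positivity) (lt_min (by positivity) one_pos)
  have hc1 : c ≤ δ / (4 * E) := min_le_left _ _
  have hc2 : c ≤ δ * Real.log 2 / 2 := (min_le_right _ _).trans (min_le_left _ _)
  refine ⟨c, hcp, ?_⟩
  have hxlim : Tendsto (fun j : ℕ => (2 * j : ℝ) ^ (2 / 3 : ℝ)) atTop atTop :=
    (tendsto_rpow_atTop (by norm_num)).comp
      (Tendsto.const_mul_atTop (by norm_num) tendsto_natCast_atTop_atTop)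
  have hsub : Tendsto (fun j : ℕ => (2 * j : ℝ) ^ (1 / 3 : ℝ)) atTop atTop :=
    (tendsto_rpow_atTop (by norm_num)).comp
      (Tendsto.const_mul_atTop (by norm_num) tendsto_natCast_atTop_atTop)
  filter_upwards [hfew, hxlim.eventually_ge_atTop (2 / δ + 8 * E / δ + 1),
    hsub.eventually_ge_atTop (δ * ℓ + 4), eventually_ge_atTop 1] with j hj hx hy hj1
  have hjp : (0 : ℝ) < 2 * j := by
    have : (1 : ℝ) ≤ j := by exact_mod_cast hj1
    linarith
  set x : ℝ := (2 * j : ℝ) ^ (2 / 3 : ℝ) with hxdef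
  have hx0 : 0 < x := by positivity
  obtain ⟨J, hJ⟩ : ∃ J, J = ⌊δ * x⌋₊ := ⟨_, rfl⟩
  have hJ1 : (J : ℝ) ≤ δ * x := by
    rw [hJ]; exact Nat.floor_le (by positivity)
  have hJ2 : δ * x < J + 1 := by
    rw [hJ]; exact Nat.lt_floor_add_one _
  have hδx : 2 + 8 * E ≤ δ * x := by
    have h1 : δ * (2 / δ + 8 * E / δ + 1) ≤ δ * x := mul_le_mul_of_nonneg_left hx hδ.le
    have h2 : δ * (2 / δ + 8 * E / δ + 1) = 2 + 8 * E + δ := by field_simp
    linarith
  have h3 := hj J hJ1
  have hsubset : (K Q (2 * j)).filter (fun w => ¬ ∃ M : ℕ, c * x ≤ M ∧ Plus k M (vl w)) ⊆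
      (K Q (2 * j)).filter (fun w => (oc T L v w).card < J) := by
    intro w hw
    rw [mem_filter] at hw ⊢
    refine ⟨hw.1, ?_⟩
    by_contra hcon
    rw [not_lt] at hcon
    apply hw.2
    obtain ⟨hl, hs, -⟩ := mem_K.1 hw.1
    refine ⟨J / E, ?_, ?_⟩
    · -- `c x ≤ J / E`
      have h4 : (J : ℝ) < E * ((J / E : ℕ) + 1) := by
        have := Nat.lt_mul_div_succ J hE1
        exact_mod_cast this
      have h5 : c * x ≤ δ * x / (4 * E) := by
        calc c * x ≤ δ / (4 * E) * x := mul_le_mul_of_nonneg_right hc1 hx0.le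
          _ = δ * x / (4 * E) := by ring
      have h6 : δ * x / (4 * E) ≤ ((J / E : ℕ) : ℝ) := by
        rw [div_le_iff₀ (by positivity)]
        nlinarith
      exact h5.trans h6
    · refine plus_of_oc (T := T) hv hvk (J / E) w hs ?_ ?_
      · -- length
        rw [hl, ← hℓ]
        have h4 : ((J / E : ℕ) : ℝ) ≤ J := by exact_mod_cast Nat.div_le_self J E
        have h5 : (2 * j : ℝ) = x * (2 * j : ℝ) ^ (1 / 3 : ℝ) := by
          rw [hxdef, ← Real.rpow_add hjp]
          norm_num
        have hx1 : 1 ≤ x := by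
          have : 0 ≤ 2 / δ + 8 * E / δ := by positivity
          linarith
        have h6 : ((J / E : ℕ) : ℝ) * ℓ + 4 ≤ 2 * j := by
          rw [h5]
          have hℓ0 : (0 : ℝ) ≤ ℓ := Nat.cast_nonneg _
          calc ((J / E : ℕ) : ℝ) * ℓ + 4 ≤ (δ * x) * ℓ + 4 * x := by
                have := mul_le_mul_of_nonneg_right (h4.trans hJ1) hℓ0
                linarith
            _ = x * (δ * ℓ + 4) := by ring
            _ ≤ x * (2 * j : ℝ) ^ (1 / 3 : ℝ) := mul_le_mul_of_nonneg_left hy hx0.le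
        exact_mod_cast h6
      · rw [← hE]
        exact (Nat.div_mul_le_self J E).trans hcon
  have h7 : (((K Q (2 * j)).filter (fun w => ¬ ∃ M : ℕ, c * x ≤ M ∧ Plus k M (vl w))).card : ℝ) ≤
      F Q T L v (2 * j) J := by
    unfold F
    exact_mod_cast card_le_card hsubset
  refine (h7.trans h3).trans (mul_le_mul_of_nonneg_right ?_ (Nat.cast_nonneg _))
  have h8 : ((1 : ℝ) / 2) ^ J = Real.exp (-(J * Real.log 2)) := by
    have e1 : Real.exp (-Real.log 2) = 1 / 2 := by
      rw [Real.exp_neg, Real.exp_log (by norm_num), one_div]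
    rw [← e1, ← Real.exp_nat_mul]
    congr 1
    ring
  rw [h8, Real.exp_le_exp]
  have h9 : c * x ≤ δ * Real.log 2 / 2 * x := mul_le_mul_of_nonneg_right hc2 hx0.le
  have h10 : δ * x / 2 ≤ J := by linarith [hE1']
  nlinarith

end MS

end

end KN
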