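import Pool.Agent.U611.MS.Nrm
import Pool.Agent.U611.MS.Sum

/-!
# The number of summands of a given knot type is bounded
-/

set_option autoImplicit false

namespace KN

open Finset Filter Topology
open scoped Classical

namespace MS

variable {G : Type} [Group G]

/-- there are `m` pairwise inequivalent locally flat functions outside `P` -/
def Many (G : Type) [Group G] (P : Set V) (m : ℕ) : Prop := ∃ T : Fin m → V → V → G,
  (∀ i, Flat Pᶜ (T i)) ∧ ∀ i j, i ≠ j → ¬ EqT Pᶜ (T i) (T j)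

/-- there is a locally flat function outside `P` with non-cyclic holonomy -/
def Nc (G : Type) [Group G] (P : Set V) : Prop := ∃ T : V → V → G, Flat Pᶜ T ∧ ¬ AbOn Pᶜ T

theorem flat_homeo {P P' : Set V} (h : V ≃ₜ V) (hh : h '' P = P') {T : V → V → G}
    (hT : Flat Pᶜ T) : Flat P'ᶜ (fun a b => T (h.symm a) (h.symm b)) := by
  intro x hx
  have hx' : h.symm x ∈ Pᶜ := by
    intro hcon
    apply hx
    rw [← hh]
    exact ⟨h.symm x, hcon, h.apply_symm_apply x⟩
  obtain ⟨N, hN, hN2⟩ := hT (h.symm x) hx'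
  refine ⟨h.symm ⁻¹' N, h.symm.continuous.continuousAt hN, ?_⟩
  intro a ha b hb c hc
  exact hN2 _ ha _ hb _ hc

theorem mem_homeo {P P' : Set V} (h : V ≃ₜ V) (hh : h '' P = P') {x : V} (hx : x ∈ Pᶜ) :
    h x ∈ P'ᶜ := by
  intro hcon
  apply hx
  rw [← hh] at hcon
  obtain ⟨y, hy, hyx⟩ := hcon
  rwa [← h.injective hyx]

theorem eqT_homeo {P P' : Set V} (h : V ≃ₜ V) (hh : h '' P = P') {T T' : V → V → G}
    (hT : EqT P'ᶜ (fun a b => T (h.symm a) (h.symm b)) (fun a b => T' (h.symm a) (h.symm b))) :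
    EqT Pᶜ T T' := by
  obtain ⟨φ, hφ⟩ := hT
  refine ⟨fun a => φ (h a), fun x hx => ?_⟩
  obtain ⟨N, hN, hN2⟩ := hφ (h x) (mem_homeo h hh hx)
  refine ⟨h ⁻¹' N, h.continuous.continuousAt hN, ?_⟩
  intro a ha b hb
  have h3 := hN2 (h a) ha (h b) hb
  simpa only [Homeomorph.symm_apply_apply] using h3

theorem abOn_homeo {P P' : Set V} (h : V ≃ₜ V) (hh : h '' P = P') {T : V → V → G}
    (hT : AbOn P'ᶜ (fun a b => T (h.symm a) (h.symm b))) : AbOn Pᶜ T := by
  obtain ⟨φ', κ, hφ⟩ := hT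
  refine ⟨fun a => φ' (h a), κ, ?_⟩
  intro x hx
  obtain ⟨N, hN, hN2⟩ := hφ (h x) (mem_homeo h hh hx)
  refine ⟨h ⁻¹' N, h.continuous.continuousAt hN, ?_⟩
  intro a ha b hb
  have h3 := hN2 (h a) ha (h b) hb
  simpa only [Homeomorph.symm_apply_apply] using h3

theorem Many_same {l l' : List V} (hs : Same l l') {m : ℕ} (hm : Many G (ps l) m) :
    Many G (ps l') m := by
  obtain ⟨h, hh⟩ := d_amb l l' hs
  obtain ⟨T, h1, h2⟩ := hm
  exact ⟨fun i a b => T i (h.symm a) (h.symm b), fun i => flat_homeo h hh (h1 i),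
    fun i j hij he => h2 i j hij (eqT_homeo h hh he)⟩

theorem Nc_same {l l' : List V} (hs : Same l l') (hn : Nc G (ps l)) : Nc G (ps l') := by
  obtain ⟨h, hh⟩ := d_amb l l' hs
  obtain ⟨T, h1, h2⟩ := hn
  exact ⟨fun a b => T (h.symm a) (h.symm b), flat_homeo h hh h1,
    fun he => h2 (abOn_homeo h hh he)⟩

/-- gauge fields from locally flat functions -/
theorem Many_gauge {w : List Dir} (hw : SAP w) {m : ℕ} (hm : Many G (ps (vl w)) m) :
    ∃ g : Fin m → Gauge G, (∀ i, GF (g i) w) ∧ ∀ i j, i ≠ j → ¬ EqG (g i) (g j) := by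
  obtain ⟨T, h1, h2⟩ := hm
  choose g hg1 hg2 using fun i => disc hw (h1 i)
  refine ⟨g, hg1, fun i j hij he => h2 i j hij ?_⟩
  exact ((hg2 i).trans (eqT_of_eqG _ he)).trans (hg2 j).symm

/-- locally flat functions from gauge fields -/
theorem gauge_Many {w : List Dir} (hw : SAP w) {m : ℕ} (g : Fin m → Gauge G)
    (h1 : ∀ i, GF (g i) w) (h2 : ∀ i j, i ≠ j → ¬ EqG (g i) (g j)) : Many G (ps (vl w)) m :=
  ⟨fun i => TT (g i), fun i => d_gauge G (g i) w hw (h1 i),
    fun i j hij he => h2 i j hij (eqG_of_eqT hw he)⟩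

theorem EqG.symm {g g' : Gauge G} (h : EqG g g') : EqG g' g := by
  obtain ⟨φ, h⟩ := h
  refine ⟨fun c => (φ c)⁻¹, fun c d => ?_⟩
  rw [← h c d]
  group

theorem EqG.trans {g g' g'' : Gauge G} (h : EqG g g') (h' : EqG g' g'') : EqG g g'' := by
  obtain ⟨φ, h⟩ := h
  obtain ⟨ψ, h'⟩ := h'
  refine ⟨fun c => ψ c * φ c, fun c d => ?_⟩
  rw [← h' c d, ← h c d]
  group

/-- the connected sum has one more class of fields -/
theorem join_many {l1 v l2 : List Dir} (hF : Facing l1 v l2) {m : ℕ}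
    (hm : Many G (ps (vl (l1 ++ .zp :: l2))) m) (hn : Nc G (ps (vl (.zm :: v)))) :
    Many G (ps (vl (join l1 v l2))) (m + 1) := by
  obtain ⟨hF', hs1, hs2⟩ := facing_swap hF
  obtain ⟨g, hg1, hg2⟩ := Many_gauge hF'.2.2.1 (Many_same hs2 hm)
  choose g' a1 a2 a3 a4 using fun i => norm (g i) (lw l1 l2) hF'.2.2.2 (hg1 i)
  have hg2' : ∀ i j, i ≠ j → ¬ EqG (g' i) (g' j) := fun i j hij he =>
    hg2 i j hij (((a4 i).trans he).trans (a4 j).symm)
  obtain ⟨T0, t1, t2⟩ := hn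
  obtain ⟨g0, b1, b2⟩ := e_disc G T0 (.zm :: v) hF.2.2.1 t1
  obtain ⟨g0', c1, c2, c3, c4⟩ := norm g0 v hF.2.2.2 b1
  have hnc : ¬ Cyc g0' := fun h => t2 (b2 (Cyc_of_eqG c4 h))
  have hJ : SAP (join l1 v l2) := S_glueSAP_proof l1 v l2 hF
  set K0 := kgauge g0' (pos l2) (l1 ++ .xm :: .zp :: .xp :: l2) with hK0
  set R : Fin m → Gauge G := fun i => rg (pos l2) (kgauge (g' i) (pos (lv v))
    ([] ++ .xm :: .zp :: .xp :: lv v)) with hR
  have f0 : GF K0 (join l1 v l2) := e_kflat G g0' l1 v l2 hF c1 c2 c3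
  have fR : ∀ i, GF (R i) (join l1 v l2) := fun i =>
    GF_rg hF (e_kflat G (g' i) [] (lw l1 l2) (lv v) hF' (a1 i) (a2 i) (a3 i))
  have n0 : ∀ i, ¬ EqG K0 (R i) := fun i => not_eqG hF c2 c3 hnc (g' i) _
  have nR : ∀ i j, i ≠ j → ¬ EqG (R i) (R j) := fun i j hij he =>
    hg2' i j hij (eqG_of_k hF' (a2 i) (a3 i) (a2 j) (a3 j) (eqG_of_rg he))
  refine gauge_Many hJ (Fin.cons K0 R : Fin (m + 1) → Gauge G) ?_ ?_
  · intro i
    refine Fin.cases ?_ (fun i => ?_) i
    · exact f0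
    · exact fR i
  · intro i j hij
    refine Fin.cases (fun hij => ?_) (fun i hij => ?_) i hij
    · refine Fin.cases (fun h => absurd rfl h) (fun j _ => ?_) j hij
      exact n0 j
    · refine Fin.cases (fun _ => ?_) (fun j hij => ?_) j hij
      · exact fun he => n0 i he.symm
      · exact nR i j (fun h => hij (by rw [h]))

/-- a connected sum with `N` copies of `k` has `N` classes of fields -/
theorem plus_many {k : List V} (hn : Nc G (ps k)) : ∀ (N : ℕ) (l : List V), Plus k N l →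
    Many G (ps l) N := by
  intro N
  induction N with
  | zero => intro l _; exact ⟨fun i => i.elim0, fun i => i.elim0, fun i => i.elim0⟩
  | succ N ih =>
    rintro l ⟨l1, v, l2, hF, hP, hk, hl⟩
    exact Many_same hl.symm (join_many hF (ih _ hP) (Nc_same hk.symm hn))

/-- **bounded number of summands** -/
theorem bounded [Finite G] {k : List V} (hn : Nc G (ps k)) {s : List V}
    (hs : ∃ w, SAP w ∧ Same (vl w) s) : ∃ N, ¬ Plus k N s := by
  obtain ⟨L, v, hv, hvs⟩ := T_vex_proof s hs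
  obtain ⟨M, hM⟩ := finite_classes (G := G) v (fun p hp => (hv.2 p hp).1)
  refine ⟨M, fun hP => ?_⟩
  obtain ⟨g, h1, h2⟩ := Many_gauge hv.1 (Many_same hvs.symm (plus_many hn M s hP))
  obtain ⟨i, j, hij, he⟩ := hM g h1
  exact h2 i j hij he

end MS

end KN
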