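import Pool.Agent.U611.MS.Sum

/-!
# Subclasses with a bounded number of summands are rare
-/

set_option autoImplicit false

namespace KN

open Finset Filter Topology
open scoped Classical

noncomputable section

namespace MS

theorem x_lim : Tendsto (fun j : ℕ => (2 * j : ℝ) ^ (2 / 3 : ℝ)) atTop atTop :=
  (tendsto_rpow_atTop (by norm_num)).comp
    (Tendsto.const_mul_atTop (by norm_num) tendsto_natCast_atTop_atTop)

/-- a subclass of knot types with a bounded number of summands `k` is rare -/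
theorem rare {Q : List Dir → Prop} (hQ : KClass Q) (hc : CSum Q) {k : List V}
    (hk : ∃ w, SAP w ∧ Q w ∧ Same (vl w) k) {Q₀ : List Dir → Prop} {N : ℕ}
    (h0 : ∀ w, SAP w → Q₀ w → Q w ∧ ¬ Plus k N (vl w)) : ∃ c : ℝ, 0 < c ∧
      ∀ᶠ j : ℕ in atTop, pq Q₀ (2 * j) ≤
        Real.exp (-(c * (2 * j : ℝ) ^ (2 / 3 : ℝ))) * pq Q (2 * j) := by
  obtain ⟨c, hcp, h1⟩ := many hQ hc hk
  refine ⟨c, hcp, ?_⟩
  filter_upwards [h1, x_lim.eventually_ge_atTop (N / c)] with j h1 h2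
  have h3 : (N : ℝ) ≤ c * (2 * j : ℝ) ^ (2 / 3 : ℝ) := by
    rw [div_le_iff₀ hcp] at h2
    linarith
  have hsub : K Q₀ (2 * j) ⊆ (K Q (2 * j)).filter (fun w => ¬ ∃ M : ℕ,
      c * (2 * j : ℝ) ^ (2 / 3 : ℝ) ≤ M ∧ Plus k M (vl w)) := by
    intro w hw
    rw [mem_K] at hw
    rw [mem_filter, mem_K]
    obtain ⟨g1, g2, g3⟩ := hw
    obtain ⟨g4, g5⟩ := h0 w g2 g3
    refine ⟨⟨g1, g2, g4⟩, ?_⟩
    rintro ⟨M, g6, g7⟩
    have g8 : N ≤ M := by exact_mod_cast h3.trans g6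
    exact g5 (Plus_anti M N g8 _ g7)
  have h4 : (a Q₀ (2 * j) : ℝ) ≤
      Real.exp (-(c * (2 * j : ℝ) ^ (2 / 3 : ℝ))) * a Q (2 * j) := by
    refine le_trans ?_ h1
    exact_mod_cast card_le_card hsub
  unfold pq
  rw [← mul_div_assoc]
  exact div_le_div_of_nonneg_right h4 (by positivity)

theorem strict {Q : List Dir → Prop} (hQ : KClass Q) (hc : CSum Q) {k : List V}
    (hk : ∃ w, SAP w ∧ Q w ∧ Same (vl w) k) {Q₀ : List Dir → Prop} {N : ℕ}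
    (h0 : ∀ w, SAP w → Q₀ w → Q w ∧ ¬ Plus k N (vl w))
    (h : ∀ ε : ℝ, 0 < ε → ∃ᶠ j : ℕ in atTop,
      Real.exp (-(ε * (2 * j : ℝ) ^ (2 / 3 : ℝ))) * gr Q₀ ^ (2 * j) ≤ pq Q₀ (2 * j)) :
    gr Q₀ < gr Q := by
  obtain ⟨w0, hs0, hq0, hk0⟩ := hk
  have hne : ∃ w, SAP w ∧ Q w := ⟨w0, hs0, hq0⟩
  obtain ⟨c, hcp, h1⟩ := rare hQ hc ⟨w0, hs0, hq0, hk0⟩ h0
  obtain ⟨hg, -, -⟩ := gr_bounds Q hQ hne
  have hμ : 0 < gr Q := by linarith
  by_contra hcon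
  rw [not_lt] at hcon
  have hμ0 : 0 < gr Q₀ := lt_of_lt_of_le hμ hcon
  have h2 : ∀ᶠ k : ℕ in atTop, pq Q (2 * k) ≤ 16 * gr Q ^ (2 * k) := by
    filter_upwards [Pool.Agent.R945.KR.ub_csum Q hQ hne hc] with k hk
    have h2 : 0 < gr Q ^ (2 * k) := pow_pos hμ _
    unfold TH966.KS.yq at hk
    rwa [div_le_iff₀ h2] at hk
  have h3 := (Real.tendsto_exp_atTop.comp (x_lim.const_mul_atTop
    (show (0 : ℝ) < c / 2 by positivity))).eventually_gt_atTop 16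
  obtain ⟨j, h4, h5, h6, h7⟩ := ((h (c / 2) (by positivity)).and_eventually
    (h1.and (h2.and h3))).exists
  simp only [Function.comp_apply] at h7
  set x : ℝ := (2 * j : ℝ) ^ (2 / 3 : ℝ)
  have hp1 : 0 < gr Q ^ (2 * j) := pow_pos hμ _
  have hp2 : 0 < gr Q₀ ^ (2 * j) := pow_pos hμ0 _
  have hp3 : gr Q ^ (2 * j) ≤ gr Q₀ ^ (2 * j) := pow_le_pow_left₀ hμ.le hcon _
  have h8 : Real.exp (-(c / 2 * x)) * gr Q₀ ^ (2 * j) ≤
      Real.exp (-(c * x)) * (16 * gr Q₀ ^ (2 * j)) := by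
    refine (h4.trans h5).trans (mul_le_mul_of_nonneg_left ?_ (Real.exp_pos _).le)
    exact h6.trans (mul_le_mul_of_nonneg_left hp3 (by norm_num))
  have h9 : Real.exp (-(c / 2 * x)) ≤ Real.exp (-(c * x)) * 16 := by
    have h10 : Real.exp (-(c / 2 * x)) * gr Q₀ ^ (2 * j) ≤
        (Real.exp (-(c * x)) * 16) * gr Q₀ ^ (2 * j) := by linarith
    exact le_of_mul_le_mul_right h10 hp2
  have h11 : Real.exp (-(c / 2 * x)) = Real.exp (-(c * x)) * Real.exp (c / 2 * x) := by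
    rw [← Real.exp_add]
    congr 1
    ring
  rw [h11] at h9
  have h12 := le_of_mul_le_mul_left h9 (Real.exp_pos _)
  linarith

theorem of_form {Q₀ : List Dir → Prop} (hμ0 : 0 < gr Q₀) {A α : ℝ} (hA : 0 < A)
    (h : Tendsto (fun j : ℕ => pq Q₀ (2 * j) / ((2 * j : ℝ) ^ (α - 3) * gr Q₀ ^ (2 * j))) atTop
      (𝓝 A)) (ε : ℝ) (hε : 0 < ε) : ∀ᶠ j : ℕ in atTop,
      Real.exp (-(ε * (2 * j : ℝ) ^ (2 / 3 : ℝ))) * gr Q₀ ^ (2 * j) ≤ pq Q₀ (2 * j) := by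
  have h1 := h.eventually (lt_mem_nhds (show A / 2 < A by linarith))
  -- `y ^ s exp (-b y) → 0`
  have h2 : Tendsto (fun j : ℕ => ((2 * j : ℝ) ^ (2 / 3 : ℝ)) ^ (-(3 / 2 * (α - 3))) *
      Real.exp (-(ε * (2 * j : ℝ) ^ (2 / 3 : ℝ)))) atTop (𝓝 0) := by
    have := (tendsto_rpow_mul_exp_neg_mul_atTop_nhds_zero (-(3 / 2 * (α - 3))) ε hε).comp x_lim
    refine this.congr fun j => ?_
    simp only [Function.comp_apply, neg_mul]
  have h3 := h2.eventually (gt_mem_nhds (show (0 : ℝ) < A / 2 by linarith))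
  filter_upwards [h1, h3, eventually_ge_atTop 1] with j h4 h5 hj
  have hjp : (0 : ℝ) < 2 * j := by
    have : (1 : ℝ) ≤ j := by exact_mod_cast hj
    linarith
  have hp : 0 < gr Q₀ ^ (2 * j) := pow_pos hμ0 _
  have hq : (0 : ℝ) < (2 * j : ℝ) ^ (α - 3) := Real.rpow_pos_of_pos hjp _
  rw [lt_div_iff₀ (by positivity)] at h4
  have e : ((2 * j : ℝ) ^ (2 / 3 : ℝ)) ^ (-(3 / 2 * (α - 3))) = ((2 * j : ℝ) ^ (α - 3))⁻¹ := by
    rw [← Real.rpow_mul hjp.le, ← Real.rpow_neg hjp.le]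
    congr 1
    ring
  rw [e, inv_mul_lt_iff₀ hq] at h5
  calc Real.exp (-(ε * (2 * j : ℝ) ^ (2 / 3 : ℝ))) * gr Q₀ ^ (2 * j)
      ≤ ((2 * j : ℝ) ^ (α - 3) * (A / 2)) * gr Q₀ ^ (2 * j) :=
        mul_le_mul_of_nonneg_right h5.le hp.le
    _ = A / 2 * ((2 * j : ℝ) ^ (α - 3) * gr Q₀ ^ (2 * j)) := by ring
    _ ≤ pq Q₀ (2 * j) := h4.le

end MS

end

end KN
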