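import Pool.Agent.U611.MS.Uni
import Pool.Agent.U611.MS.Cor

/-!
# Consequences: exponents, rarity of a single knot type
-/

set_option autoImplicit false

namespace KN

open Finset Filter Topology
open scoped Classical

noncomputable section

namespace MS

open KQ

/-- comparison of exponents -/
theorem expo_le {P R : List Dir → Prop} {c x : ℝ} {M : ℕ} (hc : 0 < c) (hM : M % 2 = 0)
    (h : ∀ᶠ n : ℕ in atTop, c * (n : ℝ) ^ x * pq P n ≤ pq R (n + M)) {g A A' α α' : ℝ}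
    (hg : 0 < g) (hA : 0 < A) (h1 : Form P A α g) (h2 : Form R A' α' g) : α + x ≤ α' := by
  by_contra hcon
  rw [not_le] at hcon
  obtain ⟨e, he⟩ : ∃ e, M = 2 * e := ⟨M / 2, by omega⟩
  have h2' : Tendsto (fun j : ℕ => pq R (2 * (j + e)) /
      ((2 * ((j + e : ℕ) : ℝ)) ^ (α' - 3) * g ^ (2 * (j + e)))) atTop (𝓝 A') :=
    h2.comp (tendsto_add_atTop_nat e)
  have hr : Tendsto (fun j : ℕ => (2 * ((j + e : ℕ) : ℝ)) / (2 * j)) atTop (𝓝 1) := by
    have h3 : Tendsto (fun j : ℕ => 1 + (e : ℝ) / j) atTop (𝓝 (1 + 0)) :=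
      tendsto_const_nhds.add (tendsto_const_div_atTop_nhds_zero_nat (e : ℝ))
    rw [add_zero] at h3
    refine h3.congr' ?_
    filter_upwards [eventually_gt_atTop 0] with j hj
    have hj' : (0 : ℝ) < j := by exact_mod_cast hj
    push_cast
    field_simp
  have hr2 : Tendsto (fun j : ℕ => ((2 * ((j + e : ℕ) : ℝ)) / (2 * j)) ^ (α' - 3)) atTop
      (𝓝 1) := by
    have := hr.rpow_const (p := α' - 3) (Or.inl one_ne_zero)
    rwa [Real.one_rpow] at this
  have hz : Tendsto (fun j : ℕ => (2 * j : ℝ) ^ (α' - α - x)) atTop (𝓝 0) := by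
    have h4 : Tendsto (fun j : ℕ => (2 * j : ℝ)) atTop atTop :=
      Tendsto.const_mul_atTop (by norm_num) tendsto_natCast_atTop_atTop
    have h5 := (tendsto_rpow_neg_atTop (y := α + x - α') (by linarith)).comp h4
    refine h5.congr fun j => ?_
    simp only [Function.comp_apply]
    congr 1
    ring
  have hprod := (((h2'.mul hr2).mul hz).const_mul (g ^ (2 * e)))
  rw [mul_zero, mul_zero] at hprod
  have hev := hprod.eventually (gt_mem_nhds (show (0 : ℝ) < c * (A / 2) by positivity))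
  have h1' := h1.eventually (lt_mem_nhds (show A / 2 < A by linarith))
  have hj2 : Tendsto (fun j : ℕ => 2 * j) atTop atTop :=
    tendsto_id.const_mul_atTop' (by norm_num)
  obtain ⟨j, k1, k2, k3, k4⟩ := (hev.and (h1'.and ((hj2.eventually h).and
    (eventually_gt_atTop 0)))).exists
  have hj : (0 : ℝ) < j := by exact_mod_cast k4
  have hp : (0 : ℝ) < 2 * j := by linarith
  have hpe : (0 : ℝ) < 2 * ((j + e : ℕ) : ℝ) := by
    push_cast
    have : (0 : ℝ) ≤ e := Nat.cast_nonneg _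
    linarith
  have q1 : (0 : ℝ) < (2 * j : ℝ) ^ (α - 3) := Real.rpow_pos_of_pos hp _
  have q2 : (0 : ℝ) < (2 * ((j + e : ℕ) : ℝ)) ^ (α' - 3) := Real.rpow_pos_of_pos hpe _
  have q3 : 0 < g ^ (2 * j) := pow_pos hg _
  have q4 : 0 < g ^ (2 * (j + e)) := pow_pos hg _
  have q5 : (0 : ℝ) < (2 * j : ℝ) ^ x := Real.rpow_pos_of_pos hp _
  rw [lt_div_iff₀ (by positivity)] at k2
  have e0 : 2 * j + M = 2 * (j + e) := by omega
  rw [e0] at k3
  push_cast at k3
  -- rewrite the product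
  have e1 : g ^ (2 * e) * (pq R (2 * (j + e)) / ((2 * ((j + e : ℕ) : ℝ)) ^ (α' - 3) *
      g ^ (2 * (j + e))) * ((2 * ((j + e : ℕ) : ℝ)) / (2 * j)) ^ (α' - 3) *
      (2 * j : ℝ) ^ (α' - α - x)) =
      pq R (2 * (j + e)) / (g ^ (2 * j) * (2 * j : ℝ) ^ (α - 3) * (2 * j : ℝ) ^ x) := by
    rw [Real.div_rpow hpe.le hp.le]
    have e2 : (2 * j : ℝ) ^ (α' - 3) = (2 * j : ℝ) ^ (α' - α - x) * (2 * j : ℝ) ^ (α - 3) *
        (2 * j : ℝ) ^ x := by
      rw [← Real.rpow_add hp, ← Real.rpow_add hp]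
      congr 1
      ring
    have e3 : g ^ (2 * (j + e)) = g ^ (2 * j) * g ^ (2 * e) := by
      rw [← pow_add]; congr 1; ring
    rw [e2, e3]
    have q6 : (2 * j : ℝ) ^ (α' - α - x) ≠ 0 := (Real.rpow_pos_of_pos hp _).ne'
    have q7 : g ^ (2 * e) ≠ 0 := (pow_pos hg _).ne'
    field_simp
  rw [e1, div_lt_iff₀ (by positivity)] at k1
  have k5 : c * (2 * j : ℝ) ^ x * (A / 2 * ((2 * j : ℝ) ^ (α - 3) * g ^ (2 * j))) <
      c * (2 * j : ℝ) ^ x * pq P (2 * j) := mul_lt_mul_of_pos_left k2 (by positivity)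
  have k6 : c * (A / 2) * (g ^ (2 * j) * (2 * j : ℝ) ^ (α - 3) * (2 * j : ℝ) ^ x) <
      pq R (2 * (j + e)) := by
    calc c * (A / 2) * (g ^ (2 * j) * (2 * j : ℝ) ^ (α - 3) * (2 * j : ℝ) ^ x) =
        c * (2 * j : ℝ) ^ x * (A / 2 * ((2 * j : ℝ) ^ (α - 3) * g ^ (2 * j))) := by ring
      _ < _ := k5
      _ ≤ _ := k3
  linarith

/-- a smaller growth constant: the form with the larger one and coefficient `0` -/
theorem form_zero {R : List Dir → Prop} {g g' A' α' : ℝ} (hg' : 0 < g') (hlt : g' < g)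
    (h2 : Form R A' α' g') (β : ℝ) : Form R 0 β g := by
  have hg : 0 < g := hg'.trans hlt
  unfold Form at h2 ⊢
  set r : ℝ := g / g' with hr
  have hr1 : 1 < r := by rw [hr, one_lt_div hg']; exact hlt
  have hsq : 1 < Real.sqrt r := by
    rw [Real.lt_sqrt (by norm_num)]
    simpa using hr1
  obtain ⟨M, hM⟩ := An.pow_bd (α' - β) (Real.sqrt r) hsq
  have hz : Tendsto (fun j : ℕ => (2 * j : ℝ) ^ (α' - β) * (g' / g) ^ (2 * j)) atTop (𝓝 0) := by
    have h3 : Tendsto (fun j : ℕ => M * ((Real.sqrt r)⁻¹) ^ (2 * j)) atTop (𝓝 (M * 0)) := by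
      refine Tendsto.const_mul _ ?_
      have h4 := tendsto_pow_atTop_nhds_zero_of_lt_one (r := (Real.sqrt r)⁻¹)
        (by positivity) (inv_lt_one_of_one_lt₀ hsq)
      exact h4.comp (tendsto_id.const_mul_atTop' (by norm_num))
    rw [mul_zero] at h3
    refine squeeze_zero (fun j => by positivity) (fun j => ?_) h3
    have h5 := hM (2 * j)
    push_cast at h5
    have h6 : (g' / g) ^ (2 * j) = ((Real.sqrt r)⁻¹) ^ (2 * j) * ((Real.sqrt r)⁻¹) ^ (2 * j) := by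
      rw [← mul_pow]
      congr 1
      rw [← mul_inv, Real.mul_self_sqrt (by positivity), hr, inv_div]
    have h7 : (Real.sqrt r) ^ (2 * j) * ((Real.sqrt r)⁻¹) ^ (2 * j) = 1 := by
      rw [← mul_pow, mul_inv_cancel₀ (by positivity), one_pow]
    have h8 : 0 ≤ ((Real.sqrt r)⁻¹) ^ (2 * j) := by positivity
    rw [h6]
    calc (2 * j : ℝ) ^ (α' - β) * (((Real.sqrt r)⁻¹) ^ (2 * j) * ((Real.sqrt r)⁻¹) ^ (2 * j)) ≤
        (M * (Real.sqrt r) ^ (2 * j)) *
          (((Real.sqrt r)⁻¹) ^ (2 * j) * ((Real.sqrt r)⁻¹) ^ (2 * j)) :=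
          mul_le_mul_of_nonneg_right h5 (by positivity)
      _ = M * ((Real.sqrt r) ^ (2 * j) * ((Real.sqrt r)⁻¹) ^ (2 * j)) *
          ((Real.sqrt r)⁻¹) ^ (2 * j) := by ring
      _ = M * ((Real.sqrt r)⁻¹) ^ (2 * j) := by rw [h7, mul_one]
  have h9 := h2.mul hz
  rw [mul_zero] at h9
  refine h9.congr' ?_
  filter_upwards [eventually_gt_atTop 0] with j hj
  have hp : (0 : ℝ) < 2 * j := by
    have : (0 : ℝ) < j := by exact_mod_cast hj
    linarith
  have e : (2 * j : ℝ) ^ (α' - 3) = (2 * j : ℝ) ^ (α' - β) * (2 * j : ℝ) ^ (β - 3) := by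
    rw [← Real.rpow_add hp]
    congr 1
    ring
  have q1 : (2 * j : ℝ) ^ (α' - β) ≠ 0 := (Real.rpow_pos_of_pos hp _).ne'
  have q2 : (2 * j : ℝ) ^ (β - 3) ≠ 0 := (Real.rpow_pos_of_pos hp _).ne'
  rw [e, div_pow]
  field_simp

/-- comparison of growth constants and exponents -/
theorem lex_le {P R : List Dir → Prop} {c x : ℝ} {M : ℕ} (hc : 0 < c) (hM : M % 2 = 0)
    (h : ∀ᶠ n : ℕ in atTop, c * (n : ℝ) ^ x * pq P n ≤ pq R (n + M)) {g g' A A' α α' : ℝ}
    (hg : 0 < g) (hg' : 0 < g') (hA : 0 < A) (h1 : Form P A α g) (h2 : Form R A' α' g') :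
    g < g' ∨ g = g' ∧ α + x ≤ α' := by
  rcases lt_trichotomy g g' with hlt | heq | hgt
  · exact Or.inl hlt
  · subst heq
    exact Or.inr ⟨rfl, expo_le hc hM h hg hA h1 h2⟩
  · have h3 := expo_le hc hM h hg hA h1 (form_zero hg' hgt h2 (α + x - 1))
    linarith

/-- a fixed number of summands -/
theorem fixed_N {S : Finset (List V)} (hS : ∀ k ∈ S, FNC k ∧ ∃ w, SAP w ∧ Same (vl w) k)
    {l : List V} (hl : ∃ w, SAP w ∧ Same (vl w) l) {ks : ℕ → List V} {N : ℕ}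
    (hks : ∀ i < N, ks i ∈ S) {s : List V} (hs : SumFrom l ks N s) : ∃ (c : ℝ) (M : ℕ), 0 < c ∧
      M % 2 = 0 ∧ ∀ᶠ n : ℕ in atTop, c * (n : ℝ) ^ (2 * N / 3 : ℝ) * pq (KT l) n ≤
        pq (KT s) (n + M) := by
  obtain ⟨c, m, hc, hm, hev⟩ := uniform S hS hl
  refine ⟨c ^ N / N.factorial, ∑ i ∈ range N, m (ks i), by positivity, ?_, ?_⟩
  · rw [Finset.sum_nat_mod]
    simp [hm]
  · filter_upwards [hev, eventually_gt_atTop 0] with n hn hn0
    have h1 := hn ks N hks s hs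
    have hn' : (0 : ℝ) ≤ n := Nat.cast_nonneg _
    have e : (n : ℝ) ^ (2 * N / 3 : ℝ) = ((n : ℝ) ^ (2 / 3 : ℝ)) ^ N := by
      rw [← Real.rpow_natCast, ← Real.rpow_mul hn']
      congr 1
      ring
    rw [e]
    calc c ^ N / N.factorial * ((n : ℝ) ^ (2 / 3 : ℝ)) ^ N * pq (KT l) n =
        (c * (n : ℝ) ^ (2 / 3 : ℝ)) ^ N / N.factorial * pq (KT l) n := by
          rw [mul_pow]; ring
      _ ≤ _ := h1

/-- every single knot type in a class has a bounded number of summands -/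
theorem kt_bounded {Q : List Dir → Prop} (hQ : KClass Q) {k : List V} (hk : FNC k) {l : List V}
    (hl : ∃ w, SAP w ∧ Q w ∧ Same (vl w) l) : ∃ N, ∀ w, SAP w → KT l w →
      Q w ∧ ¬ Plus k N (vl w) := by
  obtain ⟨w0, hw0, hq0, hs0⟩ := hl
  obtain ⟨N1, hN1⟩ := bounded_fnc hk (s := l) ⟨w0, hw0, hs0⟩
  obtain ⟨b1, b2⟩ := back_word S_rot_proof c_rev S_simple_proof hw0
  obtain ⟨N2, hN2⟩ := bounded_fnc hk (s := l.reverse) ⟨_, b1, b2.trans ((c_rev _ _).2 hs0)⟩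
  refine ⟨max N1 N2, fun w hw hkt => ⟨?_, fun hP => ?_⟩⟩
  · rcases hkt with h | h
    · exact hQ.same w0 w hw0 hw (hs0.trans h.symm) hq0
    · refine hQ.rev w0 w hw0 hw ?_ hq0
      have h1 := (c_rev _ _).2 h
      rw [List.reverse_reverse] at h1
      exact hs0.trans h1.symm
  · rcases hkt with h | h
    · exact hN1 (Plus_same (Plus_anti _ N1 (le_max_left _ _) _ hP) h)
    · exact hN2 (Plus_same (Plus_anti _ N2 (le_max_right _ _) _ hP) h)

end MS

end

end KN
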