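import Pool.Agent.U611.MS.Occ
import Pool.Agent.H246K3.All3

/-!
# Counting: polygons with few occurrences of the block
-/

set_option autoImplicit false

namespace KN

open Finset Filter Topology
open scoped Classical

noncomputable section

namespace MS

/-- the alternatives of `Gd` -/
def Ga (i : Fin 3) (w : List Dir) (d f : Dir) (l1 l2 : List Dir) : Prop :=
  (i = 0 ∧ w.map (rt d f) = l1 ++ .zp :: l2) ∨
    (i = 1 ∧ ∃ m, l1 = m ++ [.xm] ∧ w.map (rt d f) = m ++ .zp :: .xm :: l2) ∨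
    (i = 2 ∧ ∃ m, l2 = .xp :: m ∧ w.map (rt d f) = l1 ++ .xp :: .zp :: m)

theorem exists_Ga {T L : ℕ} {w : List Dir} {d f : Dir} {l1 l2 : List Dir}
    (h : Gd T L w d f l1 l2) : ∃ i : Fin 3, Ga i w d f l1 l2 := by
  obtain ⟨-, -, -, h⟩ := h
  rcases h with h | ⟨m, h1, h2, -⟩ | ⟨m, h1, h2, -⟩
  · exact ⟨0, Or.inl ⟨rfl, h⟩⟩
  · exact ⟨1, Or.inr (Or.inl ⟨rfl, m, h1, h2⟩)⟩
  · exact ⟨2, Or.inr (Or.inr ⟨rfl, m, h1, h2⟩)⟩

theorem Ga_unique {i : Fin 3} {w w' : List Dir} {d f : Dir} {l1 l2 : List Dir}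
    (h : Ga i w d f l1 l2) (h' : Ga i w' d f l1 l2) : w.map (rt d f) = w'.map (rt d f) := by
  rcases h with ⟨rfl, h⟩ | ⟨rfl, M, hM, h⟩ | ⟨rfl, M, hM, h⟩
  · rcases h' with ⟨_, h'⟩ | ⟨h0, _⟩ | ⟨h0, _⟩
    · rw [h, h']
    · exact absurd h0 (by decide)
    · exact absurd h0 (by decide)
  · rcases h' with ⟨h0, _⟩ | ⟨_, M', hM', h'⟩ | ⟨h0, _⟩
    · exact absurd h0 (by decide)
    · have : M = M' := by
        rw [hM] at hM'
        exact List.append_cancel_right hM'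
      rw [h, h', this]
    · exact absurd h0 (by decide)
  · rcases h' with ⟨h0, _⟩ | ⟨h0, _⟩ | ⟨_, M', hM', h'⟩
    · exact absurd h0 (by decide)
    · exact absurd h0 (by decide)
    · have : M = M' := by
        rw [hM] at hM'
        exact (List.cons.inj hM').2
      rw [h, h', this]

theorem Ga_length {i : Fin 3} {w : List Dir} {d f : Dir} {l1 l2 : List Dir}
    (h : Ga i w d f l1 l2) : w.length = l1.length + 1 + l2.length := by
  have e2 : (w.map (rt d f)).length = w.length := List.length_map _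
  rcases h with ⟨-, h⟩ | ⟨-, M, hM, h⟩ | ⟨-, M, hM, h⟩
  · rw [← e2, h]
    simp only [List.length_append, List.length_cons]
    omega
  · rw [← e2, h, hM]
    simp only [List.length_append, List.length_cons, List.length_nil]
    omega
  · rw [← e2, h, hM]
    simp only [List.length_append, List.length_cons]
    omega

theorem rt_id (e : Dir) : rt .xp .zp e = e := by cases e <;> rfl

theorem Rp_id (p : Z3) : Rp .xp .zp p = p := by
  obtain ⟨a, b, c⟩ := p
  have h : cr .zp .xp = .yp := rfl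
  unfold Rp
  rw [h]
  ext <;> simp [vec]

theorem blk_map_id (T : ℕ) (v : List Dir) : (blk T v).map (rt .xp .zp) = blk T v := by
  have h : rt .xp .zp = id := funext rt_id
  rw [h, List.map_id]

theorem Oc_spot {T L : ℕ} {v l1 l2 : List Dir} (h : Spot T L l1 l2) :
    (l2.length, Dir.xp, Dir.zp) ∈ oc T L v (l1 ++ blk T v ++ l2) := by
  rw [mem_oc]
  refine ⟨?_, l1, l2, ?_, rfl, ?_⟩
  · change perp .xp .zp
    decide
  · simp only
    rw [blk_map_id]
  · obtain ⟨-, h1, h2⟩ := h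
    refine ⟨fun j hj hj' => ?_, fun g a1 a2 a3 a4 a5 => ?_⟩
    · simp only
      rw [Rp_id, Rp_id]
      exact h1 j hj hj'
    · simp only
      rw [Rp_id]
      exact h2 g a1 a2 a3 a4 a5

/-- the counting -/
theorem count (hrtc : T_rtc) (T L : ℕ) (v : List Dir) (S S' : Finset (List Dir))
    (C : List Dir → Finset Z3) (M : ℕ) (hM : ∀ w' ∈ S', (oc T L v w').card ≤ M)
    (h : ∀ w ∈ S, ∀ x ∈ C w, ∃ (d f : Dir) (l1 l2 : List Dir), Gd T L w d f l1 l2 ∧
      near 6 (pos l2) (Rp d f x) ∧ l1 ++ blk T v ++ l2 ∈ S') :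
    ∑ w ∈ S, (C w).card ≤ S'.card * (M * (6 * (6 * (3 * 13 ^ 3)))) := by
  rw [← Finset.card_sigma]
  have hcard : ((S'.sigma (fun w' => oc T L v w')) ×ˢ ((univ : Finset Dir) ×ˢ
      ((univ : Finset Dir) ×ˢ ((univ : Finset (Fin 3)) ×ˢ K2WCNT.box 6 0)))).card ≤
      S'.card * (M * (6 * (6 * (3 * 13 ^ 3)))) := by
    rw [card_product, card_product, card_product, card_product, K2WCNT.card_box,
      card_univ, card_univ, card_sigma]
    have e1 : Fintype.card Dir = 6 := rfl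
    have e2 : Fintype.card (Fin 3) = 3 := rfl
    rw [e1, e2]
    have h1 : ∑ w' ∈ S', (oc T L v w').card ≤ S'.card * M := by
      rw [← smul_eq_mul]
      exact Finset.sum_le_card_nsmul _ _ _ hM
    calc (∑ w' ∈ S', (oc T L v w').card) * (6 * (6 * (3 * (2 * 6 + 1) ^ 3)))
        ≤ (S'.card * M) * (6 * (6 * (3 * (2 * 6 + 1) ^ 3))) := Nat.mul_le_mul_right _ h1
      _ = S'.card * (M * (6 * (6 * (3 * 13 ^ 3)))) := by ring
  refine le_trans ?_ hcard
  apply Finset.card_le_card_of_forall_subsingleton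
    (fun (p : (_ : List Dir) × Z3) (q : ((_ : List Dir) × (ℕ × Dir × Dir)) ×
        (Dir × Dir × Fin 3 × Z3)) =>
      ∃ l1 l2 : List Dir, perp q.2.1 q.2.2.1 ∧ q.1.1 = l1 ++ blk T v ++ l2 ∧
        l2.length = q.1.2.1 ∧ q.1.2.2 = (Dir.xp, Dir.zp) ∧
        Ga q.2.2.2.1 p.1 q.2.1 q.2.2.1 l1 l2 ∧
        q.2.2.2.2 = Rp q.2.1 q.2.2.1 p.2 - pos l2)
  · rintro ⟨w, x⟩ hp
    rw [mem_sigma] at hp
    obtain ⟨hw, hx⟩ := hp
    simp only at hw hx
    obtain ⟨d, f, l1, l2, h1, h2, h3⟩ := h w hw x hx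
    obtain ⟨i, hi⟩ := exists_Ga h1
    refine ⟨(⟨l1 ++ blk T v ++ l2, (l2.length, Dir.xp, Dir.zp)⟩, (d, f, i, Rp d f x - pos l2)),
      ?_, l1, l2, h1.1, rfl, rfl, rfl, hi, rfl⟩
    simp only [mem_product, mem_sigma, mem_univ, true_and]
    refine ⟨⟨h3, Oc_spot h1.2.1⟩, ?_⟩
    rw [K2WCNT.mem_box]
    unfold near at h2 ⊢
    obtain ⟨h5, h6, h7⟩ := h2
    rw [abs_sub_comm] at h5 h6 h7
    refine ⟨?_, ?_, ?_⟩
    · simpa using h5
    · simpa using h6
    · simpa using h7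
  · rintro ⟨⟨w', k, g⟩, d, f, i, y⟩ _ ⟨w₁, x₁⟩ h1 ⟨w₂, x₂⟩ h2
    simp only [Set.mem_ofPred_eq] at h1 h2
    obtain ⟨-, l1, l2, hp, e1, e2, -, e3, e4⟩ := h1
    obtain ⟨-, m1, m2, -, e1', e2', -, e3', e4'⟩ := h2
    rw [e1] at e1'
    have hl2 : l2 = m2 := (List.append_inj' e1' (by rw [e2, e2'])).2
    subst hl2
    have hl1 : l1 = m1 := List.append_cancel_right (List.append_cancel_right e1')
    subst hl1
    have hri : Function.Injective (rt d f) := by
      obtain ⟨⟨d', f', -, -, -, h1, -, -, -⟩, -⟩ := hrtc d f hp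
      exact Function.LeftInverse.injective h1
    have hW : w₁ = w₂ := (List.map_injective_iff.2 hri) (Ga_unique e3 e3')
    have hx : x₁ = x₂ := by
      rw [e4] at e4'
      exact K2WCNT.Rp_inj hrtc hp (sub_left_injective e4')
    subst hW hx
    rfl

/-- the data of a block of a knot type in the class `Q` -/
structure Dat (Q : List Dir → Prop) (T L R : ℕ) (v : List Dir) : Prop where
  cls : KClass Q
  sum : CSum Q
  sm : SmR L v
  q : Q (.zm :: v)
  lat : LLat T L R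
  R1 : 1 ≤ R

/-- insertion of a block stays in the class -/
theorem Dat.ins {Q : List Dir → Prop} {T L R : ℕ} {v : List Dir} (D : Dat Q T L R v)
    {w : List Dir} (hw : SAP w) (hQ : Q w) {d f : Dir} {l1 l2 : List Dir}
    (h : Gd T L w d f l1 l2) : SAP (l1 ++ blk T v ++ l2) ∧ Q (l1 ++ blk T v ++ l2) := by
  obtain ⟨-, hspot, hsame, -⟩ := h
  have hs0 : SAP (l1 ++ .zp :: l2) := hspot.1
  have hQ0 : Q (l1 ++ .zp :: l2) := D.cls.same _ _ hw hs0 hsame hQ
  obtain ⟨m1, m2, hm, hmx, hms⟩ := K3YTYPE.rep_R hs0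
  have hQ1 : Q (m1 ++ .zp :: m2) := D.cls.same _ _ hs0 hm hms.symm hQ0
  have hB := K3YTYPE.bgL L hm hmx
  obtain ⟨g1, g2⟩ := d_master T L l1 l2 m1 m2 v hspot D.sm hB hms.symm
  have hj : SAP (join m1 v m2) := T_sapL_proof L m1 v m2 hB D.sm
  have hF : Facing m1 v m2 := ⟨hm, hmx, D.sm.1, fun p hp => (D.sm.2 p hp).1⟩
  exact ⟨g1, D.cls.same _ _ hj g1 g2.symm (D.sum m1 v m2 hF hQ1 D.q)⟩

/-- the number of polygons with less than `m` occurrences -/
def F (Q : List Dir → Prop) (T L : ℕ) (v : List Dir) (n m : ℕ) : ℕ :=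
  ((K Q n).filter (fun w => (oc T L v w).card < m)).card

theorem F_le {Q : List Dir → Prop} {T L : ℕ} {v : List Dir} {n m : ℕ} :
    F Q T L v n m ≤ a Q n := card_le_card (filter_subset _ _)

/-- the number `36 * 3 * 13 ^ 3` -/
@[irreducible] def kap : ℕ := 6 * (6 * (3 * 13 ^ 3))

/-- one step -/
theorem step {Q : List Dir → Prop} {T L R : ℕ} {v : List Dir} (D : Dat Q T L R v) :
    ∃ c : ℝ, 0 < c ∧ ∀ᶠ n : ℕ in atTop, ∀ m : ℕ,
      c * (n : ℝ) ^ (2 / 3 : ℝ) * F Q T L v n m ≤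
        (kap * (m + DD T L v) : ℝ) * F Q T L v (n + ((blk T v).length - 1)) (m + DD T L v) := by
  obtain ⟨c, hc, hev⟩ := d_many R D.R1
  refine ⟨c, hc, ?_⟩
  filter_upwards [hev] with n hn m
  have hC : ∀ w : List Dir, ∃ C : Finset Z3, w ∈ K Q n →
      (c * (n : ℝ) ^ (2 / 3 : ℝ) ≤ C.card ∧ ∀ x ∈ C, ¬ near 6 x 0 ∧
        ∃ N, Cont R {p | p ∈ path w} x N) := by
    intro w
    by_cases hw : w ∈ K Q n
    · obtain ⟨h1, h2, -⟩ := mem_K.1 hw
      obtain ⟨C, hC1, hC2⟩ := hn w h2 h1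
      exact ⟨C, fun _ => ⟨hC1, hC2⟩⟩
    · exact ⟨∅, fun h => absurd h hw⟩
  choose C hC using hC
  have key := count T_rtc_proof T L v ((K Q n).filter (fun w => (oc T L v w).card < m))
    ((K Q (n + ((blk T v).length - 1))).filter
      (fun w => (oc T L v w).card < m + DD T L v)) C (m + DD T L v)
    (fun w' hw' => (mem_filter.1 hw').2.le) (by
      intro w hw x hx
      rw [mem_filter] at hw
      obtain ⟨hw1, hw2⟩ := hw
      obtain ⟨-, h3⟩ := hC w hw1
      obtain ⟨h4, N, h5⟩ := h3 x hx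
      obtain ⟨hl, hs, hq⟩ := mem_K.1 hw1
      obtain ⟨d, f, l1, l2, hG, hnear⟩ := d_step T L R D.lat w hs x N h5 h4
      refine ⟨d, f, l1, l2, hG, hnear, ?_⟩
      rw [mem_filter, mem_K]
      obtain ⟨g1, g2⟩ := D.ins hs hq hG
      refine ⟨⟨?_, g1, g2⟩, ?_⟩
      · obtain ⟨i, hi⟩ := exists_Ga hG
        have h6 := Ga_length hi
        have h7 := blk_len T v
        simp only [List.length_append]
        omega
      · have h8 := oc_Gd T_rtc_proof T_Wrep_proof d_ssap D.sm hG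
        omega)
  have hlow : c * (n : ℝ) ^ (2 / 3 : ℝ) * F Q T L v n m ≤
      ((∑ w ∈ (K Q n).filter (fun w => (oc T L v w).card < m), (C w).card : ℕ) : ℝ) := by
    push_cast
    unfold F
    rw [mul_comm, ← nsmul_eq_mul]
    exact Finset.card_nsmul_le_sum _ _ _ (fun w hw => (hC w (mem_filter.1 hw).1).1)
  have key' : ((∑ w ∈ (K Q n).filter (fun w => (oc T L v w).card < m), (C w).card : ℕ) : ℝ) ≤
      (F Q T L v (n + ((blk T v).length - 1)) (m + DD T L v) : ℝ) *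
        ((m + DD T L v) * kap) := by
    unfold kap F
    exact_mod_cast key
  refine (hlow.trans key').trans (le_of_eq ?_)
  ring

/-- iteration -/
theorem iter {Q : List Dir → Prop} {T L : ℕ} {v : List Dir} {c : ℝ} (hc : 0 < c) {n0 e : ℕ}
    (hn0 : 1 ≤ n0)
    (h : ∀ n, n0 ≤ n → ∀ m : ℕ, c * (n : ℝ) ^ (2 / 3 : ℝ) * F Q T L v n m ≤
        (kap * (m + DD T L v) : ℝ) * F Q T L v (n + e) (m + DD T L v)) :
    ∀ J n m : ℕ, n0 ≤ n → (F Q T L v n m : ℝ) ≤
      (kap * (m + J * DD T L v) / (c * (n : ℝ) ^ (2 / 3 : ℝ)) : ℝ) ^ J *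
        F Q T L v (n + J * e) (m + J * DD T L v) := by
  intro J
  induction J with
  | zero =>
    intro n m _
    simp
  | succ J ih =>
    intro n m hn
    have hnp : (0 : ℝ) < (n : ℝ) := by exact_mod_cast (by omega : 0 < n)
    have hpow : 0 < c * (n : ℝ) ^ (2 / 3 : ℝ) := by positivity
    have h1 := h n hn m
    have h2 := ih (n + e) (m + DD T L v) (by omega)
    have e1 : n + e + J * e = n + (J + 1) * e := by ring
    have e2 : m + DD T L v + J * DD T L v = m + (J + 1) * DD T L v := by ring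
    rw [e1, e2] at h2
    set X : ℝ := (F Q T L v (n + (J + 1) * e) (m + (J + 1) * DD T L v) : ℝ) with hX
    have hX0 : 0 ≤ X := Nat.cast_nonneg _
    set Y : ℝ := (kap * (m + ((J + 1 : ℕ) : ℝ) * DD T L v) / (c * (n : ℝ) ^ (2 / 3 : ℝ)) : ℝ)
      with hY
    have hY0 : 0 ≤ Y := by positivity
    have h3 : (kap * (((m + DD T L v : ℕ) : ℝ) + J * DD T L v) /
        (c * ((n + e : ℕ) : ℝ) ^ (2 / 3 : ℝ)) : ℝ) ≤ Y := by
      rw [hY]
      apply div_le_div₀ (by positivity) _ hpow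
      · apply mul_le_mul_of_nonneg_left _ hc.le
        apply Real.rpow_le_rpow hnp.le _ (by norm_num)
        push_cast
        linarith [(Nat.cast_nonneg e : (0 : ℝ) ≤ e)]
      · push_cast
        apply le_of_eq
        ring
    have h4 : (F Q T L v (n + e) (m + DD T L v) : ℝ) ≤ Y ^ J * X := by
      refine h2.trans (mul_le_mul_of_nonneg_right ?_ hX0)
      exact pow_le_pow_left₀ (by positivity) h3 J
    have h5 : (F Q T L v n m : ℝ) ≤ (kap * (m + DD T L v) : ℝ) / (c * (n : ℝ) ^ (2 / 3 : ℝ)) *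
        F Q T L v (n + e) (m + DD T L v) := by
      rw [div_mul_eq_mul_div, le_div_iff₀ hpow]
      linarith
    have h6 : (kap * (m + DD T L v) : ℝ) / (c * (n : ℝ) ^ (2 / 3 : ℝ)) ≤ Y := by
      rw [hY]
      apply div_le_div_of_nonneg_right _ hpow.le
      apply mul_le_mul_of_nonneg_left _ (Nat.cast_nonneg _)
      push_cast
      have : (0 : ℝ) ≤ J * DD T L v := by positivity
      linarith
    calc (F Q T L v n m : ℝ) ≤ (kap * (m + DD T L v) : ℝ) / (c * (n : ℝ) ^ (2 / 3 : ℝ)) *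
          F Q T L v (n + e) (m + DD T L v) := h5
      _ ≤ Y * (Y ^ J * X) := mul_le_mul h6 h4 (Nat.cast_nonneg _) hY0
      _ = Y ^ (J + 1) * X := by ring

/-- growth of the number of polygons -/
theorem growth {Q : List Dir → Prop} (hQ : KClass Q) (hc : CSum Q) (hne : ∃ w, SAP w ∧ Q w) :
    ∃ j0 : ℕ, ∀ i j : ℕ, j0 ≤ j → (a Q (2 * (j + i)) : ℝ) ≤ 27 ^ i * a Q (2 * j) := by
  have h1 := (class_sum Q hQ hne hc).2
  have h2 := class_pos Q hQ hne
  obtain ⟨h3, -, h4⟩ := gr_bounds Q hQ hne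
  have h5 : gr Q ^ 2 < 26 := by nlinarith
  have h6 := h1.eventually (gt_mem_nhds h5)
  obtain ⟨j0, hj0⟩ := eventually_atTop.1 (h6.and (h2.and (eventually_ge_atTop 26)))
  refine ⟨j0, fun i => ?_⟩
  have step : ∀ j, j0 ≤ j → (a Q (2 * (j + 1)) : ℝ) ≤ 27 * a Q (2 * j) := by
    intro j hj
    obtain ⟨g1, g2, g3⟩ := hj0 j hj
    have hj1 : (26 : ℝ) ≤ j := by exact_mod_cast g3
    rw [div_lt_iff₀ g2] at g1
    unfold pq at g1
    have e1 : ((2 * j + 2 : ℕ) : ℝ) = 2 * (j + 1) := by push_cast; ring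
    have e2 : ((2 * j : ℕ) : ℝ) = 2 * j := by push_cast; ring
    rw [e1, e2] at g1
    have e3 : 2 * (j + 1) = 2 * j + 2 := by ring
    rw [e3]
    have hA : (0 : ℝ) ≤ (a Q (2 * j) : ℝ) := Nat.cast_nonneg _
    rw [div_lt_iff₀ (by positivity)] at g1
    have e4 : 26 * ((a Q (2 * j) : ℝ) / (2 * (2 * j))) * (2 * (2 * (j + 1))) =
        (a Q (2 * j) : ℝ) * (26 * (j + 1) / j) := by
      field_simp
    rw [e4] at g1
    have e5 : 26 * ((j : ℝ) + 1) / j ≤ 27 := by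
      rw [div_le_iff₀ (by linarith)]
      linarith
    nlinarith [mul_le_mul_of_nonneg_left e5 hA]
  induction i with
  | zero =>
    intro j _
    simp
  | succ i ih =>
    intro j hj
    have h7 := ih (j + 1) (by omega)
    have h8 := step j hj
    have e : j + (i + 1) = j + 1 + i := by ring
    rw [e]
    calc (a Q (2 * (j + 1 + i)) : ℝ) ≤ 27 ^ i * a Q (2 * (j + 1)) := h7
      _ ≤ 27 ^ i * (27 * a Q (2 * j)) := mul_le_mul_of_nonneg_left h8 (by positivity)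
      _ = 27 ^ (i + 1) * a Q (2 * j) := by ring

theorem blk_even {L : ℕ} (T : ℕ) {v : List Dir} (hv : SmR L v) :
    ∃ e : ℕ, (blk T v).length - 1 = 2 * e := by
  have hodd : (v.length + 1) % 2 = 0 := by
    have h2 := even_of_closed (hv.1.2.1)
    simpa using h2
  have := blk_len T v
  exact ⟨((blk T v).length - 1) / 2, by omega⟩

/-- few polygons have few occurrences -/
theorem few {Q : List Dir → Prop} {T L R : ℕ} {v : List Dir} (D : Dat Q T L R v) :
    ∃ δ : ℝ, 0 < δ ∧ ∀ᶠ j : ℕ in atTop, ∀ J : ℕ, (J : ℝ) ≤ δ * (2 * j : ℝ) ^ (2 / 3 : ℝ) →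
      (F Q T L v (2 * j) J : ℝ) ≤ (1 / 2) ^ J * a Q (2 * j) := by
  obtain ⟨c, hc, hev⟩ := step D
  obtain ⟨n0, hn0⟩ := eventually_atTop.1 (hev.and (eventually_ge_atTop 1))
  have hn0' : 1 ≤ n0 := (hn0 n0 le_rfl).2
  obtain ⟨e, he⟩ := blk_even T D.sm
  rw [he] at hn0
  have hit := iter (Q := Q) (T := T) (L := L) (v := v) hc (n0 := n0) (e := 2 * e) hn0'
    (fun n hn m => (hn0 n hn).1 m)
  obtain ⟨j0, hj0⟩ := growth D.cls D.sum ⟨_, D.sm.1, D.q⟩
  set B : ℝ := kap * (1 + DD T L v) / c with hB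
  have hkap : (0 : ℝ) < kap := by unfold kap; norm_num
  have hB0 : 0 < B := by
    rw [hB]
    apply div_pos (mul_pos hkap _) hc
    positivity
  clear_value B
  refine ⟨1 / (2 * B * 27 ^ e), by positivity, ?_⟩
  filter_upwards [eventually_ge_atTop n0, eventually_ge_atTop j0] with j h1 h2 J hJ
  have hj1 : 1 ≤ j := by omega
  have hj : (0 : ℝ) < j := by exact_mod_cast hj1
  have h3 := hit J (2 * j) J (by omega)
  have h4 : (F Q T L v (2 * j + J * (2 * e)) (J + J * DD T L v) : ℝ) ≤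
      (27 ^ e) ^ J * a Q (2 * j) := by
    have g1 : (F Q T L v (2 * j + J * (2 * e)) (J + J * DD T L v) : ℝ) ≤
        (a Q (2 * j + J * (2 * e)) : ℝ) := by exact_mod_cast F_le
    have g2 := hj0 (J * e) j h2
    have e1 : 2 * (j + J * e) = 2 * j + J * (2 * e) := by ring
    rw [e1] at g2
    refine (g1.trans g2).trans (le_of_eq ?_)
    rw [← pow_mul, mul_comm e J]
  have hx : (0 : ℝ) < (2 * j : ℝ) ^ (2 / 3 : ℝ) := by positivity
  have e2 : ((2 * j : ℕ) : ℝ) = 2 * j := by push_cast; ring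
  rw [e2] at h3
  have h5 : (kap * ((J : ℝ) + J * DD T L v) / (c * (2 * j : ℝ) ^ (2 / 3 : ℝ)) : ℝ) ≤
      1 / (2 * 27 ^ e) := by
    have e3 : (kap * ((J : ℝ) + J * DD T L v) / (c * (2 * j : ℝ) ^ (2 / 3 : ℝ)) : ℝ) =
        B * (J / (2 * j : ℝ) ^ (2 / 3 : ℝ)) := by
      rw [hB]
      field_simp
    rw [e3]
    have h6 : (J : ℝ) / (2 * j : ℝ) ^ (2 / 3 : ℝ) ≤ 1 / (2 * B * 27 ^ e) := by
      rw [div_le_iff₀ hx]
      exact hJ
    calc B * (J / (2 * j : ℝ) ^ (2 / 3 : ℝ)) ≤ B * (1 / (2 * B * 27 ^ e)) :=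
          mul_le_mul_of_nonneg_left h6 hB0.le
      _ = 1 / (2 * 27 ^ e) := by field_simp
  calc (F Q T L v (2 * j) J : ℝ) ≤ _ := h3
    _ ≤ (1 / (2 * 27 ^ e)) ^ J * ((27 ^ e) ^ J * a Q (2 * j)) := by
        apply mul_le_mul _ h4 (Nat.cast_nonneg _) (by positivity)
        exact pow_le_pow_left₀ (by positivity) h5 J
    _ = (1 / 2) ^ J * a Q (2 * j) := by
        rw [← mul_assoc, ← mul_pow]
        congr 2
        field_simp

end MS

end

end KN
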