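import Pool.Agent.H246K3.All3

/-!
# Equivalence of locally flat functions and of gauge fields
-/

set_option autoImplicit false

namespace KN

open Filter Topology

namespace MS

variable {G : Type} [Group G]

/-- equivalence of functions of two points on `X` -/
def EqT (X : Set V) (T T' : V → V → G) : Prop := ∃ φ : V → G, ∀ x ∈ X, ∃ N ∈ 𝓝 x,
  ∀ a ∈ N, ∀ b ∈ N, φ a * T a b * (φ b)⁻¹ = T' a b

theorem EqT.symm {X : Set V} {T T' : V → V → G} (h : EqT X T T') : EqT X T' T := by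
  obtain ⟨φ, h⟩ := h
  refine ⟨fun a => (φ a)⁻¹, fun x hx => ?_⟩
  obtain ⟨N, hN, h1⟩ := h x hx
  refine ⟨N, hN, fun a ha b hb => ?_⟩
  rw [← h1 a ha b hb]
  group

theorem EqT.trans {X : Set V} {T T' T'' : V → V → G} (h : EqT X T T') (h' : EqT X T' T'') :
    EqT X T T'' := by
  obtain ⟨φ, h⟩ := h
  obtain ⟨φ', h'⟩ := h'
  refine ⟨fun a => φ' a * φ a, fun x hx => ?_⟩
  obtain ⟨N, hN, h1⟩ := h x hx
  obtain ⟨N', hN', h1'⟩ := h' x hx
  refine ⟨N ∩ N', inter_mem hN hN', fun a ha b hb => ?_⟩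
  rw [← h1' a ha.2 b hb.2, ← h1 a ha.1 b hb.1]
  group

theorem EqT.mono {X X' : Set V} {T T' : V → V → G} (h : EqT X' T T') (hX : X ⊆ X') :
    EqT X T T' := by
  obtain ⟨φ, h⟩ := h
  exact ⟨φ, fun x hx => h x (hX hx)⟩

theorem EqT.refl (X : Set V) (T : V → V → G) : EqT X T T :=
  ⟨fun _ => 1, fun _ _ => ⟨Set.univ, univ_mem, fun a _ b _ => by group⟩⟩

/-- cyclic holonomy is a property of the equivalence class -/
theorem AbOn_congr {X : Set V} {T T' : V → V → G} (h : EqT X T T') (ha : AbOn X T) :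
    AbOn X T' := by
  obtain ⟨φ, h⟩ := h.symm
  obtain ⟨ψ, κ, ha⟩ := ha
  refine ⟨fun a => ψ a * φ a, κ, fun x hx => ?_⟩
  obtain ⟨N, hN, h1⟩ := h x hx
  obtain ⟨N', hN', h1'⟩ := ha x hx
  refine ⟨N ∩ N', inter_mem hN hN', fun a ha b hb => ?_⟩
  have h2 := h1' a ha.2 b hb.2
  rw [← h1 a ha.1 b hb.1] at h2
  convert h2 using 1
  group

/-- gauge equivalence -/
def EqG (g g' : Gauge G) : Prop := ∃ φ : Z3 → G, ∀ (c : Z3) (d : Dir),
  φ c * gst g c d * (φ (c + vec d))⁻¹ = gst g' c d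

theorem eqG_tr (g : Gauge G) (ψ : Z3 → G) : EqG g (K3XNORM.tr g ψ) :=
  ⟨ψ, fun c d => (K3XNORM.gst_tr g ψ c d).symm⟩

theorem Cyc_of_eqG {g g' : Gauge G} (h : EqG g g') (hc : Cyc g') : Cyc g := by
  obtain ⟨ψ, h⟩ := h
  obtain ⟨φ, κ, hc⟩ := hc
  refine ⟨fun c => φ c * ψ c, κ, fun c d => ?_⟩
  have h1 := hc c d
  rw [← h c d] at h1
  convert h1 using 1
  group

open K2NONAB in
/-- the exact version of the step lemma -/
theorem step_eq (g g' : Gauge G) (w : List Dir) (hw : SAP w) (φ : V → G)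
    (hφ : ∀ x ∈ (ps (vl w))ᶜ, ∃ N ∈ 𝓝 x, ∀ a ∈ N, ∀ b ∈ N,
      φ a * TT g a b * (φ b)⁻¹ = TT g' a b) (c : Z3) (d : Dir) :
    φ (mid c) * gst g c d * (φ (mid (c + vec d)))⁻¹ = gst g' c d := by
  set F : ℝ → G := fun s => φ (mid c) * gtr g c (cube (gam c d s)) * (φ (gam c d s))⁻¹ *
    (gtr g' c (cube (gam c d s)))⁻¹ with hF
  set cl : ℝ → ℝ := fun s => max 0 (min s 1) with hcl
  have hclc : Continuous cl := by fun_prop
  have hcl0 : ∀ s, 0 ≤ cl s := fun s => le_max_left _ _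
  have hcl1 : ∀ s, cl s ≤ 1 := fun s => max_le zero_le_one (min_le_right _ _)
  have hloc : IsLocallyConstant (fun s : ℝ => F (cl s)) := by
    rw [IsLocallyConstant.iff_eventually_eq]
    intro s
    obtain ⟨N, hN, hab⟩ := hφ (gam c d (cl s)) (gam_not_mem w hw c d (cl s))
    have hcont : Continuous (fun s => gam c d (cl s)) := (gam_cont c d).comp hclc
    filter_upwards [hcont.continuousAt.preimage_mem_nhds hN] with s' hs'
    have h1 := hab _ (mem_of_mem_nhds hN) _ hs'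
    have h2 : ∀ g : Gauge G, TT g (gam c d (cl s)) (gam c d (cl s')) =
        (gtr g c (cube (gam c d (cl s))))⁻¹ * gtr g c (cube (gam c d (cl s'))) := fun g =>
      gtr_two g c d _ _ (cube_gam c d _ (hcl0 _) (hcl1 _)) (cube_gam c d _ (hcl0 _) (hcl1 _))
    rw [h2, h2] at h1
    have h4 : gtr g' c (cube (gam c d (cl s'))) = gtr g' c (cube (gam c d (cl s))) *
        (φ (gam c d (cl s)) * ((gtr g c (cube (gam c d (cl s))))⁻¹ *
          gtr g c (cube (gam c d (cl s')))) * (φ (gam c d (cl s')))⁻¹) := by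
      rw [h1]
      group
    simp only [hF]
    rw [h4]
    group
  have heq := hloc.apply_eq_of_preconnectedSpace 0 1
  have c0 : cl 0 = 0 := by simp [hcl]
  have c1 : cl 1 = 1 := by simp [hcl]
  simp only [c0, c1] at heq
  simp only [hF, gam_zero, gam_one, cube_mid, gtr_self, gtr_step, mul_one, inv_one,
    mul_inv_cancel] at heq
  exact mul_inv_eq_one.1 heq.symm

/-- equivalent functions come from equivalent gauge fields -/
theorem eqG_of_eqT {g g' : Gauge G} {w : List Dir} (hw : SAP w)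
    (h : EqT (ps (vl w))ᶜ (TT g) (TT g')) : EqG g g' := by
  obtain ⟨φ, h⟩ := h
  exact ⟨fun c => φ (K2NONAB.mid c), fun c d => step_eq g g' w hw φ h c d⟩

theorem gse_eq {g g' : Gauge G} {φ : Z3 → G}
    (h : ∀ (c : Z3) (d : Dir), φ c * gst g c d * (φ (c + vec d))⁻¹ = gst g' c d)
    (c : Z3) (p m : Dir) (hpm : m = neg p) (e : ℤ) (he : e = 1 ∨ e = -1 ∨ e = 0) :
    φ c * gse g c p m e * (φ (c + e • vec p))⁻¹ = gse g' c p m e := by
  rcases he with rfl | rfl | rfl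
  · have := h c p
    simp only [gse, if_true, one_smul]
    exact this
  · have h1 := h c m
    have e1 : c + (-1 : ℤ) • vec p = c + vec m := by rw [hpm, vec_neg, neg_smul, one_smul]
    rw [e1]
    have k1 : ∀ g : Gauge G, gse g c p m (-1) = gst g c m := fun g => by simp [gse]
    rw [k1, k1]
    exact h1
  · have k1 : ∀ g : Gauge G, gse g c p m 0 = 1 := fun g => by simp [gse]
    rw [k1, k1, zero_smul, add_zero]
    group

theorem gtr_eq {g g' : Gauge G} {φ : Z3 → G}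
    (h : ∀ (c : Z3) (d : Dir), φ c * gst g c d * (φ (c + vec d))⁻¹ = gst g' c d)
    (c c' : Z3) (h1 : |c'.1 - c.1| ≤ 1) (h2 : |c'.2.1 - c.2.1| ≤ 1) (h3 : |c'.2.2 - c.2.2| ≤ 1) :
    φ c * gtr g c c' * (φ c')⁻¹ = gtr g' c c' := by
  have k : ∀ e : ℤ, |e| ≤ 1 → e = 1 ∨ e = -1 ∨ e = 0 := by
    intro e he
    rw [abs_le] at he
    omega
  have a1 := gse_eq h c .xp .xm rfl _ (k _ h1)
  have a2 := gse_eq h (c'.1, c.2.1, c.2.2) .yp .ym rfl _ (k _ h2)
  have a3 := gse_eq h (c'.1, c'.2.1, c.2.2) .zp .zm rfl _ (k _ h3)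
  have e1 : c + (c'.1 - c.1) • vec .xp = (c'.1, c.2.1, c.2.2) := by
    ext <;> simp [vec]
  have e2 : ((c'.1, c.2.1, c.2.2) : Z3) + (c'.2.1 - c.2.1) • vec .yp = (c'.1, c'.2.1, c.2.2) := by
    ext <;> simp [vec]
  have e3 : ((c'.1, c'.2.1, c.2.2) : Z3) + (c'.2.2 - c.2.2) • vec .zp = c' := by
    ext <;> simp [vec]
  rw [e1] at a1
  rw [e2] at a2
  rw [e3] at a3
  unfold gtr
  rw [← a1, ← a2, ← a3]
  group

theorem floor_near {a b : ℝ} (h : |a - b| < 1) : |⌊a⌋ - ⌊b⌋| ≤ 1 := by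
  rw [abs_lt] at h
  rw [abs_le]
  have h1 := Int.floor_le a
  have h2 := Int.lt_floor_add_one a
  have h3 := Int.floor_le b
  have h4 := Int.lt_floor_add_one b
  constructor
  · by_contra hc
    push Not at hc
    have : ⌊a⌋ + 2 ≤ ⌊b⌋ := by omega
    have h5 : ((⌊a⌋ : ℤ) : ℝ) + 2 ≤ ⌊b⌋ := by exact_mod_cast this
    linarith
  · by_contra hc
    push Not at hc
    have : ⌊b⌋ + 2 ≤ ⌊a⌋ := by omega
    have h5 : ((⌊b⌋ : ℤ) : ℝ) + 2 ≤ ⌊a⌋ := by exact_mod_cast this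
    linarith

/-- equivalent gauge fields give equivalent functions -/
theorem eqT_of_eqG {g g' : Gauge G} (X : Set V) (h : EqG g g') : EqT X (TT g) (TT g') := by
  obtain ⟨φ, h⟩ := h
  refine ⟨fun a => φ (cube a), fun x _ => ⟨Metric.ball x (1 / 2), Metric.ball_mem_nhds x
    (by norm_num), fun a ha b hb => ?_⟩⟩
  have hab : dist b a < 1 := by
    calc dist b a ≤ dist b x + dist x a := dist_triangle _ _ _
      _ < 1 / 2 + 1 / 2 := by
          rw [Metric.mem_ball] at ha hb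
          rw [dist_comm x a]
          linarith
      _ = 1 := by norm_num
  have h1 : |b.1 - a.1| < 1 := by
    have := (le_max_left (dist b.1 a.1) (dist b.2 a.2)).trans_lt (by rwa [← Prod.dist_eq])
    rwa [Real.dist_eq] at this
  have h2 : dist b.2 a.2 < 1 := (le_max_right (dist b.1 a.1) (dist b.2 a.2)).trans_lt
    (by rwa [← Prod.dist_eq])
  have h3 : |b.2.1 - a.2.1| < 1 := by
    have := (le_max_left (dist b.2.1 a.2.1) (dist b.2.2 a.2.2)).trans_lt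
      (by rwa [← Prod.dist_eq])
    rwa [Real.dist_eq] at this
  have h4 : |b.2.2 - a.2.2| < 1 := by
    have := (le_max_right (dist b.2.1 a.2.1) (dist b.2.2 a.2.2)).trans_lt
      (by rwa [← Prod.dist_eq])
    rwa [Real.dist_eq] at this
  exact gtr_eq h (cube a) (cube b) (floor_near h1) (floor_near h3) (floor_near h4)

open K3XDISC in
/-- discretization: every locally flat function is equivalent to the one of a gauge field -/
theorem disc {T : V → V → G} {w : List Dir} (hw : SAP w) (hfl : Flat (ps (vl w))ᶜ T) :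
    ∃ g : Gauge G, GF g w ∧ EqT (ps (vl w))ᶜ T (TT g) := by
  have hpot := T_pot2_proof
  have hsub : ∀ q m, Good w q m → Bx q m ⊆ (ps (vl w))ᶜ := fun q m h x hx =>
    X_box_proof w hw q m h.a1 h.a2 h.a3 h.e12 h.e13 h.e23 x hx
  have hψ : ∀ q m, Good w q m → ∃ ψ, Pot (Bx q m) T ψ := fun q m h =>
    d_convex G _ T hfl (Bx q m) (Bx_open q m) (Bx_convex q m) (hsub q m h)
  obtain ⟨D, hD⟩ := exists_D hpot T w
  let g : Gauge G := ⟨fun c => D (mc c) (mc (c + (1, 0, 0))), fun c => D (mc c) (mc (c + (0, 1, 0))),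
    fun c => D (mc c) (mc (c + (0, 0, 1)))⟩
  have G1 : ∀ (q m : Z3) (ψ : V → G), Good w q m → Pot (Bx q m) T ψ → ∀ c c' : Z3,
      c + (1, 0, 0) = c' → inb q m c → inb q m c' → g.g1 c = (ψ (mc c))⁻¹ * ψ (mc c') := by
    intro q m ψ h1 h2 c c' h3 h4 h5
    subst h3
    exact hD q m ψ h1 h2 _ (mc_mem h4) _ (mc_mem h5)
  have G2 : ∀ (q m : Z3) (ψ : V → G), Good w q m → Pot (Bx q m) T ψ → ∀ c c' : Z3,
      c + (0, 1, 0) = c' → inb q m c → inb q m c' → g.g2 c = (ψ (mc c))⁻¹ * ψ (mc c') := by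
    intro q m ψ h1 h2 c c' h3 h4 h5
    subst h3
    exact hD q m ψ h1 h2 _ (mc_mem h4) _ (mc_mem h5)
  have G3 : ∀ (q m : Z3) (ψ : V → G), Good w q m → Pot (Bx q m) T ψ → ∀ c c' : Z3,
      c + (0, 0, 1) = c' → inb q m c → inb q m c' → g.g3 c = (ψ (mc c))⁻¹ * ψ (mc c') := by
    intro q m ψ h1 h2 c c' h3 h4 h5
    subst h3
    exact hD q m ψ h1 h2 _ (mc_mem h4) _ (mc_mem h5)
  refine ⟨g, ?_, ?_⟩
  · intro q
    refine ⟨?_, ?_, ?_⟩
    · by_cases h : Eg w q .zp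
      · exact Or.inl h
      · right
        have hg : Good w q (1, 1, 0) := ⟨Or.inr rfl, Or.inr rfl, Or.inl rfl,
          fun _ _ => ⟨h, fun h0 => absurd h0 (by decide)⟩, fun _ h0 => absurd h0 (by decide),
          fun _ h0 => absurd h0 (by decide)⟩
        obtain ⟨ψ, hψ1⟩ := hψ q _ hg
        unfold Fl12
        rw [G1 q _ ψ hg hψ1 (q - (1, 1, 0)) (q - (0, 1, 0)) (by ext <;> simp)
            (by refine ⟨?_, ?_, ?_, ?_, ?_, ?_⟩ <;> simp) (by refine ⟨?_, ?_, ?_, ?_, ?_, ?_⟩ <;> simp),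
          G2 q _ ψ hg hψ1 (q - (0, 1, 0)) q (by ext <;> simp)
            (by refine ⟨?_, ?_, ?_, ?_, ?_, ?_⟩ <;> simp) (by refine ⟨?_, ?_, ?_, ?_, ?_, ?_⟩ <;> simp),
          G2 q _ ψ hg hψ1 (q - (1, 1, 0)) (q - (1, 0, 0)) (by ext <;> simp)
            (by refine ⟨?_, ?_, ?_, ?_, ?_, ?_⟩ <;> simp) (by refine ⟨?_, ?_, ?_, ?_, ?_, ?_⟩ <;> simp),
          G1 q _ ψ hg hψ1 (q - (1, 0, 0)) q (by ext <;> simp)
            (by refine ⟨?_, ?_, ?_, ?_, ?_, ?_⟩ <;> simp) (by refine ⟨?_, ?_, ?_, ?_, ?_, ?_⟩ <;> simp)]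
        group
    · by_cases h : Eg w q .yp
      · exact Or.inl h
      · right
        have hg : Good w q (1, 0, 1) := ⟨Or.inr rfl, Or.inl rfl, Or.inr rfl,
          fun _ h0 => absurd h0 (by decide), fun _ _ => ⟨h, fun h0 => absurd h0 (by decide)⟩,
          fun h0 => absurd h0 (by decide)⟩
        obtain ⟨ψ, hψ1⟩ := hψ q _ hg
        unfold Fl13
        rw [G1 q _ ψ hg hψ1 (q - (1, 0, 1)) (q - (0, 0, 1)) (by ext <;> simp)
            (by refine ⟨?_, ?_, ?_, ?_, ?_, ?_⟩ <;> simp) (by refine ⟨?_, ?_, ?_, ?_, ?_, ?_⟩ <;> simp),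
          G3 q _ ψ hg hψ1 (q - (0, 0, 1)) q (by ext <;> simp)
            (by refine ⟨?_, ?_, ?_, ?_, ?_, ?_⟩ <;> simp) (by refine ⟨?_, ?_, ?_, ?_, ?_, ?_⟩ <;> simp),
          G3 q _ ψ hg hψ1 (q - (1, 0, 1)) (q - (1, 0, 0)) (by ext <;> simp)
            (by refine ⟨?_, ?_, ?_, ?_, ?_, ?_⟩ <;> simp) (by refine ⟨?_, ?_, ?_, ?_, ?_, ?_⟩ <;> simp),
          G1 q _ ψ hg hψ1 (q - (1, 0, 0)) q (by ext <;> simp)
            (by refine ⟨?_, ?_, ?_, ?_, ?_, ?_⟩ <;> simp) (by refine ⟨?_, ?_, ?_, ?_, ?_, ?_⟩ <;> simp)]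
        group
    · by_cases h : Eg w q .xp
      · exact Or.inl h
      · right
        have hg : Good w q (0, 1, 1) := ⟨Or.inl rfl, Or.inr rfl, Or.inr rfl,
          fun h0 => absurd h0 (by decide), fun h0 => absurd h0 (by decide),
          fun _ _ => ⟨h, fun h0 => absurd h0 (by decide)⟩⟩
        obtain ⟨ψ, hψ1⟩ := hψ q _ hg
        unfold Fl23
        rw [G2 q _ ψ hg hψ1 (q - (0, 1, 1)) (q - (0, 0, 1)) (by ext <;> simp)
            (by refine ⟨?_, ?_, ?_, ?_, ?_, ?_⟩ <;> simp) (by refine ⟨?_, ?_, ?_, ?_, ?_, ?_⟩ <;> simp),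
          G3 q _ ψ hg hψ1 (q - (0, 0, 1)) q (by ext <;> simp)
            (by refine ⟨?_, ?_, ?_, ?_, ?_, ?_⟩ <;> simp) (by refine ⟨?_, ?_, ?_, ?_, ?_, ?_⟩ <;> simp),
          G3 q _ ψ hg hψ1 (q - (0, 1, 1)) (q - (0, 1, 0)) (by ext <;> simp)
            (by refine ⟨?_, ?_, ?_, ?_, ?_, ?_⟩ <;> simp) (by refine ⟨?_, ?_, ?_, ?_, ?_, ?_⟩ <;> simp),
          G2 q _ ψ hg hψ1 (q - (0, 1, 0)) q (by ext <;> simp)
            (by refine ⟨?_, ?_, ?_, ?_, ?_, ?_⟩ <;> simp) (by refine ⟨?_, ?_, ?_, ?_, ?_, ?_⟩ <;> simp)]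
        group
  · refine ⟨fun x => D (mc (cube x)) x, ?_⟩
    intro x hx
    have hg := good_self w hw x hx
    set q := cube x with hq
    set m : Z3 := (mm x.1, mm x.2.1, mm x.2.2) with hm
    obtain ⟨ψ, hψ1⟩ := hψ q m hg
    obtain ⟨N, hN, hNT⟩ := hψ1 x (self_mem x)
    refine ⟨N ∩ Bx q m, inter_mem hN ((Bx_open q m).mem_nhds (self_mem x)), ?_⟩
    intro a ha b hb
    rw [hNT a ha.1 b hb.1]
    have hca := cube_inb ha.2
    have hcb := cube_inb hb.2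
    show D (mc (cube a)) a * ((ψ a)⁻¹ * ψ b) * (D (mc (cube b)) b)⁻¹ = TT g a b
    rw [hD q m ψ hg hψ1 _ (mc_mem hca) a ha.2, hD q m ψ hg hψ1 _ (mc_mem hcb) b hb.2]
    have e0 : (ψ (mc (cube a)))⁻¹ * ψ a * ((ψ a)⁻¹ * ψ b) * ((ψ (mc (cube b)))⁻¹ * ψ b)⁻¹ =
        (ψ (mc (cube a)))⁻¹ * ψ (mc (cube b)) := by group
    rw [e0]
    have hm1 := hg.a1
    have hm2 := hg.a2
    have hm3 := hg.a3
    show _ = gtr g (cube a) (cube b)
    generalize cube a = c at hca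
    generalize cube b = c' at hcb
    obtain ⟨c1, c2, c3⟩ := c
    obtain ⟨d1, d2, d3⟩ := c'
    obtain ⟨h1, h2, h3, h4, h5, h6⟩ := hca
    obtain ⟨k1, k2, k3, k4, k5, k6⟩ := hcb
    simp only at h1 h2 h3 h4 h5 h6 k1 k2 k3 k4 k5 k6
    have s1 : gse g (c1, c2, c3) .xp .xm (d1 - c1) =
        (ψ (mc (c1, c2, c3)))⁻¹ * ψ (mc (d1, c2, c3)) := by
      have hcases : d1 - c1 = 1 ∨ d1 - c1 = -1 ∨ d1 - c1 = 0 := by omega
      rcases hcases with h | h | h
      · rw [h]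
        simp only [gse, if_true]
        exact G1 q m ψ hg hψ1 (c1, c2, c3) (d1, c2, c3) (by ext <;> simp; omega)
          ⟨h1, h2, h3, h4, h5, h6⟩ ⟨k1, k2, h3, h4, h5, h6⟩
      · rw [h, show gse g (c1, c2, c3) .xp .xm (-1) = gst g (c1, c2, c3) .xm from by simp [gse]]
        show (g.g1 ((c1, c2, c3) - (1, 0, 0)))⁻¹ = _
        have e : ((c1, c2, c3) : Z3) - (1, 0, 0) = (d1, c2, c3) := by ext <;> simp; omega
        rw [e, G1 q m ψ hg hψ1 (d1, c2, c3) (c1, c2, c3) (by ext <;> simp; omega)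
          ⟨k1, k2, h3, h4, h5, h6⟩ ⟨h1, h2, h3, h4, h5, h6⟩]
        group
      · rw [h]
        have : d1 = c1 := by omega
        rw [this]
        simp [gse]
    have s2 : gse g (d1, c2, c3) .yp .ym (d2 - c2) =
        (ψ (mc (d1, c2, c3)))⁻¹ * ψ (mc (d1, d2, c3)) := by
      have hcases : d2 - c2 = 1 ∨ d2 - c2 = -1 ∨ d2 - c2 = 0 := by omega
      rcases hcases with h | h | h
      · rw [h]
        simp only [gse, if_true]
        exact G2 q m ψ hg hψ1 (d1, c2, c3) (d1, d2, c3) (by ext <;> simp; omega)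
          ⟨k1, k2, h3, h4, h5, h6⟩ ⟨k1, k2, k3, k4, h5, h6⟩
      · rw [h, show gse g (d1, c2, c3) .yp .ym (-1) = gst g (d1, c2, c3) .ym from by simp [gse]]
        show (g.g2 ((d1, c2, c3) - (0, 1, 0)))⁻¹ = _
        have e : ((d1, c2, c3) : Z3) - (0, 1, 0) = (d1, d2, c3) := by ext <;> simp; omega
        rw [e, G2 q m ψ hg hψ1 (d1, d2, c3) (d1, c2, c3) (by ext <;> simp; omega)
          ⟨k1, k2, k3, k4, h5, h6⟩ ⟨k1, k2, h3, h4, h5, h6⟩]
        group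
      · rw [h]
        have : d2 = c2 := by omega
        rw [this]
        simp [gse]
    have s3 : gse g (d1, d2, c3) .zp .zm (d3 - c3) =
        (ψ (mc (d1, d2, c3)))⁻¹ * ψ (mc (d1, d2, d3)) := by
      have hcases : d3 - c3 = 1 ∨ d3 - c3 = -1 ∨ d3 - c3 = 0 := by omega
      rcases hcases with h | h | h
      · rw [h]
        simp only [gse, if_true]
        exact G3 q m ψ hg hψ1 (d1, d2, c3) (d1, d2, d3) (by ext <;> simp; omega)
          ⟨k1, k2, k3, k4, h5, h6⟩ ⟨k1, k2, k3, k4, k5, k6⟩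
      · rw [h, show gse g (d1, d2, c3) .zp .zm (-1) = gst g (d1, d2, c3) .zm from by simp [gse]]
        show (g.g3 ((d1, d2, c3) - (0, 0, 1)))⁻¹ = _
        have e : ((d1, d2, c3) : Z3) - (0, 0, 1) = (d1, d2, d3) := by ext <;> simp; omega
        rw [e, G3 q m ψ hg hψ1 (d1, d2, d3) (d1, d2, c3) (by ext <;> simp; omega)
          ⟨k1, k2, k3, k4, k5, k6⟩ ⟨k1, k2, k3, k4, h5, h6⟩]
        group
      · rw [h]
        have : d3 = c3 := by omega
        rw [this]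
        simp [gse]
    unfold gtr
    simp only
    rw [s1, s2, s3]
    group

end MS

end KN
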