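import Pool.Agent.U611.MS.Bnd

/-!
# Finite quotients of knot groups
-/

set_option autoImplicit false

namespace KN

open Filter Topology CategoryTheory
open scoped unitInterval

/-- the knot group of `k` has a finite quotient which is not commutative -/
def FNC (k : List V) : Prop := ∃ (x : Cmp k) (G : Type) (_ : Group G) (_ : Finite G)
  (f : FundamentalGroup (Cmp k) x →* G) (a b : FundamentalGroup (Cmp k) x), f a * f b ≠ f b * f a

namespace MS

open K3XNCG

section holonomy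

variable {G : Type} [Group G] {P : V → Prop} (hP : IsOpen {x | P x}) (x0 : {x : V // P x})
  (f : End (FundamentalGroupoid.mk x0) →* G) (φ : V → G) (κ : G)

/-- cyclic holonomy of a morphism -/
def PF {a b : {x : V // P x}} (m : FundamentalGroupoid.mk a ⟶ FundamentalGroupoid.mk b) : Prop :=
  φ b.1 * f (K3XNCG.W (FundamentalGroupoid.mk x0) m) * (φ a.1)⁻¹ ∈ Subgroup.zpowers κ

theorem PF_comp {a b c : {x : V // P x}}
    (m : FundamentalGroupoid.mk a ⟶ FundamentalGroupoid.mk b)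
    (m' : FundamentalGroupoid.mk b ⟶ FundamentalGroupoid.mk c) (h : PF x0 f φ κ m)
    (h' : PF x0 f φ κ m') : PF x0 f φ κ (m ≫ m') := by
  unfold PF at *
  have := Subgroup.mul_mem _ h' h
  rw [W_comp, map_mul]
  convert this using 1
  group

theorem PF_cancel {a b c : {x : V // P x}}
    (m : FundamentalGroupoid.mk a ⟶ FundamentalGroupoid.mk b)
    (m' : FundamentalGroupoid.mk b ⟶ FundamentalGroupoid.mk c) (h : PF x0 f φ κ (m ≫ m'))
    (h' : PF x0 f φ κ m') : PF x0 f φ κ m := by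
  unfold PF at *
  have := Subgroup.mul_mem _ (Subgroup.inv_mem _ h') h
  rw [W_comp, map_mul] at this
  convert this using 1
  group

theorem PF_id (a : {x : V // P x}) : PF x0 f φ κ (𝟙 (FundamentalGroupoid.mk a)) := by
  unfold PF
  rw [W_id, map_one, mul_one, mul_inv_cancel]
  exact Subgroup.one_mem _

theorem PF_cast {a b a' b' : {x : V // P x}} (p : Path a b) (ha : a' = a) (hb : b' = b)
    (h : PF x0 f φ κ (cl (p.cast ha hb))) : PF x0 f φ κ (cl p) := by
  subst ha hb
  exact h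

include hP in
theorem PF_path (hφ : ∀ x, P x → ∃ N ∈ 𝓝 x, ∀ a ∈ N, ∀ b ∈ N,
    φ a * f (TS x0 a b) * (φ b)⁻¹ ∈ Subgroup.zpowers κ) {a b : {x : V // P x}} (p : Path a b) :
    PF x0 f φ κ (cl p) := by
  have hloc : ∀ t0 : I, ∃ U ∈ 𝓝 t0, ∀ s ∈ U, PF x0 f φ κ (cl (p.subpath t0 s)) := by
    intro t0
    obtain ⟨N, hN, hN2⟩ := hφ (p t0).1 (p t0).2
    have hN3 : N ∩ {x | P x} ∈ 𝓝 (p t0).1 := Filter.inter_mem hN (hP.mem_nhds (p t0).2)
    obtain ⟨r, hr, hb⟩ := Metric.mem_nhds_iff.mp hN3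
    have hcont : Continuous (fun t : I => (p t).1) := by fun_prop
    have hU : (fun t : I => (p t).1) ⁻¹' Metric.ball (p t0).1 r ∈ 𝓝 t0 :=
      hcont.continuousAt (Metric.ball_mem_nhds _ hr)
    obtain ⟨ε, hε, hb2⟩ := Metric.mem_nhds_iff.mp hU
    refine ⟨Metric.ball t0 ε, Metric.ball_mem_nhds _ hε, ?_⟩
    intro s hs
    have hC : Convex ℝ (Metric.ball (p t0).1 r) := convex_ball _ _
    have hs0 : (p t0).1 ∈ Metric.ball (p t0).1 r := Metric.mem_ball_self hr
    have hs1 : (p s).1 ∈ Metric.ball (p t0).1 r := hb2 hs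
    have hmem : ∀ v, ((p.subpath t0 s) v).1 ∈ Metric.ball (p t0).1 r := by
      intro v
      have h1 : (p.subpath t0 s) v ∈ Set.range (p.subpath t0 s) := ⟨v, rfl⟩
      rw [Path.range_subpath] at h1
      obtain ⟨u, hu, hu2⟩ := h1
      rw [← hu2]
      apply hb2
      rw [Metric.mem_ball] at hs ⊢
      refine lt_of_le_of_lt ?_ hs
      rw [Subtype.dist_eq, Subtype.dist_eq, Real.dist_eq, Real.dist_eq]
      rcases Set.mem_uIcc.mp hu with ⟨h1, h2⟩ | ⟨h1, h2⟩
      · have h1' : (t0 : ℝ) ≤ u := h1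
        have h2' : (u : ℝ) ≤ s := h2
        rw [abs_of_nonneg (by linarith), abs_of_nonneg (by linarith)]
        linarith
      · have h1' : (s : ℝ) ≤ u := h1
        have h2' : (u : ℝ) ≤ t0 := h2
        rw [abs_of_nonpos (by linarith), abs_of_nonpos (by linarith)]
        linarith
    have hseg : ∀ x ∈ segment ℝ (p t0).1 (p s).1, P x :=
      fun y hy => (hb (hC.segment_subset hs0 hs1 hy)).2
    have h2 : cl (p.subpath t0 s) = cl (sgp (p t0) (p s) hseg) := by
      apply cl_eq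
      apply conv_hom (Metric.ball (p t0).1 r) hC (fun y hy => (hb hy).2) _ _ hmem
      intro t
      exact sgp_mem _ _ _ _ hC hs0 hs1 t
    rw [h2]
    have h3 := hN2 (p s).1 (hb hs1).1 (p t0).1 (hb hs0).1
    unfold TS at h3
    rw [dif_pos hseg] at h3
    exact h3
  have hiff : ∀ t0 : I, ∃ U ∈ 𝓝 t0, ∀ s ∈ U,
      (PF x0 f φ κ (cl (p.subpath 0 s)) ↔ PF x0 f φ κ (cl (p.subpath 0 t0))) := by
    intro t0
    obtain ⟨U, hU, hU2⟩ := hloc t0
    refine ⟨U, hU, fun s hs => ?_⟩
    have h1 : cl (p.subpath 0 s) = cl (p.subpath 0 t0) ≫ cl (p.subpath t0 s) := by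
      rw [← cl_trans]
      exact (cl_eq ⟨Path.Homotopy.subpathTransSubpath p 0 t0 s⟩).symm
    rw [h1]
    exact ⟨fun h => PF_cancel x0 f φ κ _ _ h (hU2 s hs),
      fun h => PF_comp x0 f φ κ _ _ h (hU2 s hs)⟩
  have hclopen : IsClopen {t : I | PF x0 f φ κ (cl (p.subpath 0 t))} := by
    constructor
    · rw [← isOpen_compl_iff, isOpen_iff_mem_nhds]
      intro t0 ht0
      obtain ⟨U, hU, hU2⟩ := hiff t0
      filter_upwards [hU] with s hs
      intro h
      exact ht0 ((hU2 s hs).mp h)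
    · rw [isOpen_iff_mem_nhds]
      intro t0 ht0
      obtain ⟨U, hU, hU2⟩ := hiff t0
      filter_upwards [hU] with s hs
      exact (hU2 s hs).mpr ht0
  have h0 : (0 : I) ∈ {t : I | PF x0 f φ κ (cl (p.subpath 0 t))} := by
    show PF x0 f φ κ (cl (p.subpath 0 0))
    rw [Path.subpath_self, cl_refl]
    exact PF_id x0 f φ κ _
  have h1 := hclopen.eq_univ ⟨0, h0⟩
  have h2 : (1 : I) ∈ {t : I | PF x0 f φ κ (cl (p.subpath 0 t))} := by rw [h1]; trivial
  have h3 : PF x0 f φ κ (cl (p.subpath 0 1)) := h2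
  rw [Path.subpath_zero_one] at h3
  exact PF_cast x0 f φ κ p _ _ h3

end holonomy

/-- a morphism at the base point is conjugate to its transported version -/
theorem W_conj {C : Type} [Groupoid C] (x0 : C) : ∃ γ : End x0, ∀ m : End x0,
    K3XNCG.W x0 (m : x0 ⟶ x0) = γ⁻¹ * m * γ := by
  have h : Nonempty (x0 ⟶ x0) := ⟨𝟙 x0⟩
  refine ⟨(h.some : x0 ⟶ x0), fun m => ?_⟩
  unfold K3XNCG.W
  rw [dif_pos ⟨h, h⟩]
  rfl

/-- a finite quotient gives a locally flat function with non-cyclic holonomy -/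
theorem fnc_nc {k : List V} (hk : FNC k) : ∃ (G : Type) (_ : Group G) (_ : Finite G),
    Nc G (ps k) := by
  obtain ⟨x0, G, iG, iF, f, a, b, hab⟩ := hk
  have hl : IsOpen (ps k)ᶜ := X_open_proof k
  let F : End (FundamentalGroupoid.mk x0) →* G := f
  refine ⟨G, iG, iF, fun a b => F (TS x0 a b), ?_, ?_⟩
  · intro x hx
    obtain ⟨N, hN, h⟩ := TS_flat hl x0 x hx
    refine ⟨N, hN, fun a ha b hb c hc => ?_⟩
    show F (TS x0 a b) * F (TS x0 b c) = F (TS x0 a c)
    rw [← map_mul, h a ha b hb c hc]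
  · rintro ⟨φ, κ, hφ⟩
    apply hab
    have key : ∀ c : FundamentalGroup (Cmp k) x0,
        PF x0 F φ κ (c : FundamentalGroupoid.mk x0 ⟶ FundamentalGroupoid.mk x0) := by
      intro c
      obtain ⟨p, rfl⟩ := Path.Homotopic.Quotient.mk_surjective c
      exact PF_path hl x0 F φ κ (fun x hx => hφ x hx) p
    have h1 := key a
    have h2 := key b
    obtain ⟨γ, hγ⟩ := W_conj (FundamentalGroupoid.mk x0)
    unfold PF at h1 h2
    have ea : F (K3XNCG.W (FundamentalGroupoid.mk x0) a) = (F γ)⁻¹ * f a * F γ := by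
      have := hγ a
      rw [this, map_mul, map_mul, map_inv]
    have eb : F (K3XNCG.W (FundamentalGroupoid.mk x0) b) = (F γ)⁻¹ * f b * F γ := by
      have := hγ b
      rw [this, map_mul, map_mul, map_inv]
    rw [ea] at h1
    rw [eb] at h2
    obtain ⟨m, hm⟩ := Subgroup.mem_zpowers_iff.mp h1
    obtain ⟨n, hn⟩ := Subgroup.mem_zpowers_iff.mp h2
    have h3 : Commute (φ x0.1 * ((F γ)⁻¹ * f a * F γ) * (φ x0.1)⁻¹)
        (φ x0.1 * ((F γ)⁻¹ * f b * F γ) * (φ x0.1)⁻¹) := by
      rw [← hm, ← hn]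
      exact (Commute.refl κ).zpow_zpow m n
    have h5 : (φ x0.1 * (F γ)⁻¹) * (f a * f b) * (φ x0.1 * (F γ)⁻¹)⁻¹ =
        (φ x0.1 * (F γ)⁻¹) * (f b * f a) * (φ x0.1 * (F γ)⁻¹)⁻¹ := by
      have := h3.eq
      convert this using 1 <;> group
    exact mul_left_cancel (mul_right_cancel h5)

open K3XGRP in
/-- non-commuting holonomies in a finite group give a finite quotient -/
theorem fnc_of_hol {G : Type} [Group G] [Finite G] (g : Gauge G) (w : List Dir) (hw : SAP w)
    (hg : GF g w) (c : Z3) (A B : List Dir) (hA : pos A = 0) (hB : pos B = 0)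
    (hne : hol g c A * hol g c B ≠ hol g c B * hol g c A) : FNC (vl w) := by
  have hfl : Flat (ps (vl w))ᶜ (TT g) := d_gauge G g w hw hg
  set x0 := mc w hw c with hx0
  -- existence and uniqueness of the transport
  have hex : ∀ p : Path x0 x0, ∃ v : G, Tr (TT g) p v := by
    intro p
    obtain ⟨u, hu0, hu⟩ := T_lift_proof G (ps (vl w))ᶜ (TT g) hfl
      (fun t => (p.extend t).1) (continuous_subtype_val.comp p.continuous_extend)
      (fun t _ _ => (p.extend t).2)
    exact ⟨u 1, u, hu0, rfl, hu⟩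
  have huni : ∀ (p p' : Path x0 x0) (v v' : G), p.Homotopic p' → Tr (TT g) p v →
      Tr (TT g) p' v' → v = v' := by
    rintro p p' v v' hh ⟨u, hu0, hu1, hu⟩ ⟨u', hu0', hu1', hu'⟩
    have := e_homot G (vl w) (TT g) hfl _ _ p p' hh u u' hu0 hu0' hu hu'
    rw [← hu1, ← hu1', this]
  choose tr htr using hex
  -- the homomorphism
  have hrep : ∀ c : FundamentalGroup (Cmp (vl w)) x0, ∃ p : Path x0 x0,
      FundamentalGroup.fromPath (Path.Homotopic.Quotient.mk p) = c := by
    intro c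
    obtain ⟨p, hp⟩ := Path.Homotopic.Quotient.mk_surjective c
    exact ⟨p, hp⟩
  choose rp hrp using hrep
  have hval : ∀ p : Path x0 x0,
      tr (rp (FundamentalGroup.fromPath (Path.Homotopic.Quotient.mk p))) = tr p := by
    intro p
    have h1 := hrp (FundamentalGroup.fromPath (Path.Homotopic.Quotient.mk p))
    have h2 : Path.Homotopic.Quotient.mk (rp (FundamentalGroup.fromPath
      (Path.Homotopic.Quotient.mk p))) = Path.Homotopic.Quotient.mk p := h1
    exact huni _ _ _ _ (Path.Homotopic.Quotient.exact h2) (htr _) (htr _)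
  have hmul : ∀ a b : FundamentalGroup (Cmp (vl w)) x0,
      (tr (rp (a * b)))⁻¹ = (tr (rp a))⁻¹ * (tr (rp b))⁻¹ := by
    intro a b
    rw [← mul_inv_rev]
    congr 1
    have h1 : a * b = FundamentalGroup.fromPath (Path.Homotopic.Quotient.mk
        ((rp b).trans (rp a))) := by
      conv_lhs => rw [← hrp a, ← hrp b]
      rfl
    rw [h1, hval]
    exact huni _ _ _ _ (Path.Homotopic.refl _) (htr _) (tr_trans (htr _) (htr _))
  let f : FundamentalGroup (Cmp (vl w)) x0 →* G := MonoidHom.mk' (fun a => (tr (rp a))⁻¹) hmul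
  obtain ⟨p, hp⟩ := loop g w hw c A hA
  obtain ⟨q, hq⟩ := loop g w hw c B hB
  refine ⟨x0, G, inferInstance, inferInstance, f,
    FundamentalGroup.fromPath (Path.Homotopic.Quotient.mk p),
    FundamentalGroup.fromPath (Path.Homotopic.Quotient.mk q), fun h => hne ?_⟩
  have e1 : f (FundamentalGroup.fromPath (Path.Homotopic.Quotient.mk p)) = (hol g c A)⁻¹ := by
    show (tr (rp _))⁻¹ = _
    rw [hval, huni p p _ _ (Path.Homotopic.refl _) (htr p) hp]
  have e2 : f (FundamentalGroup.fromPath (Path.Homotopic.Quotient.mk q)) = (hol g c B)⁻¹ := by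
    show (tr (rp _))⁻¹ = _
    rw [hval, huni q q _ _ (Path.Homotopic.refl _) (htr q) hq]
  rw [e1, e2, ← mul_inv_rev, ← mul_inv_rev, inv_inj] at h
  exact h.symm

/-- the trefoil -/
theorem fnc_tre : FNC (vl (.zm :: v0)) := by
  refine fnc_of_hol tgauge (.zm :: v0) K3XTRE.sap_tre T_tflat_proof.1 (0, -1, -1)
    [.ym, .zm, .yp, .zp] [.xm, .xm, .ym, .ym, .ym, .zm, .yp, .zp, .yp, .yp, .xp, .xp]
    (by decide) (by decide) ?_
  simp [hol, gst, tgauge, pos, vec, tel, tcov, trow]
  decide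

/-- a knot with a finite non-commutative quotient is not contained infinitely often in a knot -/
theorem bounded_fnc {k : List V} (hk : FNC k) {s : List V} (hs : ∃ w, SAP w ∧ Same (vl w) s) :
    ∃ N, ¬ Plus k N s := by
  obtain ⟨G, _, _, hn⟩ := fnc_nc hk
  exact bounded hn hs

end MS

end KN
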