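import Pool.Agent.U611.MS.Rot

/-!
# Gauge fields on a connected sum
-/

set_option autoImplicit false

namespace KN

namespace MS

open K3XKCYC

variable {G : Type} [Group G]

theorem j2 (g : Gauge G) {l1 v l2 : List Dir} (hF : Facing l1 v l2) (c : Z3)
    (hc : c.1 = (pos l2).1) (hn : ¬ ((pos l2).2.1 = c.2.1 + 1 ∧ (pos l2).2.2 = c.2.2)) :
    (kgauge g (pos l2) (l1 ++ .xm :: .zp :: .xp :: l2)).g2 c = 1 := by
  have e : (kgauge g (pos l2) (l1 ++ .xm :: .zp :: .xp :: l2)).g2 c = (g.g2 (0, -1, 0)) ^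
      (czs (l1 ++ .xm :: .zp :: .xp :: l2) (c.1 + 1) (c.2.1 + 1) c.2.2) := by
    show (if c.1 ≤ (pos l2).1 then _ else _) = _
    rw [if_pos hc.le]
    rfl
  rw [e, hc, czs_m hF, if_neg hn, zpow_zero]

theorem j3 (g : Gauge G) {l1 v l2 : List Dir} (hF : Facing l1 v l2) (c : Z3)
    (hc : c.1 = (pos l2).1) :
    (kgauge g (pos l2) (l1 ++ .xm :: .zp :: .xp :: l2)).g3 c = 1 := by
  have e : (kgauge g (pos l2) (l1 ++ .xm :: .zp :: .xp :: l2)).g3 c = (g.g2 (0, -1, 0)) ^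
      (-(cys (l1 ++ .xm :: .zp :: .xp :: l2) (c.1 + 1) c.2.1 (c.2.2 + 1))) := by
    show (if c.1 ≤ (pos l2).1 then _ else _) = _
    rw [if_pos hc.le]
    rfl
  rw [e, hc, cys_m hF, neg_zero, zpow_zero]

theorem j2' (g : Gauge G) (y : Z3) (m : List Dir) (c : Z3) (hc : 0 ≤ c.1) :
    (kgauge g y m).g2 (c + (y + (1, 0, 0))) = g.g2 c := by
  show (if (c + (y + (1, 0, 0))).1 ≤ y.1 then _ else _) = _
  rw [if_neg (by simp only [Prod.fst_add]; omega)]
  congr 1
  abel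

theorem j3' (g : Gauge G) (y : Z3) (m : List Dir) (c : Z3) (hc : 0 ≤ c.1) :
    (kgauge g y m).g3 (c + (y + (1, 0, 0))) = g.g3 c := by
  show (if (c + (y + (1, 0, 0))).1 ≤ y.1 then _ else _) = _
  rw [if_neg (by simp only [Prod.fst_add]; omega)]
  congr 1
  abel

/-- half-space version of `X_kcyc` -/
theorem half_cyc {g : Gauge G} {l1 v l2 : List Dir} (hF : Facing l1 v l2)
    (hg1 : ∀ c, g.g1 c = 1) (hg : ∀ c : Z3, c.1 < 0 → g.g2 c = 1 ∧ g.g3 c = 1)
    (hc : ∃ (φ : Z3 → G) (κ : G), ∀ (c : Z3) (d : Dir), (pos l2).1 ≤ c.1 →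
      (pos l2).1 ≤ (c + vec d).1 →
      φ c * gst (kgauge g (pos l2) (l1 ++ .xm :: .zp :: .xp :: l2)) c d * (φ (c + vec d))⁻¹ ∈
        Subgroup.zpowers κ) : Cyc g := by
  obtain ⟨φ, κ, h⟩ := hc
  have j2 := j2 g hF
  have j3 := j3 g hF
  have j2' := j2' g (pos l2) (l1 ++ .xm :: .zp :: .xp :: l2)
  have j3' := j3' g (pos l2) (l1 ++ .xm :: .zp :: .xp :: l2)
  set y := pos l2 with hy
  set jg := kgauge g y (l1 ++ .xm :: .zp :: .xp :: l2) with hjg
  set Z := Subgroup.zpowers κ with hZ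
  have j1 : ∀ c, jg.g1 c = 1 := fun c => rfl
  have p1 : ∀ c : Z3, y.1 ≤ c.1 → φ c * (φ (c + (1, 0, 0)))⁻¹ ∈ Z := by
    intro c hc
    have := h c .xp hc (by simp only [Prod.fst_add, vec]; omega)
    rwa [show gst jg c .xp = 1 from j1 c, mul_one] at this
  have p2 : ∀ c : Z3, y.1 ≤ c.1 → φ c * jg.g2 c * (φ (c + (0, 1, 0)))⁻¹ ∈ Z := fun c hc =>
    h c .yp hc (by simp only [Prod.fst_add, vec]; omega)
  have p3 : ∀ c : Z3, y.1 ≤ c.1 → φ c * jg.g3 c * (φ (c + (0, 0, 1)))⁻¹ ∈ Z := fun c hc =>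
    h c .zp hc (by simp only [Prod.fst_add, vec]; omega)
  -- the layer
  have lz : ∀ a b b' : ℤ, φ (y.1, a, b) * (φ (y.1, a, b'))⁻¹ ∈ Z := by
    intro a b b'
    refine int_chain (fun n => φ (y.1, a, n)) (fun n => ?_) b b'
    have := p3 (y.1, a, n) le_rfl
    rw [j3 (y.1, a, n) rfl, mul_one] at this
    simpa using this
  have ly : ∀ a a' : ℤ, φ (y.1, a, y.2.2 + 1) * (φ (y.1, a', y.2.2 + 1))⁻¹ ∈ Z := by
    intro a a'
    refine int_chain (fun n => φ (y.1, n, y.2.2 + 1)) (fun n => ?_) a a'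
    have := p2 (y.1, n, y.2.2 + 1) le_rfl
    rw [j2 (y.1, n, y.2.2 + 1) rfl (by rintro ⟨-, h⟩; simp at h), mul_one] at this
    simpa using this
  have lay : ∀ c : Z3, c.1 = y.1 → φ y * (φ c)⁻¹ ∈ Z := by
    rintro ⟨a, b, c⟩ hc
    simp only at hc
    subst hc
    exact rel_trans (rel_trans (lz y.2.1 y.2.2 (y.2.2 + 1)) (ly y.2.1 b)) (lz b _ c)
  -- the potential
  refine ⟨fun c => if 0 ≤ c.1 then φ (c + (y + (1, 0, 0))) else φ y, κ, ?_⟩
  refine cyc_of_pos ?_ ?_ ?_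
  · intro c
    rw [hg1, mul_one]
    simp only [Prod.fst_add]
    by_cases hc : 0 ≤ c.1
    · rw [if_pos hc, if_pos (by omega)]
      have := p1 (c + (y + (1, 0, 0))) (by simp only [Prod.fst_add]; omega)
      rwa [add_right_comm] at this
    · rw [if_neg hc]
      by_cases hc' : 0 ≤ c.1 + 1
      · rw [if_pos hc']
        have := p1 (c + (y + (1, 0, 0))) (by simp only [Prod.fst_add]; omega)
        rw [add_right_comm] at this
        refine rel_trans (lay _ ?_) this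
        simp only [Prod.fst_add]
        omega
      · rw [if_neg hc', mul_inv_cancel]
        exact one_mem _
  · intro c
    simp only [Prod.fst_add, add_zero]
    by_cases hc : 0 ≤ c.1
    · rw [if_pos hc, if_pos hc]
      have := p2 (c + (y + (1, 0, 0))) (by simp only [Prod.fst_add]; omega)
      rw [j2' c hc] at this
      rwa [add_right_comm] at this
    · rw [if_neg hc, if_neg hc, (hg c (by omega)).1, mul_one, mul_inv_cancel]
      exact one_mem _
  · intro c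
    simp only [Prod.fst_add, add_zero]
    by_cases hc : 0 ≤ c.1
    · rw [if_pos hc, if_pos hc]
      have := p3 (c + (y + (1, 0, 0))) (by simp only [Prod.fst_add]; omega)
      rw [j3' c hc] at this
      rwa [add_right_comm] at this
    · rw [if_neg hc, if_neg hc, (hg c (by omega)).2, mul_one, mul_inv_cancel]
      exact one_mem _

theorem eqG_of_pos {g g' : Gauge G} {φ : Z3 → G}
    (h1 : ∀ c, φ c * g.g1 c * (φ (c + (1, 0, 0)))⁻¹ = g'.g1 c)
    (h2 : ∀ c, φ c * g.g2 c * (φ (c + (0, 1, 0)))⁻¹ = g'.g2 c)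
    (h3 : ∀ c, φ c * g.g3 c * (φ (c + (0, 0, 1)))⁻¹ = g'.g3 c) : EqG g g' := by
  refine ⟨φ, fun c d => ?_⟩
  cases d with
  | xp => exact h1 c
  | yp => exact h2 c
  | zp => exact h3 c
  | xm =>
    have h := h1 (c - (1, 0, 0))
    have e' : c + vec .xm = c - (1, 0, 0) := by
      ext <;> simp [vec, sub_eq_add_neg]
    rw [sub_add_cancel] at h
    rw [e']
    show φ c * (g.g1 (c - (1, 0, 0)))⁻¹ * (φ (c - (1, 0, 0)))⁻¹ = (g'.g1 (c - (1, 0, 0)))⁻¹
    rw [← h]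
    group
  | ym =>
    have h := h2 (c - (0, 1, 0))
    have e' : c + vec .ym = c - (0, 1, 0) := by
      ext <;> simp [vec, sub_eq_add_neg]
    rw [sub_add_cancel] at h
    rw [e']
    show φ c * (g.g2 (c - (0, 1, 0)))⁻¹ * (φ (c - (0, 1, 0)))⁻¹ = (g'.g2 (c - (0, 1, 0)))⁻¹
    rw [← h]
    group
  | zm =>
    have h := h3 (c - (0, 0, 1))
    have e' : c + vec .zm = c - (0, 0, 1) := by
      ext <;> simp [vec, sub_eq_add_neg]
    rw [sub_add_cancel] at h
    rw [e']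
    show φ c * (g.g3 (c - (0, 0, 1)))⁻¹ * (φ (c - (0, 0, 1)))⁻¹ = (g'.g3 (c - (0, 0, 1)))⁻¹
    rw [← h]
    group

theorem chain_eq (f : ℤ → G) (h : ∀ n, f n = f (n + 1)) (n m : ℤ) : f n = f m := by
  have := int_chain (Z := (⊥ : Subgroup G)) f (fun n => by
    rw [Subgroup.mem_bot, mul_inv_eq_one]; exact h n) n m
  rwa [Subgroup.mem_bot, mul_inv_eq_one] at this

/-- equivalent fields on the sum come from equivalent fields on the right summand -/
theorem eqG_of_k {g g' : Gauge G} {l1 v l2 : List Dir} (hF : Facing l1 v l2)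
    (hg1 : ∀ c, g.g1 c = 1) (hg : ∀ c : Z3, c.1 < 0 → g.g2 c = 1 ∧ g.g3 c = 1)
    (hg1' : ∀ c, g'.g1 c = 1) (hg' : ∀ c : Z3, c.1 < 0 → g'.g2 c = 1 ∧ g'.g3 c = 1)
    (h : EqG (kgauge g (pos l2) (l1 ++ .xm :: .zp :: .xp :: l2))
      (kgauge g' (pos l2) (l1 ++ .xm :: .zp :: .xp :: l2))) : EqG g g' := by
  obtain ⟨φ, h⟩ := h
  have i2 := j2 g hF
  have i3 := j3 g hF
  have i2' := j2' g (pos l2) (l1 ++ .xm :: .zp :: .xp :: l2)
  have i3' := j3' g (pos l2) (l1 ++ .xm :: .zp :: .xp :: l2)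
  have k2 := j2 g' hF
  have k3 := j3 g' hF
  have k2' := j2' g' (pos l2) (l1 ++ .xm :: .zp :: .xp :: l2)
  have k3' := j3' g' (pos l2) (l1 ++ .xm :: .zp :: .xp :: l2)
  set y := pos l2 with hy
  set jg := kgauge g y (l1 ++ .xm :: .zp :: .xp :: l2) with hjg
  set jg' := kgauge g' y (l1 ++ .xm :: .zp :: .xp :: l2) with hjg'
  have p1 : ∀ c : Z3, φ c = φ (c + (1, 0, 0)) := by
    intro c
    have := h c .xp
    rw [show gst jg c .xp = 1 from rfl, show gst jg' c .xp = 1 from rfl, mul_one,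
      mul_inv_eq_one] at this
    exact this
  have p2 : ∀ c : Z3, φ c * jg.g2 c * (φ (c + (0, 1, 0)))⁻¹ = jg'.g2 c := fun c => h c .yp
  have p3 : ∀ c : Z3, φ c * jg.g3 c * (φ (c + (0, 0, 1)))⁻¹ = jg'.g3 c := fun c => h c .zp
  -- the layer
  have lz : ∀ a b b' : ℤ, φ (y.1, a, b) = φ (y.1, a, b') := by
    intro a b b'
    refine chain_eq (fun n => φ (y.1, a, n)) (fun n => ?_) b b'
    have := p3 (y.1, a, n)
    rw [i3 (y.1, a, n) rfl, k3 (y.1, a, n) rfl, mul_one, mul_inv_eq_one] at this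
    simpa using this
  have ly : ∀ a a' : ℤ, φ (y.1, a, y.2.2 + 1) = φ (y.1, a', y.2.2 + 1) := by
    intro a a'
    refine chain_eq (fun n => φ (y.1, n, y.2.2 + 1)) (fun n => ?_) a a'
    have := p2 (y.1, n, y.2.2 + 1)
    rw [i2 (y.1, n, y.2.2 + 1) rfl (by rintro ⟨-, h⟩; simp at h),
      k2 (y.1, n, y.2.2 + 1) rfl (by rintro ⟨-, h⟩; simp at h), mul_one, mul_inv_eq_one] at this
    simpa using this
  have lay : ∀ c : Z3, c.1 = y.1 → φ y = φ c := by
    rintro ⟨a, b, c⟩ hc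
    simp only at hc
    subst hc
    exact ((lz y.2.1 y.2.2 (y.2.2 + 1)).trans (ly y.2.1 b)).trans (lz b _ c)
  refine eqG_of_pos (φ := fun c => if 0 ≤ c.1 then φ (c + (y + (1, 0, 0))) else φ y) ?_ ?_ ?_
  · intro c
    rw [hg1, hg1', mul_one, mul_inv_eq_one]
    simp only [Prod.fst_add]
    by_cases hc : 0 ≤ c.1
    · rw [if_pos hc, if_pos (by omega)]
      have := p1 (c + (y + (1, 0, 0)))
      rwa [add_right_comm] at this
    · rw [if_neg hc]
      by_cases hc' : 0 ≤ c.1 + 1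
      · rw [if_pos hc']
        have := p1 (c + (y + (1, 0, 0)))
        rw [add_right_comm] at this
        refine (lay _ ?_).trans this
        simp only [Prod.fst_add]
        omega
      · rw [if_neg hc']
  · intro c
    simp only [Prod.fst_add, add_zero]
    by_cases hc : 0 ≤ c.1
    · rw [if_pos hc, if_pos hc]
      have := p2 (c + (y + (1, 0, 0)))
      rw [i2' c hc, k2' c hc] at this
      rwa [add_right_comm] at this
    · rw [if_neg hc, if_neg hc, (hg c (by omega)).1, (hg' c (by omega)).1, mul_one,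
        mul_inv_cancel]
  · intro c
    simp only [Prod.fst_add, add_zero]
    by_cases hc : 0 ≤ c.1
    · rw [if_pos hc, if_pos hc]
      have := p3 (c + (y + (1, 0, 0)))
      rw [i3' c hc, k3' c hc] at this
      rwa [add_right_comm] at this
    · rw [if_neg hc, if_neg hc, (hg c (by omega)).2, (hg' c (by omega)).2, mul_one,
        mul_inv_cancel]

/-- the rotated field of the sum is cyclic in the other half space -/
theorem rg_cyc {l1 v l2 : List Dir} (hF : Facing l1 v l2) (g : Gauge G) (m : List Dir) :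
    ∀ (c : Z3) (d : Dir), (pos l2).1 ≤ c.1 → (pos l2).1 ≤ (c + vec d).1 →
      gst (rg (pos l2) (kgauge g (pos (lv v)) m)) c d ∈ Subgroup.zpowers (g.g2 (0, -1, 0)) := by
  intro c d h1 h2
  have h0 : (pos (lv v)).1 = 0 := by
    unfold lv
    rw [pos_rho, GL1.pos_v hF.2.2.1]
    rfl
  have k1 : ∀ c : Z3, (kgauge g (pos (lv v)) m).g1 c = 1 := fun c => rfl
  have k2 : ∀ c : Z3, c.1 ≤ 0 → (kgauge g (pos (lv v)) m).g2 c ∈
      Subgroup.zpowers (g.g2 (0, -1, 0)) := by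
    intro c hc
    show (if c.1 ≤ (pos (lv v)).1 then _ else _) ∈ _
    rw [if_pos (by omega)]
    exact ⟨_, rfl⟩
  have k3 : ∀ c : Z3, c.1 ≤ 0 → (kgauge g (pos (lv v)) m).g3 c ∈
      Subgroup.zpowers (g.g2 (0, -1, 0)) := by
    intro c hc
    show (if c.1 ≤ (pos (lv v)).1 then _ else _) ∈ _
    rw [if_pos (by omega)]
    exact ⟨_, rfl⟩
  rw [gst_rg]
  have h3 : (sc (pos l2) c).1 ≤ 0 := by
    show (pos l2).1 - c.1 ≤ 0
    omega
  cases d with
  | xp =>
    show ((kgauge g (pos (lv v)) m).g1 _)⁻¹ ∈ _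
    rw [k1, inv_one]
    exact one_mem _
  | xm =>
    show (kgauge g (pos (lv v)) m).g1 _ ∈ _
    rw [k1]
    exact one_mem _
  | yp => exact k2 _ h3
  | ym =>
    show ((kgauge g (pos (lv v)) m).g2 _)⁻¹ ∈ _
    exact inv_mem (k2 _ (by simp only [Prod.fst_sub]; omega))
  | zp =>
    show ((kgauge g (pos (lv v)) m).g3 _)⁻¹ ∈ _
    exact inv_mem (k3 _ (by simp only [Prod.fst_sub]; omega))
  | zm => exact k3 _ h3

/-- the two kinds of fields on the sum are not equivalent -/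
theorem not_eqG {l1 v l2 : List Dir} (hF : Facing l1 v l2) {g0 : Gauge G}
    (hg1 : ∀ c, g0.g1 c = 1) (hg : ∀ c : Z3, c.1 < 0 → g0.g2 c = 1 ∧ g0.g3 c = 1)
    (hn : ¬ Cyc g0) (g : Gauge G) (m : List Dir) :
    ¬ EqG (kgauge g0 (pos l2) (l1 ++ .xm :: .zp :: .xp :: l2))
      (rg (pos l2) (kgauge g (pos (lv v)) m)) := by
  rintro ⟨φ, h⟩
  apply hn
  refine half_cyc hF hg1 hg ⟨φ, g.g2 (0, -1, 0), fun c d h1 h2 => ?_⟩
  rw [h c d]
  exact rg_cyc hF g m c d h1 h2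

end MS

end KN
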