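import Pool.Agent.U611.MS.Jn

/-!
# Normalized gauge fields; finiteness
-/

set_option autoImplicit false

namespace KN

open Finset Filter Topology
open scoped Classical

namespace MS

variable {G : Type} [Group G]

open K3XNORM in
/-- normalization of a gauge field within its class -/
theorem norm (g : Gauge G) (v : List Dir) (hv : ∀ p ∈ path v, 0 ≤ p.1) (hg : GF g (.zm :: v)) :
    ∃ g' : Gauge G, GF g' (.zm :: v) ∧ (∀ c, g'.g1 c = 1) ∧
      (∀ c : Z3, c.1 < 0 → g'.g2 c = 1 ∧ g'.g3 c = 1) ∧ EqG g g' := by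
  -- flatness in the layers below
  have hfl : ∀ q : Z3, q.1 < 0 → Fl12 g q ∧ Fl13 g q ∧ Fl23 g q := by
    intro q hq
    obtain ⟨n1, n2, n3⟩ := not_Eg hv hq
    obtain ⟨h1, h2, h3⟩ := hg q
    exact ⟨h1.resolve_left n1, h2.resolve_left n2, h3.resolve_left n3⟩
  obtain ⟨ω, _, hω⟩ := exists_integ (fun y => g.g2 (-1, y, 0)) 0 1
  choose χ hχ0 hχ using fun y : ℤ => exists_integ (fun z => g.g3 (-1, y, z)) 0 (ω y)
  choose ρ hρ0 hρ using fun (y z : ℤ) => exists_integ (fun x => g.g1 (x, y, z)) (-1) (χ y z)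
  set ψ : Z3 → G := fun c => ρ c.2.1 c.2.2 c.1 with hψ
  have e1 : ∀ c, (tr g ψ).g1 c = 1 := by
    rintro ⟨x, y, z⟩
    show ψ (x, y, z) * g.g1 (x, y, z) * (ψ ((x, y, z) + (1, 0, 0)))⁻¹ = 1
    have h1 : ((x, y, z) : Z3) + (1, 0, 0) = (x + 1, y, z) := by simp
    rw [h1, mul_inv_eq_one]
    exact (hρ y z x).symm
  have e3 : ∀ y z : ℤ, (tr g ψ).g3 (-1, y, z) = 1 := by
    intro y z
    show ψ (-1, y, z) * g.g3 (-1, y, z) * (ψ ((-1, y, z) + (0, 0, 1)))⁻¹ = 1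
    have h1 : ((-1, y, z) : Z3) + (0, 0, 1) = (-1, y, z + 1) := by simp
    rw [h1, mul_inv_eq_one]
    show ρ y z (-1) * g.g3 (-1, y, z) = ρ y (z + 1) (-1)
    rw [hρ0, hρ0, hχ]
  have e20 : ∀ y : ℤ, (tr g ψ).g2 (-1, y, 0) = 1 := by
    intro y
    show ψ (-1, y, 0) * g.g2 (-1, y, 0) * (ψ ((-1, y, 0) + (0, 1, 0)))⁻¹ = 1
    have h1 : ((-1, y, 0) : Z3) + (0, 1, 0) = (-1, y + 1, 0) := by simp
    rw [h1, mul_inv_eq_one]
    show ρ y 0 (-1) * g.g2 (-1, y, 0) = ρ (y + 1) 0 (-1)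
    rw [hρ0, hρ0, hχ0, hχ0, hω]
  have e2 : ∀ y z : ℤ, (tr g ψ).g2 (-1, y, z) = 1 := by
    intro y z
    have hstep : ∀ t : ℤ, (tr g ψ).g2 (-1, y, t + 1) = (tr g ψ).g2 (-1, y, t) := by
      intro t
      have h1 := Fl23_tr ψ (hfl (-1, y + 1, t + 1) (by simp)).2.2
      unfold Fl23 at h1
      have a1 : ((-1, y + 1, t + 1) : Z3) - (0, 1, 1) = (-1, y, t) := by simp
      have a2 : ((-1, y + 1, t + 1) : Z3) - (0, 0, 1) = (-1, y + 1, t) := by simp
      have a3 : ((-1, y + 1, t + 1) : Z3) - (0, 1, 0) = (-1, y, t + 1) := by simp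
      rw [a1, a2, a3, e3, e3, mul_one, one_mul] at h1
      exact h1.symm
    rw [const_of_step (fun t => (tr g ψ).g2 (-1, y, t)) hstep z]
    exact e20 y
  refine ⟨tr g ψ, GF_tr ψ hg, e1, ?_, eqG_tr g ψ⟩
  rintro ⟨x, y, z⟩ hx
  have hx' : x < 0 := hx
  constructor
  · rw [const_below (fun t => (tr g ψ).g2 (t, y, z)) ?_ x hx']
    · exact e2 y z
    · intro t ht
      have h1 := Fl12_tr ψ (hfl (t + 1, y + 1, z) (by show t + 1 < 0; omega)).1
      unfold Fl12 at h1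
      have a1 : ((t + 1, y + 1, z) : Z3) - (1, 1, 0) = (t, y, z) := by simp
      have a2 : ((t + 1, y + 1, z) : Z3) - (0, 1, 0) = (t + 1, y, z) := by simp
      rw [a1, a2, e1, e1, mul_one, one_mul] at h1
      exact h1
  · rw [const_below (fun t => (tr g ψ).g3 (t, y, z)) ?_ x hx']
    · exact e3 y z
    · intro t ht
      have h1 := Fl13_tr ψ (hfl (t + 1, y, z + 1) (by show t + 1 < 0; omega)).2.1
      unfold Fl13 at h1
      have a1 : ((t + 1, y, z + 1) : Z3) - (1, 0, 1) = (t, y, z) := by simp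
      have a2 : ((t + 1, y, z + 1) : Z3) - (0, 0, 1) = (t + 1, y, z) := by simp
      rw [a1, a2, e1, e1, mul_one, one_mul] at h1
      exact h1

theorem coord_le {L : ℕ} {v : List Dir}
    (hb : ∀ p ∈ path v, p.1 ≤ L ∧ |p.2.1| ≤ L ∧ |p.2.2| ≤ L) {q : Z3} {f : Dir}
    (h : Eg (.zm :: v) q f) : q.1 ≤ L + 1 ∧ |q.2.1| ≤ L + 1 ∧ |q.2.2| ≤ L + 1 := by
  have hmem : ∀ (x : Dir) (l1 l2 : List Dir), Dir.zm :: v = l1 ++ x :: l2 → pos l2 ∈ path v := by
    intro x l1 l2 he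
    rcases K3XNORM.suffix_cases he with ⟨-, h1⟩ | ⟨l, h1⟩
    · rw [h1]; exact K3XNORM.pos_mem_path [] _
    · rw [h1]
      have := K3XNORM.pos_mem_path (l ++ [x]) l2
      rwa [List.append_assoc] at this
  have hvec : |(vec f).1| ≤ 1 ∧ |(vec f).2.1| ≤ 1 ∧ |(vec f).2.2| ≤ 1 := by
    cases f <;> simp [vec]
  obtain ⟨l1, l2, ⟨he, hp⟩ | ⟨he, hp⟩⟩ := h
  · have h1 := hb _ (hmem _ _ _ he)
    rw [hp] at h1
    obtain ⟨h2, h3, h4⟩ := h1
    exact ⟨by omega, by omega, by omega⟩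
  · have h1 := hb _ (hmem _ _ _ he)
    rw [hp] at h1
    obtain ⟨h2, h3, h4⟩ := h1
    obtain ⟨k1, k2, k3⟩ := hvec
    simp only [Prod.fst_add, Prod.snd_add] at h2 h3 h4
    rw [abs_le] at h3 h4 k1 k2 k3
    refine ⟨by omega, abs_le.2 ⟨by omega, by omega⟩, abs_le.2 ⟨by omega, by omega⟩⟩

/-- two normalized fields which agree in a box are equal -/
theorem eq_of_box {L : ℕ} {v : List Dir}
    (hb : ∀ p ∈ path v, p.1 ≤ L ∧ |p.2.1| ≤ L ∧ |p.2.2| ≤ L)
    {g g' : Gauge G} (hf : GF g (.zm :: v)) (hf' : GF g' (.zm :: v))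
    (h1 : ∀ c, g.g1 c = 1) (h2 : ∀ c : Z3, c.1 < 0 → g.g2 c = 1 ∧ g.g3 c = 1)
    (h1' : ∀ c, g'.g1 c = 1) (h2' : ∀ c : Z3, c.1 < 0 → g'.g2 c = 1 ∧ g'.g3 c = 1)
    (hbox : ∀ c : Z3, 0 ≤ c.1 → c.1 ≤ L + 2 → |c.2.1| ≤ L + 2 → |c.2.2| ≤ L + 2 →
      g.g2 c = g'.g2 c ∧ g.g3 c = g'.g3 c) :
    ∀ c : Z3, g.g2 c = g'.g2 c ∧ g.g3 c = g'.g3 c := by
  have key : ∀ (n : ℕ) (y z : ℤ), g.g2 ((n : ℤ) - 1, y, z) = g'.g2 ((n : ℤ) - 1, y, z) ∧
      g.g3 ((n : ℤ) - 1, y, z) = g'.g3 ((n : ℤ) - 1, y, z) := by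
    intro n
    induction n with
    | zero =>
      intro y z
      have a1 := h2 (((0 : ℕ) : ℤ) - 1, y, z) (by simp)
      have a2 := h2' (((0 : ℕ) : ℤ) - 1, y, z) (by simp)
      exact ⟨a1.1.trans a2.1.symm, a1.2.trans a2.2.symm⟩
    | succ n ih =>
      intro y z
      have e0 : (((n + 1 : ℕ) : ℤ) - 1) = n := by push_cast; ring
      rw [e0]
      by_cases hin : (n : ℤ) ≤ L + 2 ∧ |y| ≤ L + 2 ∧ |z| ≤ L + 2
      · exact hbox (n, y, z) (by simp) hin.1 hin.2.1 hin.2.2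
      · have nE : ∀ q : Z3, ∀ f : Dir, q.1 = n → (q.2.1 = y ∨ q.2.1 = y + 1) →
            (q.2.2 = z ∨ q.2.2 = z + 1) → ¬ Eg (.zm :: v) q f := by
          intro q f hq1 hq2 hq3 hE
          obtain ⟨k1, k2, k3⟩ := coord_le hb hE
          apply hin
          rw [abs_le] at k2 k3
          refine ⟨by omega, abs_le.2 ⟨?_, ?_⟩, abs_le.2 ⟨?_, ?_⟩⟩
          · rcases hq2 with h | h <;> omega
          · rcases hq2 with h | h <;> omega
          · rcases hq3 with h | h <;> omega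
          · rcases hq3 with h | h <;> omega
        have st2 : ∀ g : Gauge G, GF g (.zm :: v) → (∀ c, g.g1 c = 1) →
            g.g2 ((n : ℤ), y, z) = g.g2 ((n : ℤ) - 1, y, z) := by
          intro g hf h1
          have a := (hf (n, y + 1, z)).1.resolve_left
            (nE _ _ rfl (Or.inr rfl) (Or.inl rfl))
          unfold Fl12 at a
          have e1 : (((n : ℤ), y + 1, z) : Z3) - (1, 1, 0) = ((n : ℤ) - 1, y, z) := by
            ext <;> simp
          have e2 : (((n : ℤ), y + 1, z) : Z3) - (0, 1, 0) = ((n : ℤ), y, z) := by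
            ext <;> simp
          rw [e1, e2, h1, h1, one_mul, mul_one] at a
          exact a
        have st3 : ∀ g : Gauge G, GF g (.zm :: v) → (∀ c, g.g1 c = 1) →
            g.g3 ((n : ℤ), y, z) = g.g3 ((n : ℤ) - 1, y, z) := by
          intro g hf h1
          have a := (hf (n, y, z + 1)).2.1.resolve_left
            (nE _ _ rfl (Or.inl rfl) (Or.inr rfl))
          unfold Fl13 at a
          have e1 : (((n : ℤ), y, z + 1) : Z3) - (1, 0, 1) = ((n : ℤ) - 1, y, z) := by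
            ext <;> simp
          have e2 : (((n : ℤ), y, z + 1) : Z3) - (0, 0, 1) = ((n : ℤ), y, z) := by
            ext <;> simp
          rw [e1, e2, h1, h1, one_mul, mul_one] at a
          exact a
        obtain ⟨i1, i2⟩ := ih y z
        exact ⟨by rw [st2 g hf h1, st2 g' hf' h1', i1], by rw [st3 g hf h1, st3 g' hf' h1', i2]⟩
  rintro ⟨x, y, z⟩
  rcases lt_or_ge x 0 with hx | hx
  · have a1 := h2 (x, y, z) hx
    have a2 := h2' (x, y, z) hx
    exact ⟨a1.1.trans a2.1.symm, a1.2.trans a2.2.symm⟩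
  · have := key (x + 1).toNat y z
    have e : (((x + 1).toNat : ℤ) - 1) = x := by
      rw [Int.toNat_of_nonneg (by omega)]
      ring
    rwa [e] at this

theorem exists_bound (l : List Z3) : ∃ L : ℕ, ∀ p ∈ l, p.1 ≤ L ∧ |p.2.1| ≤ L ∧ |p.2.2| ≤ L := by
  induction l with
  | nil => exact ⟨0, fun p hp => absurd hp (by simp)⟩
  | cons a l ih =>
    obtain ⟨L, hL⟩ := ih
    refine ⟨L + a.1.toNat + a.2.1.natAbs + a.2.2.natAbs, fun p hp => ?_⟩
    rw [List.mem_cons] at hp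
    rcases hp with rfl | hp
    · have h1 := Int.self_le_toNat p.1
      push_cast
      rw [← Int.natCast_natAbs, ← Int.natCast_natAbs]
      omega
    · obtain ⟨h1, h2, h3⟩ := hL p hp
      have a1 := abs_nonneg a.2.1
      have a2 := abs_nonneg a.2.2
      push_cast
      refine ⟨by omega, by omega, by omega⟩

/-- finitely many classes of gauge fields with values in a finite group -/
theorem finite_classes [Finite G] (v : List Dir) (hv : ∀ p ∈ path v, 0 ≤ p.1) :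
    ∃ M : ℕ, ∀ gs : Fin M → Gauge G, (∀ i, GF (gs i) (.zm :: v)) →
      ∃ i j, i ≠ j ∧ EqG (gs i) (gs j) := by
  obtain ⟨L, hL⟩ := exists_bound (path v)
  have := Fintype.ofFinite G
  let Bx := Fin (L + 3) × Fin (2 * (L + 2) + 1) × Fin (2 * (L + 2) + 1)
  let M := Fintype.card (Bx → G × G) + 1
  refine ⟨M, fun gs hgs => ?_⟩
  choose g' hf' h1' h2' he' using fun i => norm (gs i) v hv (hgs i)
  let cell : Bx → Z3 := fun b => ((b.1 : ℤ), ((b.2.1 : ℕ) : ℤ) - (L + 2), ((b.2.2 : ℕ) : ℤ) - (L + 2))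
  let F : Fin M → (Bx → G × G) := fun i b => ((g' i).g2 (cell b), (g' i).g3 (cell b))
  obtain ⟨i, j, hij, hF⟩ := Fintype.exists_ne_map_eq_of_card_lt F (by
    simp only [M, Fintype.card_fin]
    omega)
  have hall := eq_of_box hL (hf' i) (hf' j) (h1' i) (h2' i) (h1' j) (h2' j) (by
    rintro ⟨x, y, z⟩ c1 c2 c3 c4
    simp only at c1 c2 c3 c4
    rw [abs_le] at c3 c4
    have hb : ∃ b : Bx, cell b = (x, y, z) := by
      refine ⟨(⟨x.toNat, by omega⟩, ⟨(y + (L + 2)).toNat, by omega⟩,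
        ⟨(z + (L + 2)).toNat, by omega⟩), ?_⟩
      simp only [cell]
      ext
      · simp only; omega
      · simp only; omega
      · simp only; omega
    obtain ⟨b, hb⟩ := hb
    have := congrFun hF b
    simp only [F, Prod.mk.injEq] at this
    rw [hb] at this
    exact this)
  refine ⟨i, j, hij, ?_⟩
  have heq : g' i = g' j := by
    have a1 : (g' i).g1 = (g' j).g1 := funext fun c => (h1' i c).trans (h1' j c).symm
    have a2 : (g' i).g2 = (g' j).g2 := funext fun c => (hall c).1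
    have a3 : (g' i).g3 = (g' j).g3 := funext fun c => (hall c).2
    cases hgi : g' i
    cases hgj : g' j
    rw [hgi, hgj] at a1 a2 a3
    simp only at a1 a2 a3
    rw [a1, a2, a3]
  have hi := he' i
  have hj := he' j
  rw [← heq] at hj
  obtain ⟨φ, hφ⟩ := hi
  obtain ⟨ψ, hψ⟩ := hj
  refine ⟨fun c => (ψ c)⁻¹ * φ c, fun c d => ?_⟩
  have e1 := hφ c d
  have e2 := hψ c d
  rw [← e1] at e2
  have e3 : gst (gs j) c d = (ψ c)⁻¹ * (φ c * gst (gs i) c d * (φ (c + vec d))⁻¹) *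
      ψ (c + vec d) := by
    rw [← e2]; group
  rw [e3]
  group

end MS

end KN
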