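import Pool.Agent.H246K2.WROT
import Pool.Agent.H246K2.STEP
import Pool.Agent.H246K2.WCNT
import Pool.Agent.H246K2.WREP
import Pool.Agent.H246KN.QL

/-!
# Occurrences of a block in a polygon
-/

set_option autoImplicit false

namespace KN

open Finset Filter Topology
open scoped Classical

noncomputable section

namespace MS

/-- the word `w` contains the block in direction `d` on an edge `f`, followed by `i` letters, and
there is room for the block -/
def Oc (T L : ℕ) (v w : List Dir) (i : ℕ) (d f : Dir) : Prop :=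
  perp d f ∧ ∃ A B : List Dir, w = A ++ (blk T v).map (rt d f) ++ B ∧ B.length = i ∧
    RmD T L d f (A ++ f :: B) (pos B)

/-- the set of the occurrences of the block -/
def oc (T L : ℕ) (v w : List Dir) : Finset (ℕ × Dir × Dir) :=
  (range w.length ×ˢ ((univ : Finset Dir) ×ˢ (univ : Finset Dir))).filter
    (fun q => Oc T L v w q.1 q.2.1 q.2.2)

theorem blk_len (T : ℕ) (v : List Dir) : (blk T v).length = 2 * (T + 1) + v.length := by
  unfold blk
  simp only [List.length_append, List.length_replicate]
  omega

theorem blk_ne (T : ℕ) (v : List Dir) : blk T v ≠ [] := by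
  intro h
  have := blk_len T v
  rw [h] at this
  simp at this
  omega

theorem mem_oc {T L : ℕ} {v w : List Dir} {q : ℕ × Dir × Dir} :
    q ∈ oc T L v w ↔ Oc T L v w q.1 q.2.1 q.2.2 := by
  unfold oc
  simp only [mem_filter, mem_product, mem_range, mem_univ, and_true]
  refine ⟨fun h => h.2, fun h => ⟨?_, h⟩⟩
  obtain ⟨-, A, B, hw, hB, -⟩ := h
  have h1 := blk_len T v
  rw [hw, ← hB]
  simp only [List.length_append, List.length_map]
  omega

theorem pos_rep (d : Dir) : ∀ n : ℕ, pos (List.replicate n d) = (n : ℤ) • vec d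
  | 0 => by simp [pos]
  | n + 1 => by
    rw [List.replicate_succ, pos, pos_rep d n]
    push_cast
    rw [add_smul, one_smul]

theorem pos_blk (T : ℕ) {v : List Dir} (hv : SAP (.zm :: v)) : pos (blk T v) = vec .zp := by
  unfold blk
  rw [pos_append, pos_append, pos_rep, pos_rep, GL1.pos_v hv]
  ext <;> simp [vec]

theorem rt_comp : ∀ d f d1 f1 e : Dir, perp d f → perp d1 f1 →
    rt (rt d f d1) (rt d f f1) e = rt d f (rt d1 f1 e) := by
  decide +kernel

theorem Oc_rot (hrtc : T_rtc) {T L : ℕ} {v w : List Dir} {i : ℕ} {d1 f1 d f : Dir}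
    (hdf : perp d f) (h : Oc T L v w i d1 f1) :
    Oc T L v (w.map (rt d f)) i (rt d f d1) (rt d f f1) := by
  obtain ⟨hp1, A, B, rfl, hB, hr1, hr2⟩ := h
  obtain ⟨⟨d'', f'', -, -, -, -, -, hinv, -⟩, -, hpp, hadd⟩ := hrtc d f hdf
  refine ⟨(K2WROT.rt_perp d f d1 f1 hdf hp1).1, A.map (rt d f), B.map (rt d f), ?_, ?_, ?_⟩
  · rw [List.map_append, List.map_append, List.map_map]
    congr 2
    apply List.map_congr_left
    intro e _
    rw [rt_comp d f d1 f1 e hdf hp1]
    rfl
  · rw [List.length_map, hB]
  · have hw : A.map (rt d f) ++ rt d f f1 :: B.map (rt d f) = (A ++ f1 :: B).map (rt d f) := by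
      rw [List.map_append, List.map_cons]
    have key : ∀ h : Z3, pos B + Rp d1 f1 h ∉ path (A ++ f1 :: B) →
        pos (B.map (rt d f)) + Rp (rt d f d1) (rt d f f1) h ∉
          path (A.map (rt d f) ++ rt d f f1 :: B.map (rt d f)) := by
      intro h hn hcon
      rw [hw, (hpp _).2, (hpp _).1, K2WROT.Rp_comp hrtc hdf hp1, ← hadd, List.mem_map] at hcon
      obtain ⟨p, hp, hpe⟩ := hcon
      have hpe2 := congrArg (Rp d'' f'') hpe
      rw [hinv, hinv] at hpe2
      rw [hpe2] at hp
      exact hn hp
    exact ⟨fun j hj1 hj2 => ⟨key _ (hr1 j hj1 hj2).1, key _ (hr1 j hj1 hj2).2⟩,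
      fun h a1 a2 a3 a4 a5 => key _ (hr2 h a1 a2 a3 a4 a5)⟩

/-- a rotation does not create occurrences -/
theorem oc_rot (hrtc : T_rtc) (T L : ℕ) (v w : List Dir) {d f : Dir} (hdf : perp d f) :
    (oc T L v (w.map (rt d f))).card ≤ (oc T L v w).card := by
  obtain ⟨⟨d', f', hp', -, -, hinv, hinv2, -, -⟩, -, -, -⟩ := hrtc d f hdf
  refine Finset.card_le_card_of_injOn
    (fun q => (q.1, rt d' f' q.2.1, rt d' f' q.2.2)) ?_ ?_
  · intro q hq
    rw [mem_coe, mem_oc] at hq ⊢
    have h := Oc_rot hrtc hp' hq
    rw [List.map_map] at h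
    have e : (rt d' f' ∘ rt d f) = id := funext fun e => hinv e
    rw [e, List.map_id] at h
    exact h
  · rintro ⟨i, d1, f1⟩ _ ⟨i', d1', f1'⟩ _ he
    simp only [Prod.mk.injEq] at he
    obtain ⟨rfl, h1, h2⟩ := he
    have hi : Function.Injective (rt d' f') := Function.LeftInverse.injective hinv2
    rw [hi h1, hi h2]

theorem RmD_mono {T L : ℕ} {d f : Dir} {w1 w2 : List Dir} {y y0 : Z3} (hp : perp d f)
    (hm : ∀ p ∈ path w1, p ∈ path w2 ∨ p = y0) (hy : ¬ near (T + L + 1) y y0)
    (h : RmD T L d f w2 y) : RmD T L d f w1 y := by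
  have h0 : Rp d f 0 = 0 := by simp [Rp]
  have key : ∀ g : Z3, near (T + L + 1) g 0 → y + Rp d f g ∉ path w2 →
      y + Rp d f g ∉ path w1 := by
    intro g hg hn hc
    rcases hm _ hc with h1 | h1
    · exact hn h1
    · apply hy
      have h2 := K2STEP.near_Rp _ d f hp g 0 hg
      rw [h0] at h2
      rw [← h1]
      obtain ⟨a1, a2, a3⟩ := h2
      simp only [Prod.fst_zero, Prod.snd_zero, sub_zero] at a1 a2 a3
      refine ⟨?_, ?_, ?_⟩
      · rw [Prod.fst_add, sub_add_cancel_left, abs_neg]; exact a1
      · rw [Prod.snd_add, Prod.fst_add, sub_add_cancel_left, abs_neg]; exact a2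
      · rw [Prod.snd_add, Prod.snd_add, sub_add_cancel_left, abs_neg]; exact a3
  obtain ⟨h1, h2⟩ := h
  refine ⟨fun j hj1 hj2 => ⟨key _ ?_ (h1 j hj1 hj2).1, key _ ?_ (h1 j hj1 hj2).2⟩,
    fun g a1 a2 a3 a4 a5 => key _ ?_ (h2 g a1 a2 a3 a4 a5)⟩
  · refine ⟨?_, ?_, ?_⟩ <;> simp only [Prod.fst_zero, Prod.snd_zero, sub_zero, abs_le] <;>
      push_cast <;> omega
  · refine ⟨?_, ?_, ?_⟩ <;> simp only [Prod.fst_zero, Prod.snd_zero, sub_zero, abs_le] <;>
      push_cast <;> omega
  · rw [abs_le] at a3
    refine ⟨?_, ?_, ?_⟩ <;> simp only [Prod.fst_zero, Prod.snd_zero, sub_zero, abs_le] <;>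
      push_cast <;> omega

theorem RmD_sub {T L : ℕ} {d f : Dir} {w1 w2 : List Dir} {y : Z3}
    (hm : ∀ p ∈ path w1, p ∈ path w2) (h : RmD T L d f w2 y) : RmD T L d f w1 y :=
  ⟨fun j h1 h2 => ⟨fun hc => (h.1 j h1 h2).1 (hm _ hc), fun hc => (h.1 j h1 h2).2 (hm _ hc)⟩,
    fun g a1 a2 a3 a4 a5 hc => h.2 g a1 a2 a3 a4 a5 (hm _ hc)⟩

/-- the number of suffixes that end near a point -/
theorem near_card {w : List Dir} (hw : SAP w) (r : ℕ) (y0 : Z3) :
    ((range w.length).filter (fun i => near r (pos (w.drop (w.length - i))) y0)).card ≤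
      (2 * r + 1) ^ 3 := by
  rw [← K2WCNT.card_box r y0]
  refine Finset.card_le_card_of_injOn (fun i => pos (w.drop (w.length - i))) ?_ ?_
  · intro i hi
    rw [mem_coe, mem_filter] at hi
    rw [mem_coe, K2WCNT.mem_box]
    exact hi.2
  · intro i hi j hj he
    rw [mem_coe, mem_filter, mem_range] at hi hj
    obtain ⟨hi, -⟩ := hi
    obtain ⟨hj, -⟩ := hj
    simp only at he
    have hnd := hw.2.2
    have hlen : (path w).tail.length = w.length := by
      rw [List.length_tail, path_length]; omega
    have key : ∀ k (hk : k < w.length), (path w).tail[w.length - k - 1]'(by rw [hlen]; omega) =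
        pos (w.drop (w.length - k)) := by
      intro k hk
      rw [List.getElem_tail, path_getElem]
      congr 2
      omega
    rw [← key i hi, ← key j hj] at he
    have := (List.Nodup.getElem_inj_iff hnd).1 he
    omega

/-- length of the block plus the number of vertices near a point -/
def DD (T L : ℕ) (v : List Dir) : ℕ :=
  ((2 * (blk T v).length + 1) + (2 * (T + L + 1) + 1) ^ 3) * 36

theorem near_box_card {T L : ℕ} {v w' : List Dir} (hw' : SAP w') {a b : ℕ}
    (hb : b ≤ (blk T v).length + 1) (y0 : Z3) :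
    ((oc T L v w').filter (fun q => (a < q.1 + (blk T v).length ∧ q.1 < a + b) ∨
      near (T + L + 1) (pos (w'.drop (w'.length - q.1))) y0)).card ≤ DD T L v := by
  have hsub : (oc T L v w').filter (fun q => (a < q.1 + (blk T v).length ∧ q.1 < a + b) ∨
      near (T + L + 1) (pos (w'.drop (w'.length - q.1))) y0) ⊆
      (Ico (a + 1 - (blk T v).length) (a + b) ∪ (range w'.length).filter
        (fun i => near (T + L + 1) (pos (w'.drop (w'.length - i))) y0)) ×ˢ
        ((univ : Finset Dir) ×ˢ (univ : Finset Dir)) := by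
    intro q hq
    rw [mem_filter] at hq
    obtain ⟨h1, h2⟩ := hq
    have h3 : q.1 < w'.length := by
      unfold oc at h1
      rw [mem_filter, mem_product, mem_range] at h1
      exact h1.1.1
    simp only [mem_product, mem_union, mem_Ico, mem_filter, mem_range, mem_univ, and_true]
    rcases h2 with h2 | h2
    · left; omega
    · right; exact ⟨h3, h2⟩
  refine (card_le_card hsub).trans ?_
  rw [card_product, card_product, card_univ]
  have e1 : Fintype.card Dir = 6 := rfl
  rw [e1]
  unfold DD
  refine Nat.mul_le_mul ?_ (by norm_num)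
  refine (card_union_le _ _).trans (Nat.add_le_add ?_ (near_card hw' _ _))
  rw [Nat.card_Ico]
  omega

theorem drop_suffix (A B : List Dir) : (A ++ B).drop ((A ++ B).length - B.length) = B := by
  rw [List.length_append, Nat.add_sub_cancel, List.drop_left]

/-- replacement of a piece `X` by `Y` -/
theorem oc_repl {T L : ℕ} {v : List Dir} (hrb : ∀ d f : Dir, perp d f →
      pos ((blk T v).map (rt d f)) = vec f) {pre X Y post : List Dir} {y0 : Z3}
    (hw' : SAP (pre ++ Y ++ post)) (hXY : pos X = pos Y)
    (hp : ∀ P R : List Dir, pos R = pos post → ∀ p ∈ path (P ++ X ++ R),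
      p ∈ path (P ++ Y ++ R) ∨ p = y0)
    (hX : 1 ≤ X.length) (hY : Y.length ≤ (blk T v).length + 1) :
    (oc T L v (pre ++ Y ++ post)).card ≤ (oc T L v (pre ++ X ++ post)).card + DD T L v := by
  set w' := pre ++ Y ++ post with hw'def
  set ℓ := (blk T v).length with hℓ
  have hsplit := card_filter_add_card_filter_not (s := oc T L v w')
    (fun q => (post.length < q.1 + ℓ ∧ q.1 < post.length + Y.length) ∨
      near (T + L + 1) (pos (w'.drop (w'.length - q.1))) y0)
  have h1 := near_box_card (T := T) (L := L) (v := v) hw' (a := post.length) (b := Y.length) hY y0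
  rw [← hℓ] at h1
  suffices h2 : ((oc T L v w').filter (fun q => ¬ ((post.length < q.1 + ℓ ∧
      q.1 < post.length + Y.length) ∨
      near (T + L + 1) (pos (w'.drop (w'.length - q.1))) y0))).card ≤
      (oc T L v (pre ++ X ++ post)).card by omega
  have hpos1 : 1 ≤ ℓ := by
    rw [hℓ, blk_len]; omega
  refine Finset.card_le_card_of_injOn (fun q => (if q.1 < post.length then q.1 else
    q.1 - Y.length + X.length, q.2)) ?_ ?_
  · rintro ⟨i, d, f⟩ hq
    rw [mem_coe, mem_filter, mem_oc] at hq
    obtain ⟨⟨hdf, A, B, hAB, hB, hroom⟩, hfar⟩ := hq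
    simp only at hdf hAB hB hroom hfar
    rw [not_or] at hfar
    obtain ⟨hf1, hf2⟩ := hfar
    have hsuf : w'.drop (w'.length - i) = B := by
      rw [hAB, ← hB]
      exact drop_suffix _ _
    rw [hsuf] at hf2
    rw [mem_coe, mem_oc]
    simp only
    have hmaplen : ((blk T v).map (rt d f)).length = ℓ := List.length_map _
    rcases Nat.lt_or_ge i post.length with hi | hi
    · -- the occurrence is in `post`
      have hi2 : i + ℓ ≤ post.length := by
        by_contra hc
        exact hf1 ⟨by omega, by omega⟩
      rw [if_pos hi]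
      have he : (pre ++ Y) ++ post = A ++ ((blk T v).map (rt d f) ++ B) := by
        rw [← List.append_assoc A]; exact hAB
      obtain ⟨A', hA1, hA2⟩ : ∃ A', A = (pre ++ Y) ++ A' ∧
          post = A' ++ ((blk T v).map (rt d f) ++ B) := by
        rcases List.append_eq_append_iff.1 he with h | h
        · exact h
        · obtain ⟨c, hc1, hc2⟩ := h
          have h3 := congrArg List.length hc2
          simp only [List.length_append, hmaplen, hB] at h3
          have h4 : c = [] := by
            rw [← List.length_eq_zero_iff]; omega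
          subst h4
          exact ⟨[], by simpa using hc1.symm, by simpa using hc2.symm⟩
      refine ⟨hdf, pre ++ X ++ A', B, ?_, hB, ?_⟩
      · rw [hA2]; simp only [List.append_assoc]
      · have hpo : pos (A' ++ f :: B) = pos post := by
          rw [hA2, pos_append, pos_append, pos_append, hrb d f hdf]
          simp only [pos]
          abel
        refine RmD_mono (y0 := y0) hdf ?_ hf2 hroom
        have h5 := hp pre (A' ++ f :: B) hpo
        rw [hA1]
        simp only [List.append_assoc] at h5 ⊢
        exact h5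
    · -- the occurrence is in `pre`
      have hi2 : post.length + Y.length ≤ i := by
        by_contra hc
        exact hf1 ⟨by omega, by omega⟩
      rw [if_neg (by omega)]
      have he : (A ++ (blk T v).map (rt d f)) ++ B = pre ++ (Y ++ post) := by
        rw [← List.append_assoc pre]; exact hAB.symm
      obtain ⟨C, hC1, hC2⟩ : ∃ C, pre = (A ++ (blk T v).map (rt d f)) ++ C ∧
          B = C ++ (Y ++ post) := by
        rcases List.append_eq_append_iff.1 he with h | h
        · exact h
        · obtain ⟨c, hc1, hc2⟩ := h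
          have h3 := congrArg List.length hc2
          simp only [List.length_append, hB] at h3
          have h4 : c = [] := by
            rw [← List.length_eq_zero_iff]; omega
          subst h4
          exact ⟨[], by simpa using hc1.symm, by simpa using hc2.symm⟩
      refine ⟨hdf, A, C ++ (X ++ post), ?_, ?_, ?_⟩
      · rw [hC1]; simp only [List.append_assoc]
      · rw [← hB, hC2]
        simp only [List.length_append]
        omega
      · have hpo : pos (C ++ (X ++ post)) = pos B := by
          rw [hC2, pos_append, pos_append, pos_append, pos_append, hXY]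
        rw [hpo]
        refine RmD_mono (y0 := y0) hdf ?_ hf2 hroom
        have h5 := hp (A ++ f :: C) post rfl
        rw [hC2]
        simp only [List.append_assoc, List.cons_append] at h5 ⊢
        exact h5
  · rintro ⟨i, d, f⟩ hi ⟨j, d', f'⟩ hj he
    rw [mem_coe, mem_filter, not_or] at hi hj
    obtain ⟨-, hi, -⟩ := hi
    obtain ⟨-, hj, -⟩ := hj
    simp only [Prod.mk.injEq] at he
    simp only at hi hj
    obtain ⟨h1, h2, h3⟩ := he
    subst h2 h3
    have hi' : i + ℓ ≤ post.length ∨ post.length + Y.length ≤ i := by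
      by_contra hc
      push Not at hc
      exact hi hc
    have hj' : j + ℓ ≤ post.length ∨ post.length + Y.length ≤ j := by
      by_contra hc
      push Not at hc
      exact hj hc
    have : i = j := by
      split_ifs at h1 <;> omega
    rw [this]

/-- a corner is replaced by a piece through the other side -/
theorem corner {a b : Dir} {Y post : List Dir} (hY : pos [a, b] = pos Y) (P R : List Dir)
    (hR : pos R = pos post) : ∀ p ∈ path (P ++ [a, b] ++ R),
      p ∈ path (P ++ Y ++ R) ∨ p = pos post + vec b := by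
  intro p hp
  rw [List.append_assoc, QL.mem_path_append] at hp
  rw [List.append_assoc]
  have e : pos ([a, b] ++ R) = pos (Y ++ R) := by rw [pos_append, pos_append, hY]
  rcases hp with hp | ⟨q, hq, rfl⟩
  · simp only [List.cons_append, List.nil_append, path, List.mem_cons] at hp
    rcases hp with hp | hp | hp
    · left
      rw [QL.mem_path_append]
      left
      have : p = pos (Y ++ R) := by
        rw [← e, hp]
        simp only [List.cons_append, List.nil_append, pos]
      rw [this]
      exact pos_mem_path _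
    · right
      rw [hp, hR]
    · left
      rw [QL.mem_path_append, QL.mem_path_append]
      left; left; exact hp
  · left
    rw [QL.mem_path_append, ← e]
    exact Or.inr ⟨q, hq, rfl⟩

/-- insertion of a block creates boundedly many occurrences -/
theorem oc_Gd (hrtc : T_rtc) (hrep : T_Wrep) (hssap : T_ssap) {T L : ℕ} {v w : List Dir}
    (hv : SmR L v) {d f : Dir} {l1 l2 : List Dir} (h : Gd T L w d f l1 l2) :
    (oc T L v (l1 ++ blk T v ++ l2)).card ≤ (oc T L v w).card + DD T L v := by
  obtain ⟨hdf, hspot, -, hcase⟩ := h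
  have hsap : SAP (l1 ++ blk T v ++ l2) := hssap T L l1 l2 v hspot hv
  have hb : pos (blk T v) = vec .zp := pos_blk T hv.1
  have hrb : ∀ d f : Dir, perp d f → pos ((blk T v).map (rt d f)) = vec f := by
    intro d f hdf
    obtain ⟨-, -, hpp, -⟩ := hrtc d f hdf
    rw [(hpp _).1, hb, K2WROT.Rp_vec]
    rfl
  have hrot := oc_rot hrtc T L v w hdf
  refine le_trans ?_ (Nat.add_le_add_right hrot _)
  rcases hcase with h | ⟨m, rfl, h, -⟩ | ⟨m, rfl, h, -⟩
  · rw [h]
    have e : l1 ++ .zp :: l2 = l1 ++ [.zp] ++ l2 := by simp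
    rw [e]
    refine oc_repl (y0 := 0) hrb hsap ?_ ?_ (by simp) (by omega)
    · rw [hb]; simp [pos]
    · intro P R _ p hp
      left
      have := (hrep P R (blk T v) .zp hb (blk_ne T v)).1 p
      simp only [List.append_assoc, List.cons_append, List.nil_append] at hp this ⊢
      exact this hp
  · rw [h]
    have e1 : m ++ .zp :: .xm :: l2 = m ++ [.zp, .xm] ++ l2 := by simp
    have e2 : m ++ [.xm] ++ blk T v ++ l2 = m ++ (.xm :: blk T v) ++ l2 := by simp
    have e3 : pos [Dir.zp, Dir.xm] = pos (.xm :: blk T v) := by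
      simp only [pos, hb]
      abel
    rw [e2] at hsap
    rw [e1, e2]
    refine oc_repl (y0 := pos l2 + vec .xm) hrb hsap e3 ?_ (by simp) (by simp)
    exact corner e3
  · rw [h]
    have e1 : l1 ++ .xp :: .zp :: m = l1 ++ [.xp, .zp] ++ m := by simp
    have e2 : l1 ++ blk T v ++ .xp :: m = l1 ++ (blk T v ++ [.xp]) ++ m := by simp
    have e3 : pos [Dir.xp, Dir.zp] = pos (blk T v ++ [.xp]) := by
      rw [pos_append, hb]
      simp only [pos]
      abel
    rw [e2] at hsap
    rw [e1, e2]
    refine oc_repl (y0 := pos m + vec .zp) hrb hsap e3 ?_ (by simp) (by simp)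
    exact corner e3

end MS

end

end KN
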