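import Pool.Agent.U611.MS.Occ

/-!
# Occurrences of a block after the insertion of another block
-/

set_option autoImplicit false

namespace KN

open Finset Filter Topology
open scoped Classical

noncomputable section

namespace MS

/-- length of the block and of a piece, plus the number of vertices near a point -/
def DE (T L E : ℕ) (v : List Dir) : ℕ :=
  (((blk T v).length + E) + (2 * (T + L + 1) + 1) ^ 3) * 36

theorem near_box_card' {T L E : ℕ} {v w' : List Dir} (hw' : SAP w') {a b : ℕ}
    (hb : b ≤ E) (y0 : Z3) :
    ((oc T L v w').filter (fun q => (a < q.1 + (blk T v).length ∧ q.1 < a + b) ∨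
      near (T + L + 1) (pos (w'.drop (w'.length - q.1))) y0)).card ≤ DE T L E v := by
  have hsub : (oc T L v w').filter (fun q => (a < q.1 + (blk T v).length ∧ q.1 < a + b) ∨
      near (T + L + 1) (pos (w'.drop (w'.length - q.1))) y0) ⊆
      (Ico (a + 1 - (blk T v).length) (a + b) ∪ (range w'.length).filter
        (fun i => near (T + L + 1) (pos (w'.drop (w'.length - i))) y0)) ×ˢ
        ((univ : Finset Dir) ×ˢ (univ : Finset Dir)) := by
    intro q hq
    rw [mem_filter] at hq
    obtain ⟨h1, h2⟩ := hq
    have h3 : q.1 < w'.length := by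
      unfold oc at h1
      rw [mem_filter, mem_product, mem_range] at h1
      exact h1.1.1
    simp only [mem_product, mem_union, mem_Ico, mem_filter, mem_range, mem_univ, and_true]
    rcases h2 with h2 | h2
    · left; omega
    · right; exact ⟨h3, h2⟩
  refine (card_le_card hsub).trans ?_
  rw [card_product, card_product, card_univ]
  have e1 : Fintype.card Dir = 6 := rfl
  rw [e1]
  unfold DE
  refine Nat.mul_le_mul ?_ (by norm_num)
  refine (card_union_le _ _).trans (Nat.add_le_add ?_ (near_card hw' _ _))
  rw [Nat.card_Ico]
  omega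

/-- replacement of a piece `X` by `Y` -/
theorem oc_repl' {T L E : ℕ} {v : List Dir} (hrb : ∀ d f : Dir, perp d f →
      pos ((blk T v).map (rt d f)) = vec f) {pre X Y post : List Dir} {y0 : Z3}
    (hw' : SAP (pre ++ Y ++ post)) (hXY : pos X = pos Y)
    (hp : ∀ P R : List Dir, pos R = pos post → ∀ p ∈ path (P ++ X ++ R),
      p ∈ path (P ++ Y ++ R) ∨ p = y0)
    (hX : 1 ≤ X.length) (hY : Y.length ≤ E) :
    (oc T L v (pre ++ Y ++ post)).card ≤ (oc T L v (pre ++ X ++ post)).card + DE T L E v := by
  set w' := pre ++ Y ++ post with hw'def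
  set ℓ := (blk T v).length with hℓ
  have hsplit := card_filter_add_card_filter_not (s := oc T L v w')
    (fun q => (post.length < q.1 + ℓ ∧ q.1 < post.length + Y.length) ∨
      near (T + L + 1) (pos (w'.drop (w'.length - q.1))) y0)
  have h1 := near_box_card' (T := T) (L := L) (v := v) hw' (a := post.length) (b := Y.length) hY y0
  rw [← hℓ] at h1
  suffices h2 : ((oc T L v w').filter (fun q => ¬ ((post.length < q.1 + ℓ ∧
      q.1 < post.length + Y.length) ∨
      near (T + L + 1) (pos (w'.drop (w'.length - q.1))) y0))).card ≤
      (oc T L v (pre ++ X ++ post)).card by omega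
  have hpos1 : 1 ≤ ℓ := by
    rw [hℓ, blk_len]; omega
  refine Finset.card_le_card_of_injOn (fun q => (if q.1 < post.length then q.1 else
    q.1 - Y.length + X.length, q.2)) ?_ ?_
  · rintro ⟨i, d, f⟩ hq
    rw [mem_coe, mem_filter, mem_oc] at hq
    obtain ⟨⟨hdf, A, B, hAB, hB, hroom⟩, hfar⟩ := hq
    simp only at hdf hAB hB hroom hfar
    rw [not_or] at hfar
    obtain ⟨hf1, hf2⟩ := hfar
    have hsuf : w'.drop (w'.length - i) = B := by
      rw [hAB, ← hB]
      exact drop_suffix _ _
    rw [hsuf] at hf2
    rw [mem_coe, mem_oc]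
    simp only
    have hmaplen : ((blk T v).map (rt d f)).length = ℓ := List.length_map _
    rcases Nat.lt_or_ge i post.length with hi | hi
    · -- the occurrence is in `post`
      have hi2 : i + ℓ ≤ post.length := by
        by_contra hc
        exact hf1 ⟨by omega, by omega⟩
      rw [if_pos hi]
      have he : (pre ++ Y) ++ post = A ++ ((blk T v).map (rt d f) ++ B) := by
        rw [← List.append_assoc A]; exact hAB
      obtain ⟨A', hA1, hA2⟩ : ∃ A', A = (pre ++ Y) ++ A' ∧
          post = A' ++ ((blk T v).map (rt d f) ++ B) := by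
        rcases List.append_eq_append_iff.1 he with h | h
        · exact h
        · obtain ⟨c, hc1, hc2⟩ := h
          have h3 := congrArg List.length hc2
          simp only [List.length_append, hmaplen, hB] at h3
          have h4 : c = [] := by
            rw [← List.length_eq_zero_iff]; omega
          subst h4
          exact ⟨[], by simpa using hc1.symm, by simpa using hc2.symm⟩
      refine ⟨hdf, pre ++ X ++ A', B, ?_, hB, ?_⟩
      · rw [hA2]; simp only [List.append_assoc]
      · have hpo : pos (A' ++ f :: B) = pos post := by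
          rw [hA2, pos_append, pos_append, pos_append, hrb d f hdf]
          simp only [pos]
          abel
        refine RmD_mono (y0 := y0) hdf ?_ hf2 hroom
        have h5 := hp pre (A' ++ f :: B) hpo
        rw [hA1]
        simp only [List.append_assoc] at h5 ⊢
        exact h5
    · -- the occurrence is in `pre`
      have hi2 : post.length + Y.length ≤ i := by
        by_contra hc
        exact hf1 ⟨by omega, by omega⟩
      rw [if_neg (by omega)]
      have he : (A ++ (blk T v).map (rt d f)) ++ B = pre ++ (Y ++ post) := by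
        rw [← List.append_assoc pre]; exact hAB.symm
      obtain ⟨C, hC1, hC2⟩ : ∃ C, pre = (A ++ (blk T v).map (rt d f)) ++ C ∧
          B = C ++ (Y ++ post) := by
        rcases List.append_eq_append_iff.1 he with h | h
        · exact h
        · obtain ⟨c, hc1, hc2⟩ := h
          have h3 := congrArg List.length hc2
          simp only [List.length_append, hB] at h3
          have h4 : c = [] := by
            rw [← List.length_eq_zero_iff]; omega
          subst h4
          exact ⟨[], by simpa using hc1.symm, by simpa using hc2.symm⟩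
      refine ⟨hdf, A, C ++ (X ++ post), ?_, ?_, ?_⟩
      · rw [hC1]; simp only [List.append_assoc]
      · rw [← hB, hC2]
        simp only [List.length_append]
        omega
      · have hpo : pos (C ++ (X ++ post)) = pos B := by
          rw [hC2, pos_append, pos_append, pos_append, pos_append, hXY]
        rw [hpo]
        refine RmD_mono (y0 := y0) hdf ?_ hf2 hroom
        have h5 := hp (A ++ f :: C) post rfl
        rw [hC2]
        simp only [List.append_assoc, List.cons_append] at h5 ⊢
        exact h5
  · rintro ⟨i, d, f⟩ hi ⟨j, d', f'⟩ hj he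
    rw [mem_coe, mem_filter, not_or] at hi hj
    obtain ⟨-, hi, -⟩ := hi
    obtain ⟨-, hj, -⟩ := hj
    simp only [Prod.mk.injEq] at he
    simp only at hi hj
    obtain ⟨h1, h2, h3⟩ := he
    subst h2 h3
    have hi' : i + ℓ ≤ post.length ∨ post.length + Y.length ≤ i := by
      by_contra hc
      push Not at hc
      exact hi hc
    have hj' : j + ℓ ≤ post.length ∨ post.length + Y.length ≤ j := by
      by_contra hc
      push Not at hc
      exact hj hc
    have : i = j := by
      split_ifs at h1 <;> omega
    rw [this]

/-- insertion of a block creates boundedly many occurrences -/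
theorem oc_Gd' (hrtc : T_rtc) (hrep : T_Wrep) (hssap : T_ssap) {T L E : ℕ} {v u w : List Dir}
    (hv : SmR L v) (hu : SmR L u) (hE : (blk T v).length + 1 ≤ E) {d f : Dir}
    {l1 l2 : List Dir} (h : Gd T L w d f l1 l2) :
    (oc T L u (l1 ++ blk T v ++ l2)).card ≤ (oc T L u w).card + DE T L E u := by
  obtain ⟨hdf, hspot, -, hcase⟩ := h
  have hsap : SAP (l1 ++ blk T v ++ l2) := hssap T L l1 l2 v hspot hv
  have hb : pos (blk T v) = vec .zp := pos_blk T hv.1
  have hrb : ∀ d f : Dir, perp d f → pos ((blk T u).map (rt d f)) = vec f := by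
    intro d f hdf
    obtain ⟨-, -, hpp, -⟩ := hrtc d f hdf
    rw [(hpp _).1, pos_blk T hu.1, K2WROT.Rp_vec]
    rfl
  have hrot := oc_rot hrtc T L u w hdf
  refine le_trans ?_ (Nat.add_le_add_right hrot _)
  rcases hcase with h | ⟨m, rfl, h, -⟩ | ⟨m, rfl, h, -⟩
  · rw [h]
    have e : l1 ++ .zp :: l2 = l1 ++ [.zp] ++ l2 := by simp
    rw [e]
    refine oc_repl' (y0 := 0) hrb hsap ?_ ?_ (by simp) (by omega)
    · rw [hb]; simp [pos]
    · intro P R _ p hp
      left
      have := (hrep P R (blk T v) .zp hb (blk_ne T v)).1 p
      simp only [List.append_assoc, List.cons_append, List.nil_append] at hp this ⊢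
      exact this hp
  · rw [h]
    have e1 : m ++ .zp :: .xm :: l2 = m ++ [.zp, .xm] ++ l2 := by simp
    have e2 : m ++ [.xm] ++ blk T v ++ l2 = m ++ (.xm :: blk T v) ++ l2 := by simp
    have e3 : pos [Dir.zp, Dir.xm] = pos (.xm :: blk T v) := by
      simp only [pos, hb]
      abel
    rw [e2] at hsap
    rw [e1, e2]
    refine oc_repl' (y0 := pos l2 + vec .xm) hrb hsap e3 ?_ (by simp) (by simp; omega)
    exact corner e3
  · rw [h]
    have e1 : l1 ++ .xp :: .zp :: m = l1 ++ [.xp, .zp] ++ m := by simp
    have e2 : l1 ++ blk T v ++ .xp :: m = l1 ++ (blk T v ++ [.xp]) ++ m := by simp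
    have e3 : pos [Dir.xp, Dir.zp] = pos (blk T v ++ [.xp]) := by
      rw [pos_append, hb]
      simp only [pos]
      abel
    rw [e2] at hsap
    rw [e1, e2]
    refine oc_repl' (y0 := pos m + vec .zp) hrb hsap e3 ?_ (by simp) (by simp; omega)
    exact corner e3

end MS

end

end KN
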