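import Pool.Agent.U611.MS.Eqv

/-!
# The rotated join
-/

set_option autoImplicit false

namespace KN

namespace MS

variable {G : Type} [Group G]

/-- the rotation by 180 degrees around the `y`-axis -/
def rho : Dir → Dir := rt .xm .zm

theorem rho_xp : rho .xp = .xm := rfl
theorem rho_xm : rho .xm = .xp := rfl
theorem rho_yp : rho .yp = .yp := rfl
theorem rho_ym : rho .ym = .ym := rfl
theorem rho_zp : rho .zp = .zm := rfl
theorem rho_zm : rho .zm = .zp := rfl

/-- the rotation of points -/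
def rp (p : Z3) : Z3 := (-p.1, p.2.1, -p.2.2)

theorem Rp_rho (p : Z3) : Rp .xm .zm p = rp p := by
  obtain ⟨a, b, c⟩ := p
  have h : cr .zm .xm = .yp := rfl
  unfold Rp rp
  rw [h]
  ext <;> simp [vec]

theorem pos_rho (w : List Dir) : pos (w.map rho) = rp (pos w) := by
  obtain ⟨-, -, h, -⟩ := T_rtc_proof .xm .zm (by decide)
  rw [← Rp_rho]
  exact (h w).1

theorem path_rho (w : List Dir) : path (w.map rho) = (path w).map rp := by
  obtain ⟨-, -, h, -⟩ := T_rtc_proof .xm .zm (by decide)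
  have e : rp = Rp .xm .zm := funext fun p => (Rp_rho p).symm
  rw [e]
  exact (h w).2

theorem sap_rho {w : List Dir} (hw : SAP w) :
    SAP (w.map rho) ∧ Same (vl w) (vl (w.map rho)) :=
  T_rt_proof .xm .zm (by decide) w hw

theorem sap_swap {a b : List Dir} (h : SAP (a ++ b)) :
    SAP (b ++ a) ∧ Same (vl (a ++ b)) (vl (b ++ a)) := by
  have h1 := (c_words (a ++ b) h).2.2 a.length
  rw [GL2.rotate_append] at h1
  exact h1

/-- the left part of the rotated join -/
def lv (v : List Dir) : List Dir := v.map rho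
/-- the right part of the rotated join -/
def lw (l1 l2 : List Dir) : List Dir := (l2 ++ l1).map rho

theorem facing_swap {l1 v l2 : List Dir} (hF : Facing l1 v l2) :
    Facing [] (lw l1 l2) (lv v) ∧ Same (vl (.zm :: v)) (vl ([] ++ .zp :: lv v)) ∧
      Same (vl (l1 ++ .zp :: l2)) (vl (.zm :: lw l1 l2)) := by
  obtain ⟨h1, h2, h3, h4⟩ := hF
  obtain ⟨g1, g2⟩ := sap_rho h3
  have e1 : (Dir.zm :: v).map rho = [] ++ .zp :: lv v := rfl
  rw [e1] at g1 g2
  obtain ⟨k1, k2⟩ := sap_swap h1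
  have k1' : SAP (.zp :: (l2 ++ l1)) := by simpa using k1
  obtain ⟨k3, k4⟩ := sap_rho k1'
  have e2 : (Dir.zp :: (l2 ++ l1)).map rho = .zm :: lw l1 l2 := rfl
  rw [e2] at k3 k4
  have hpv := GL1.pos_v h3
  have hcl : pos l1 = -(pos l2) - vec .zp := by
    have := h1.2.1
    rw [pos_append] at this
    have h5 : pos (Dir.zp :: l2) = pos l2 + vec .zp := rfl
    rw [h5] at this
    have h6 : pos l1 = -(pos l2 + vec .zp) := by
      rw [eq_neg_iff_add_eq_zero]; exact this
    rw [h6]; abel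
  refine ⟨⟨g1, ?_, k3, ?_⟩, g2, ?_⟩
  · intro p hp
    have e3 : (pos (lv v)).1 = 0 := by
      unfold lv
      rw [pos_rho, hpv]
      rfl
    rw [e3]
    rw [List.nil_append, path, List.mem_cons] at hp
    rcases hp with rfl | hp
    · unfold lv
      rw [pos_rho, hpv]
      simp [rp, vec]
    · unfold lv at hp
      rw [path_rho, List.mem_map] at hp
      obtain ⟨q, hq, rfl⟩ := hp
      have := h4 q hq
      show -q.1 ≤ 0
      omega
  · intro p hp
    unfold lw at hp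
    rw [path_rho, List.mem_map] at hp
    obtain ⟨q, hq, rfl⟩ := hp
    show 0 ≤ -q.1
    rw [path_append, List.mem_append] at hq
    rcases hq with hq | hq
    · -- a vertex of `l2`
      obtain ⟨r, hr, rfl⟩ := List.mem_map.1 hq
      have hr' := List.mem_of_mem_dropLast hr
      have h5 : r ∈ path (l1 ++ .zp :: l2) := by
        rw [path_append, List.mem_append]
        right
        exact List.mem_cons_of_mem _ hr'
      have h6 := h2 r h5
      rw [hcl]
      simp only [Prod.fst_add, Prod.fst_sub, Prod.fst_neg, vec]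
      omega
    · -- a vertex of `l1`
      have h5 : ∀ r ∈ path l1, r.1 ≤ 0 := by
        intro r hr
        rw [mem_path_iff] at hr
        obtain ⟨i, hi, rfl⟩ := hr
        have h6 : pos (l1.drop i ++ .zp :: l2) ∈ path (l1 ++ .zp :: l2) := by
          have e : l1 ++ .zp :: l2 = l1.take i ++ (l1.drop i ++ .zp :: l2) := by
            rw [← List.append_assoc, List.take_append_drop]
          rw [e]
          exact K3XNORM.pos_mem_path _ _
        have h7 := h2 _ h6
        rw [pos_append] at h7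
        have h8 : pos (Dir.zp :: l2) = pos l2 + vec .zp := rfl
        rw [h8] at h7
        simp only [Prod.fst_add, vec] at h7
        omega
      have := h5 q hq
      omega
  · refine k2.trans ?_
    have e4 : Dir.zp :: l2 ++ l1 = .zp :: (l2 ++ l1) := rfl
    rw [e4]
    exact k4

/-- the edges of a word after a change of the starting vertex -/
theorem Eg_swap {a b : List Dir} (h0 : pos (a ++ b) = 0) {r : Z3} {f : Dir}
    (h : Eg (b ++ a) r f) : Eg (a ++ b) (r + pos b) f := by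
  have hab : pos a + pos b = 0 := by rw [← h0, pos_append]
  have key : ∀ (x : Dir) (m1 m2 : List Dir), b ++ a = m1 ++ x :: m2 →
      ∃ n1 n2 : List Dir, a ++ b = n1 ++ x :: n2 ∧ pos n2 = pos m2 + pos b := by
    intro x m1 m2 he
    rcases List.append_eq_append_iff.1 he with ⟨c, hc1, hc2⟩ | ⟨c, hc1, hc2⟩
    · -- `m1 = b ++ c`, `a = c ++ x :: m2`
      refine ⟨c, m2 ++ b, ?_, ?_⟩
      · rw [hc2]; simp
      · rw [pos_append]
        try abel
    · cases c with
      | nil =>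
        rw [List.nil_append] at hc2
        refine ⟨[], m2 ++ b, ?_, ?_⟩
        · rw [← hc2]; simp
        · rw [pos_append]
          try abel
      | cons y c =>
        -- `b = m1 ++ y :: c`, `x :: m2 = y :: c ++ a`
        rw [List.cons_append, List.cons.injEq] at hc2
        obtain ⟨rfl, rfl⟩ := hc2
        refine ⟨a ++ m1, c, ?_, ?_⟩
        · rw [hc1]; simp
        · rw [pos_append, add_assoc, hab, add_zero]
  obtain ⟨m1, m2, ⟨he, hp⟩ | ⟨he, hp⟩⟩ := h
  · obtain ⟨n1, n2, g1, g2⟩ := key _ _ _ he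
    exact ⟨n1, n2, Or.inl ⟨g1, by rw [g2, hp]⟩⟩
  · obtain ⟨n1, n2, g1, g2⟩ := key _ _ _ he
    exact ⟨n1, n2, Or.inr ⟨g1, by rw [g2, hp]; abel⟩⟩

theorem rho_rho (e : Dir) : rho (rho e) = e := by cases e <;> rfl
theorem rho_neg (e : Dir) : rho (neg e) = neg (rho e) := by cases e <;> rfl
theorem rp_rp (p : Z3) : rp (rp p) = p := by
  obtain ⟨a, b, c⟩ := p
  simp [rp]
theorem rp_add (p q : Z3) : rp (p + q) = rp p + rp q := by
  obtain ⟨a, b, c⟩ := p
  obtain ⟨d, e, f⟩ := q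
  ext <;> simp [rp] <;> ring
theorem rp_vec (e : Dir) : rp (vec e) = vec (rho e) := by
  cases e <;> rfl

/-- the edges of a rotated word -/
theorem Eg_rho {w : List Dir} {r : Z3} {f : Dir} (h : Eg (w.map rho) r f) :
    Eg w (rp r) (rho f) := by
  have key : ∀ (x : Dir) (m1 m2 : List Dir), w.map rho = m1 ++ x :: m2 →
      ∃ n1 n2 : List Dir, w = n1 ++ rho x :: n2 ∧ pos n2 = rp (pos m2) := by
    intro x m1 m2 he
    have h1 : (w.map rho).map rho = w := by
      rw [List.map_map]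
      have : rho ∘ rho = id := funext fun e => rho_rho e
      rw [this, List.map_id]
    refine ⟨m1.map rho, m2.map rho, ?_, pos_rho m2⟩
    rw [← h1, he]
    simp
  obtain ⟨m1, m2, ⟨he, hp⟩ | ⟨he, hp⟩⟩ := h
  · obtain ⟨n1, n2, g1, g2⟩ := key _ _ _ he
    exact ⟨n1, n2, Or.inl ⟨g1, by rw [g2, hp]⟩⟩
  · obtain ⟨n1, n2, g1, g2⟩ := key _ _ _ he
    refine ⟨n1, n2, Or.inr ⟨by rw [g1, rho_neg], ?_⟩⟩
    rw [g2, hp, rp_add, rp_vec]

/-- reversal of the direction of an edge -/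
theorem Eg_neg {w : List Dir} {q : Z3} {f : Dir} (h : Eg w (q + vec f) (neg f)) : Eg w q f := by
  have h1 : neg (neg f) = f := by cases f <;> rfl
  have h2 : vec f + vec (neg f) = 0 := by cases f <;> rfl
  obtain ⟨m1, m2, ⟨he, hp⟩ | ⟨he, hp⟩⟩ := h
  · exact ⟨m1, m2, Or.inr ⟨he, hp⟩⟩
  · refine ⟨m1, m2, Or.inl ⟨by rw [he, h1], ?_⟩⟩
    rw [hp, add_assoc, h2, add_zero]

/-- the rotation of cubes, `y` is the end of the left part of the join -/
def sc (y c : Z3) : Z3 := (y.1 - c.1, c.2.1 - y.2.1, y.2.2 - c.2.2 - 1)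

theorem sc_add (y c : Z3) (d : Dir) : sc y (c + vec d) = sc y c + vec (rho d) := by
  cases d <;> (ext <;> simp [sc, vec, rho_xp, rho_xm, rho_yp, rho_ym, rho_zp, rho_zm] <;> ring)

/-- the rotated gauge field -/
def rg (y : Z3) (g : Gauge G) : Gauge G where
  g1 := fun c => gst g (sc y c) .xm
  g2 := fun c => gst g (sc y c) .yp
  g3 := fun c => gst g (sc y c) .zm

theorem gst_rg (y : Z3) (g : Gauge G) (c : Z3) (d : Dir) :
    gst (rg y g) c d = gst g (sc y c) (rho d) := by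
  have h : ∀ (c : Z3) (d : Dir), (gst g (sc y (c - vec d)) (rho d))⁻¹ =
      gst g (sc y c) (rho (neg d)) := by
    intro c d
    have e : sc y c = sc y (c - vec d) + vec (rho d) := by
      rw [← sc_add, sub_add_cancel]
    generalize sc y (c - vec d) = c' at e
    rw [e]
    cases d <;> simp only [rho_xp, rho_xm, rho_yp, rho_ym, rho_zp, rho_zm, neg, gst, vec,
      inv_inv]
    all_goals first
      | rfl
      | (congr 1
         ext <;> simp)
      | (congr 2
         ext <;> simp)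
  cases d with
  | xp => rfl
  | yp => rfl
  | zp => rfl
  | xm =>
    have := h c .xp
    exact this
  | ym =>
    have := h c .yp
    exact this
  | zm =>
    have := h c .zp
    exact this

theorem sc_inj (y c : Z3) : ∃ c' : Z3, sc y c' = c :=
  ⟨(y.1 - c.1, c.2.1 + y.2.1, y.2.2 - c.2.2 - 1), by
    ext <;> simp [sc] <;> ring⟩

/-- the rotation is injective on equivalence classes -/
theorem eqG_of_rg {y : Z3} {g g' : Gauge G} (h : EqG (rg y g) (rg y g')) : EqG g g' := by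
  obtain ⟨φ, h⟩ := h
  set s : Z3 → Z3 := fun c => (y.1 - c.1, c.2.1 + y.2.1, y.2.2 - c.2.2 - 1) with hs
  have h1 : ∀ c, sc y (s c) = c := by
    intro c
    ext <;> simp [sc, hs] <;> ring
  have h2 : ∀ (c : Z3) (d : Dir), s (c + vec d) = s c + vec (rho d) := by
    intro c d
    cases d <;> (ext <;> simp [hs, vec, rho_xp, rho_xm, rho_yp, rho_ym, rho_zp, rho_zm] <;> ring)
  refine ⟨fun c => φ (s c), fun c d => ?_⟩
  have h3 := h (s c) (rho d)
  rw [gst_rg, gst_rg, h1, rho_rho, ← h2] at h3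
  exact h3

/-- the rotated gauge field is flat outside the join -/
theorem GF_rg {l1 v l2 : List Dir} (hF : Facing l1 v l2) {g : Gauge G}
    (h : GF g (join [] (lw l1 l2) (lv v))) : GF (rg (pos l2) g) (join l1 v l2) := by
  have hJ : join [] (lw l1 l2) (lv v) = ((.xp :: l2) ++ (l1 ++ .xm :: v)).map rho := by
    unfold join lw lv
    simp [rho_xp, rho_xm]
  have hJ2 : join l1 v l2 = (l1 ++ .xm :: v) ++ (.xp :: l2) := by
    unfold join
    simp
  have h0 : pos ((l1 ++ .xm :: v) ++ (.xp :: l2)) = 0 := by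
    rw [← hJ2]
    exact (S_glueSAP_proof l1 v l2 hF).2.1
  set y := pos l2 with hy
  have hyx : pos (Dir.xp :: l2) = y + vec .xp := rfl
  have key : ∀ (r : Z3) (f : Dir), Eg (join [] (lw l1 l2) (lv v)) r f →
      Eg (join l1 v l2) (rp r + (y + vec .xp)) (rho f) := by
    intro r f he
    rw [hJ] at he
    rw [hJ2, ← hyx]
    exact Eg_swap h0 (Eg_rho he)
  have ez : ∀ q : Z3, Eg (join [] (lw l1 l2) (lv v))
      (y.1 + 1 - q.1, q.2.1 - y.2.1, y.2.2 - q.2.2 - 1) .zp → Eg (join l1 v l2) q .zp := by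
    intro q he
    have h1 := key _ _ he
    apply Eg_neg
    have e : q + vec .zp = rp (y.1 + 1 - q.1, q.2.1 - y.2.1, y.2.2 - q.2.2 - 1) +
        (y + vec .xp) := by
      ext <;> simp [rp, vec] <;> ring
    rw [e]
    exact h1
  have ey : ∀ q : Z3, Eg (join [] (lw l1 l2) (lv v))
      (y.1 + 1 - q.1, q.2.1 - y.2.1, y.2.2 - q.2.2) .yp → Eg (join l1 v l2) q .yp := by
    intro q he
    have h1 := key _ _ he
    have e : q = rp (y.1 + 1 - q.1, q.2.1 - y.2.1, y.2.2 - q.2.2) + (y + vec .xp) := by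
      ext <;> simp [rp, vec]
    rw [e]
    exact h1
  have ex : ∀ q : Z3, Eg (join [] (lw l1 l2) (lv v))
      (y.1 - q.1, q.2.1 - y.2.1, y.2.2 - q.2.2) .xp → Eg (join l1 v l2) q .xp := by
    intro q he
    have h1 := key _ _ he
    apply Eg_neg
    have e : q + vec .xp = rp (y.1 - q.1, q.2.1 - y.2.1, y.2.2 - q.2.2) + (y + vec .xp) := by
      ext <;> simp [rp, vec] <;> ring
    rw [e]
    exact h1
  intro q
  obtain ⟨a1, a2, a3⟩ := q
  refine ⟨?_, ?_, ?_⟩
  · rcases (h (y.1 + 1 - a1, a2 - y.2.1, y.2.2 - a3 - 1)).1 with h1 | h1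
    · exact Or.inl (ez _ h1)
    · right
      unfold Fl12 at h1 ⊢
      have e1 : ((y.1 + 1 - a1, a2 - y.2.1, y.2.2 - a3 - 1) : Z3) - (1, 1, 0) =
          (y.1 - a1, a2 - y.2.1 - 1, y.2.2 - a3 - 1) := by ext <;> simp <;> ring
      have e2 : ((y.1 + 1 - a1, a2 - y.2.1, y.2.2 - a3 - 1) : Z3) - (0, 1, 0) =
          (y.1 + 1 - a1, a2 - y.2.1 - 1, y.2.2 - a3 - 1) := by ext <;> simp
      have e3 : ((y.1 + 1 - a1, a2 - y.2.1, y.2.2 - a3 - 1) : Z3) - (1, 0, 0) =
          (y.1 - a1, a2 - y.2.1, y.2.2 - a3 - 1) := by ext <;> simp <;> ring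
      rw [e1, e2, e3] at h1
      have f1 : (rg y g).g1 ((a1, a2, a3) - (1, 1, 0)) =
          (g.g1 (y.1 - a1, a2 - y.2.1 - 1, y.2.2 - a3 - 1))⁻¹ := by
        show (g.g1 (sc y ((a1, a2, a3) - (1, 1, 0)) - (1, 0, 0)))⁻¹ = _
        congr 2
        ext <;> simp [sc] <;> ring
      have f2 : (rg y g).g2 ((a1, a2, a3) - (0, 1, 0)) =
          g.g2 (y.1 - a1, a2 - y.2.1 - 1, y.2.2 - a3 - 1) := by
        show g.g2 (sc y ((a1, a2, a3) - (0, 1, 0))) = _
        congr 1
        ext <;> simp [sc] <;> ring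
      have f3 : (rg y g).g2 ((a1, a2, a3) - (1, 1, 0)) =
          g.g2 (y.1 + 1 - a1, a2 - y.2.1 - 1, y.2.2 - a3 - 1) := by
        show g.g2 (sc y ((a1, a2, a3) - (1, 1, 0))) = _
        congr 1
        ext <;> simp [sc] <;> ring
      have f4 : (rg y g).g1 ((a1, a2, a3) - (1, 0, 0)) =
          (g.g1 (y.1 - a1, a2 - y.2.1, y.2.2 - a3 - 1))⁻¹ := by
        show (g.g1 (sc y ((a1, a2, a3) - (1, 0, 0)) - (1, 0, 0)))⁻¹ = _
        congr 2
        ext <;> simp [sc] <;> ring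
      rw [f1, f2, f3, f4, inv_mul_eq_iff_eq_mul, ← mul_assoc, eq_mul_inv_iff_mul_eq]
      exact h1.symm
  · rcases (h (y.1 + 1 - a1, a2 - y.2.1, y.2.2 - a3)).2.1 with h1 | h1
    · exact Or.inl (ey _ h1)
    · right
      unfold Fl13 at h1 ⊢
      have e1 : ((y.1 + 1 - a1, a2 - y.2.1, y.2.2 - a3) : Z3) - (1, 0, 1) =
          (y.1 - a1, a2 - y.2.1, y.2.2 - a3 - 1) := by ext <;> simp <;> ring
      have e2 : ((y.1 + 1 - a1, a2 - y.2.1, y.2.2 - a3) : Z3) - (0, 0, 1) =
          (y.1 + 1 - a1, a2 - y.2.1, y.2.2 - a3 - 1) := by ext <;> simp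
      have e3 : ((y.1 + 1 - a1, a2 - y.2.1, y.2.2 - a3) : Z3) - (1, 0, 0) =
          (y.1 - a1, a2 - y.2.1, y.2.2 - a3) := by ext <;> simp <;> ring
      rw [e1, e2, e3] at h1
      have f1 : (rg y g).g1 ((a1, a2, a3) - (1, 0, 1)) =
          (g.g1 (y.1 - a1, a2 - y.2.1, y.2.2 - a3))⁻¹ := by
        show (g.g1 (sc y ((a1, a2, a3) - (1, 0, 1)) - (1, 0, 0)))⁻¹ = _
        congr 2
        ext <;> simp [sc] <;> ring
      have f2 : (rg y g).g3 ((a1, a2, a3) - (0, 0, 1)) =
          (g.g3 (y.1 - a1, a2 - y.2.1, y.2.2 - a3 - 1))⁻¹ := by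
        show (g.g3 (sc y ((a1, a2, a3) - (0, 0, 1)) - (0, 0, 1)))⁻¹ = _
        congr 2
        ext <;> simp [sc] <;> ring
      have f3 : (rg y g).g3 ((a1, a2, a3) - (1, 0, 1)) =
          (g.g3 (y.1 + 1 - a1, a2 - y.2.1, y.2.2 - a3 - 1))⁻¹ := by
        show (g.g3 (sc y ((a1, a2, a3) - (1, 0, 1)) - (0, 0, 1)))⁻¹ = _
        congr 2
        ext <;> simp [sc] <;> ring
      have f4 : (rg y g).g1 ((a1, a2, a3) - (1, 0, 0)) =
          (g.g1 (y.1 - a1, a2 - y.2.1, y.2.2 - a3 - 1))⁻¹ := by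
        show (g.g1 (sc y ((a1, a2, a3) - (1, 0, 0)) - (1, 0, 0)))⁻¹ = _
        congr 2
        ext <;> simp [sc] <;> ring
      rw [f1, f2, f3, f4, ← mul_inv_rev, ← mul_inv_rev, inv_inj]
      exact h1.symm
  · rcases (h (y.1 - a1, a2 - y.2.1, y.2.2 - a3)).2.2 with h1 | h1
    · exact Or.inl (ex _ h1)
    · right
      unfold Fl23 at h1 ⊢
      have e1 : ((y.1 - a1, a2 - y.2.1, y.2.2 - a3) : Z3) - (0, 1, 1) =
          (y.1 - a1, a2 - y.2.1 - 1, y.2.2 - a3 - 1) := by ext <;> simp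
      have e2 : ((y.1 - a1, a2 - y.2.1, y.2.2 - a3) : Z3) - (0, 0, 1) =
          (y.1 - a1, a2 - y.2.1, y.2.2 - a3 - 1) := by ext <;> simp
      have e3 : ((y.1 - a1, a2 - y.2.1, y.2.2 - a3) : Z3) - (0, 1, 0) =
          (y.1 - a1, a2 - y.2.1 - 1, y.2.2 - a3) := by ext <;> simp
      rw [e1, e2, e3] at h1
      have f1 : (rg y g).g2 ((a1, a2, a3) - (0, 1, 1)) =
          g.g2 (y.1 - a1, a2 - y.2.1 - 1, y.2.2 - a3) := by
        show g.g2 (sc y ((a1, a2, a3) - (0, 1, 1))) = _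
        congr 1
        ext <;> simp [sc] <;> ring
      have f2 : (rg y g).g3 ((a1, a2, a3) - (0, 0, 1)) =
          (g.g3 (y.1 - a1, a2 - y.2.1, y.2.2 - a3 - 1))⁻¹ := by
        show (g.g3 (sc y ((a1, a2, a3) - (0, 0, 1)) - (0, 0, 1)))⁻¹ = _
        congr 2
        ext <;> simp [sc] <;> ring
      have f3 : (rg y g).g3 ((a1, a2, a3) - (0, 1, 1)) =
          (g.g3 (y.1 - a1, a2 - y.2.1 - 1, y.2.2 - a3 - 1))⁻¹ := by
        show (g.g3 (sc y ((a1, a2, a3) - (0, 1, 1)) - (0, 0, 1)))⁻¹ = _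
        congr 2
        ext <;> simp [sc] <;> ring
      have f4 : (rg y g).g2 ((a1, a2, a3) - (0, 1, 0)) =
          g.g2 (y.1 - a1, a2 - y.2.1 - 1, y.2.2 - a3 - 1) := by
        show g.g2 (sc y ((a1, a2, a3) - (0, 1, 0))) = _
        congr 1
        ext <;> simp [sc] <;> ring
      rw [f1, f2, f3, f4, mul_inv_eq_iff_eq_mul, mul_assoc, eq_inv_mul_iff_mul_eq]
      exact h1.symm

end MS

end KN
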