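import Pool.Agent.U611.MS.Sum
import Pool.Agent.TH296.KQ.Main

/-!
# Connected sum with one more knot: the number of polygons gets a factor `n ^ (2 / 3)`
-/

set_option autoImplicit false

namespace KN

open Finset Filter Topology
open scoped Classical

noncomputable section

namespace MS

open KQ

/-- insertion of a block in a word of type `l` gives a word of type `s` -/
theorem ins_sum {k l s : List V} {T L : ℕ} {v : List Dir} (hv : SmR L v)
    (hk : Same (vl (.zm :: v)) k) (hs : IsSum l k s)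
    {w : List Dir} (hl : Same (vl w) l) {d f : Dir} {l1 l2 : List Dir}
    (h : Gd T L w d f l1 l2) :
    SAP (l1 ++ blk T v ++ l2) ∧ Same (vl (l1 ++ blk T v ++ l2)) s := by
  obtain ⟨-, hspot, hsame, -⟩ := h
  have hs0 : SAP (l1 ++ .zp :: l2) := hspot.1
  obtain ⟨m1, m2, hm, hmx, hms⟩ := K3YTYPE.rep_R hs0
  have hB := K3YTYPE.bgL L hm hmx
  obtain ⟨g1, g2⟩ := d_master T L l1 l2 m1 m2 v hspot hv hB hms.symm
  have hF : Facing m1 v m2 := ⟨hm, hmx, hv.1, fun p hp => (hv.2 p hp).1⟩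
  refine ⟨g1, isSum_unique (k := l) (l := k) ⟨m1, v, m2, hF, ?_, hk, g2⟩ hs⟩
  exact (hms.trans hsame.symm).trans hl

/-- one step: from `l` to the connected sum `s` of `l` and `k` -/
theorem one_step {k l s : List V} (hk : ∃ w, SAP w ∧ Same (vl w) k) (hs : IsSum l k s)
    (hN : ∃ N, ¬ Plus k N s) : ∃ (c : ℝ) (m : ℕ), 0 < c ∧ m % 2 = 0 ∧ ∀ᶠ n : ℕ in atTop,
      c * (n : ℝ) ^ (2 / 3 : ℝ) * a (KO l) n ≤ a (KO s) (n + m) := by
  obtain ⟨L, v, hv, hvk⟩ := T_vex_proof k hk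
  obtain ⟨R, hR, hLR⟩ := d_LL (2 * L + 4) L le_rfl
  set T := 2 * L + 4 with hT
  obtain ⟨N, hN⟩ := hN
  obtain ⟨c, hc, hev⟩ := d_many R hR
  obtain ⟨e, he⟩ := blk_even T hv
  obtain ⟨B, hB⟩ : ∃ B : ℕ, B = (N * DD T L v) * kap := ⟨_, rfl⟩
  refine ⟨c / (B + 1), (blk T v).length - 1, by positivity, by omega, ?_⟩
  filter_upwards [hev, eventually_ge_atTop (N * (blk T v).length + 4)] with n hn hn2
  have hC : ∀ w : List Dir, ∃ C : Finset Z3, w ∈ K (KO l) n →
      (c * (n : ℝ) ^ (2 / 3 : ℝ) ≤ C.card ∧ ∀ x ∈ C, ¬ near 6 x 0 ∧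
        ∃ N, Cont R {p | p ∈ path w} x N) := by
    intro w
    by_cases hw : w ∈ K (KO l) n
    · obtain ⟨h1, h2, -⟩ := mem_K.1 hw
      obtain ⟨C, hC1, hC2⟩ := hn w h2 h1
      exact ⟨C, fun _ => ⟨hC1, hC2⟩⟩
    · exact ⟨∅, fun h => absurd h hw⟩
  choose C hC using hC
  have key := count T_rtc_proof T L v (K (KO l) n) (K (KO s) (n + ((blk T v).length - 1)))
    C (N * DD T L v) (by
      intro w' hw'
      obtain ⟨h1, h2, h3⟩ := mem_K.1 hw'
      by_contra hcon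
      rw [not_le] at hcon
      have h4 := plus_of_oc (T := T) hv hvk N w' h2 (by rw [h1]; omega) hcon.le
      exact hN (Plus_same h4 h3)) (by
      intro w hw x hx
      obtain ⟨-, h3⟩ := hC w hw
      obtain ⟨h4, N', h5⟩ := h3 x hx
      obtain ⟨hl, hs', hq⟩ := mem_K.1 hw
      obtain ⟨d, f, l1, l2, hG, hnear⟩ := d_step T L R hLR w hs' x N' h5 h4
      refine ⟨d, f, l1, l2, hG, hnear, ?_⟩
      rw [mem_K]
      obtain ⟨g1, g2⟩ := ins_sum hv hvk hs hq hG
      refine ⟨?_, g1, g2⟩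
      obtain ⟨i, hi⟩ := exists_Ga hG
      have h6 := Ga_length hi
      have h7 := blk_len T v
      simp only [List.length_append]
      omega)
  have hlow : c * (n : ℝ) ^ (2 / 3 : ℝ) * a (KO l) n ≤
      ((∑ w ∈ K (KO l) n, (C w).card : ℕ) : ℝ) := by
    push_cast
    unfold a
    rw [mul_comm, ← nsmul_eq_mul]
    exact Finset.card_nsmul_le_sum _ _ _ (fun w hw => (hC w hw).1)
  have key' : ((∑ w ∈ K (KO l) n, (C w).card : ℕ) : ℝ) ≤
      (a (KO s) (n + ((blk T v).length - 1)) : ℝ) * B := by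
    rw [hB]
    unfold kap a
    exact_mod_cast key
  have h8 : (0 : ℝ) ≤ (a (KO s) (n + ((blk T v).length - 1)) : ℝ) := Nat.cast_nonneg _
  have h9 : c / (B + 1) * (n : ℝ) ^ (2 / 3 : ℝ) * a (KO l) n =
      (c * (n : ℝ) ^ (2 / 3 : ℝ) * a (KO l) n) / (B + 1) := by ring
  rw [h9, div_le_iff₀ (by positivity)]
  linarith

end MS

end

end KN
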