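import Pool.Agent.U611.MS.Occ2
import Pool.Agent.U611.MS.Step
import Pool.Agent.U611.MS.Fq

/-!
# Connected sums with an arbitrary base knot, uniformly in the number of summands
-/

set_option autoImplicit false

namespace KN

open Finset Filter Topology
open scoped Classical

noncomputable section

/-- `s` is a connected sum of `l` and `ks 0, ..., ks (N - 1)` -/
def SumFrom (l : List V) (ks : ℕ → List V) : ℕ → List V → Prop
  | 0 => fun s => Same s l
  | N + 1 => fun s => ∃ t, SumFrom l ks N t ∧ KQ.IsSum t (ks N) s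

namespace MS

open KQ

/-- existence of the sums -/
theorem sumFrom_exists {l : List V} (hl : ∃ w, SAP w ∧ Same (vl w) l) {ks : ℕ → List V} :
    ∀ N : ℕ, (∀ i < N, ∃ w, SAP w ∧ Same (vl w) (ks i)) → ∃ w, SAP w ∧ SumFrom l ks N (vl w) := by
  intro N
  induction N with
  | zero => intro _; exact hl
  | succ N ih =>
    intro h
    obtain ⟨w, hw, hs⟩ := ih (fun i hi => h i (by omega))
    obtain ⟨w', hw', hs'⟩ := isSum_exists (k := vl w) (l := ks N) ⟨w, hw, Same.refl _⟩
      (h N (by omega))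
    exact ⟨w', hw', vl w, hs, hs'⟩

/-- the data of a finite family of blocks -/
structure Fam (S : Finset (List V)) (T L R E D : ℕ) (v : List V → List Dir) : Prop where
  sm : ∀ k ∈ S, SmR L (v k)
  same : ∀ k ∈ S, Same (vl (.zm :: v k)) k
  len : ∀ k ∈ S, (blk T (v k)).length + 1 ≤ E
  dd : ∑ k ∈ S, DE T L E (v k) = D
  lat : LLat T L R
  R1 : 1 ≤ R

/-- the number of occurrences of all blocks -/
def oct (S : Finset (List V)) (T L : ℕ) (v : List V → List Dir) (w : List Dir) : ℕ :=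
  ∑ k ∈ S, (oc T L (v k) w).card

/-- the number of words with few occurrences -/
def FF (S : Finset (List V)) (T L : ℕ) (v : List V → List Dir) (t : List V) (n M : ℕ) : ℕ :=
  ((K (KO t) n).filter (fun w => oct S T L v w ≤ M)).card

theorem step_fam {S : Finset (List V)} {T L R E D : ℕ} {v : List V → List Dir}
    (h : Fam S T L R E D v) : ∃ c : ℝ, 0 < c ∧ ∃ n0 : ℕ, ∀ n ≥ n0, ∀ M : ℕ, ∀ t t' k : List V,
      k ∈ S → IsSum t k t' →
      c * (n : ℝ) ^ (2 / 3 : ℝ) * FF S T L v t n M ≤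
        ((M + D) * kap : ℝ) * FF S T L v t' (n + ((blk T (v k)).length - 1)) (M + D) := by
  obtain ⟨c, hc, hev⟩ := d_many R h.R1
  obtain ⟨n0, hn0⟩ := eventually_atTop.1 hev
  refine ⟨c, hc, n0, fun n hn' M t t' k hk hs => ?_⟩
  have hn := hn0 n hn'
  have hv := h.sm k hk
  have hvk := h.same k hk
  have hC : ∀ w : List Dir, ∃ C : Finset Z3, w ∈ K (KO t) n →
      (c * (n : ℝ) ^ (2 / 3 : ℝ) ≤ C.card ∧ ∀ x ∈ C, ¬ near 6 x 0 ∧
        ∃ N, Cont R {p | p ∈ path w} x N) := by
    intro w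
    by_cases hw : w ∈ K (KO t) n
    · obtain ⟨h1, h2, -⟩ := mem_K.1 hw
      obtain ⟨C, hC1, hC2⟩ := hn w h2 h1
      exact ⟨C, fun _ => ⟨hC1, hC2⟩⟩
    · exact ⟨∅, fun h => absurd h hw⟩
  choose C hC using hC
  have key := count T_rtc_proof T L (v k) ((K (KO t) n).filter (fun w => oct S T L v w ≤ M))
    ((K (KO t') (n + ((blk T (v k)).length - 1))).filter
      (fun w => oct S T L v w ≤ M + D)) C (M + D) (by
      intro w' hw'
      refine le_trans ?_ (mem_filter.1 hw').2
      unfold oct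
      exact Finset.single_le_sum (f := fun k => (oc T L (v k) w').card)
        (fun _ _ => Nat.zero_le _) hk) (by
      intro w hw x hx
      rw [mem_filter] at hw
      obtain ⟨hw1, hw2⟩ := hw
      obtain ⟨-, h3⟩ := hC w hw1
      obtain ⟨h4, N, h5⟩ := h3 x hx
      obtain ⟨hl, hs', hq⟩ := mem_K.1 hw1
      obtain ⟨d, f, l1, l2, hG, hnear⟩ := d_step T L R h.lat w hs' x N h5 h4
      refine ⟨d, f, l1, l2, hG, hnear, ?_⟩
      rw [mem_filter, mem_K]
      obtain ⟨g1, g2⟩ := ins_sum hv hvk hs hq hG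
      refine ⟨⟨?_, g1, g2⟩, ?_⟩
      · obtain ⟨i, hi⟩ := exists_Ga hG
        have h6 := Ga_length hi
        have h7 := blk_len T (v k)
        simp only [List.length_append]
        omega
      · have h8 : ∀ j ∈ S, (oc T L (v j) (l1 ++ blk T (v k) ++ l2)).card ≤
            (oc T L (v j) w).card + DE T L E (v j) := fun j hj =>
          oc_Gd' T_rtc_proof T_Wrep_proof d_ssap hv (h.sm j hj) (h.len k hk) hG
        have h9 := Finset.sum_le_sum h8
        rw [Finset.sum_add_distrib, h.dd] at h9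
        unfold oct at hw2 ⊢
        omega)
  have hlow : c * (n : ℝ) ^ (2 / 3 : ℝ) * FF S T L v t n M ≤
      ((∑ w ∈ (K (KO t) n).filter (fun w => oct S T L v w ≤ M), (C w).card : ℕ) : ℝ) := by
    push_cast
    unfold FF
    rw [mul_comm, ← nsmul_eq_mul]
    exact Finset.card_nsmul_le_sum _ _ _ (fun w hw => (hC w (mem_filter.1 hw).1).1)
  have key' : ((∑ w ∈ (K (KO t) n).filter (fun w => oct S T L v w ≤ M), (C w).card : ℕ) : ℝ) ≤
      (FF S T L v t' (n + ((blk T (v k)).length - 1)) (M + D) : ℝ) *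
        ((M + D) * kap) := by
    unfold kap FF
    exact_mod_cast key
  refine (hlow.trans key').trans (le_of_eq ?_)
  ring

/-- the iteration -/
theorem iter_fam {S : Finset (List V)} {T L R E D : ℕ} {v : List V → List Dir}
    (h : Fam S T L R E D v) {l : List V} {C n1 : ℕ}
    (hC : ∀ n ≥ n1, ∀ w ∈ K (KO l) n, oct S T L v w ≤ C) : ∃ c : ℝ, 0 < c ∧ ∃ n0 : ℕ,
      ∀ n ≥ n0, ∀ (ks : ℕ → List V) (N : ℕ), (∀ i < N, ks i ∈ S) → ∀ s, SumFrom l ks N s →
      (c * (n : ℝ) ^ (2 / 3 : ℝ)) ^ N * a (KO l) n ≤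
        (kap * (C + D) : ℝ) ^ N * N.factorial *
          FF S T L v s (n + ∑ i ∈ range N, ((blk T (v (ks i))).length - 1)) (C + N * D) := by
  obtain ⟨c, hc, n0, hstep⟩ := step_fam h
  refine ⟨c, hc, max n0 n1, fun n hn ks N => ?_⟩
  have hn0 : n0 ≤ n := (le_max_left _ _).trans hn
  have hn1 : n1 ≤ n := (le_max_right _ _).trans hn
  induction N with
  | zero =>
    intro _ s hs
    have hs' : Same s l := hs
    simp only [pow_zero, one_mul, Nat.factorial_zero, Nat.cast_one, Finset.range_zero,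
      Finset.sum_empty, add_zero, zero_mul]
    have : a (KO l) n ≤ FF S T L v s n C := by
      unfold a FF
      apply card_le_card
      intro w hw
      rw [mem_filter]
      refine ⟨?_, hC n hn1 w hw⟩
      rw [mem_K] at hw ⊢
      exact ⟨hw.1, hw.2.1, hw.2.2.trans hs'.symm⟩
    exact_mod_cast this
  | succ N ih =>
    rintro hS s ⟨t, ht, hs⟩
    have h1 := ih (fun i hi => hS i (by omega)) t ht
    set m := ∑ i ∈ range N, ((blk T (v (ks i))).length - 1) with hm
    have h2 := hstep (n + m) (by omega) (C + N * D) t s (ks N) (hS N (by omega)) hs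
    have e1 : n + m + ((blk T (v (ks N))).length - 1) =
        n + ∑ i ∈ range (N + 1), ((blk T (v (ks i))).length - 1) := by
      rw [Finset.sum_range_succ, ← hm]; ring
    have e2 : C + N * D + D = C + (N + 1) * D := by ring
    rw [e1, e2] at h2
    set X : ℝ := (FF S T L v s (n + ∑ i ∈ range (N + 1), ((blk T (v (ks i))).length - 1))
      (C + (N + 1) * D) : ℝ) with hX
    set Y : ℝ := (FF S T L v t (n + m) (C + N * D) : ℝ) with hY
    have hX0 : 0 ≤ X := Nat.cast_nonneg _
    have hY0 : 0 ≤ Y := Nat.cast_nonneg _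
    have hmono : c * (n : ℝ) ^ (2 / 3 : ℝ) ≤ c * ((n + m : ℕ) : ℝ) ^ (2 / 3 : ℝ) := by
      apply mul_le_mul_of_nonneg_left _ hc.le
      apply Real.rpow_le_rpow (Nat.cast_nonneg _) _ (by norm_num)
      push_cast
      linarith [(Nat.cast_nonneg m : (0 : ℝ) ≤ m)]
    have hkap : (0 : ℝ) ≤ kap := Nat.cast_nonneg _
    have hA : (0 : ℝ) ≤ (a (KO l) n : ℝ) := Nat.cast_nonneg _
    have h3 : c * (n : ℝ) ^ (2 / 3 : ℝ) * Y ≤ (kap * (C + D)) * (N + 1) * X := by
      refine (mul_le_mul_of_nonneg_right hmono hY0).trans (h2.trans ?_)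
      apply mul_le_mul_of_nonneg_right _ hX0
      push_cast
      have h4 : ((C : ℝ) + N * D + D) ≤ (C + D) * (N + 1) := by
        have : (0 : ℝ) ≤ C * N := by positivity
        nlinarith
      calc ((C : ℝ) + N * D + D) * kap ≤ ((C + D) * (N + 1)) * kap :=
            mul_le_mul_of_nonneg_right h4 hkap
        _ = kap * (C + D) * (N + 1) := by ring
    have hy0 : 0 ≤ c * (n : ℝ) ^ (2 / 3 : ℝ) := by positivity
    calc (c * (n : ℝ) ^ (2 / 3 : ℝ)) ^ (N + 1) * a (KO l) n
        = (c * (n : ℝ) ^ (2 / 3 : ℝ)) * ((c * (n : ℝ) ^ (2 / 3 : ℝ)) ^ N * a (KO l) n) := by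
          rw [pow_succ]; ring
      _ ≤ (c * (n : ℝ) ^ (2 / 3 : ℝ)) * ((kap * (C + D) : ℝ) ^ N * N.factorial * Y) :=
          mul_le_mul_of_nonneg_left h1 hy0
      _ = ((kap * (C + D) : ℝ) ^ N * N.factorial) * (c * (n : ℝ) ^ (2 / 3 : ℝ) * Y) := by ring
      _ ≤ ((kap * (C + D) : ℝ) ^ N * N.factorial) * ((kap * (C + D)) * (N + 1) * X) := by
          apply mul_le_mul_of_nonneg_left h3
          positivity
      _ = (kap * (C + D) : ℝ) ^ (N + 1) * (N + 1).factorial * X := by
          rw [Nat.factorial_succ]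
          push_cast
          ring

/-- a common choice of the blocks for finitely many knots -/
theorem exists_fam (S : Finset (List V)) (hS : ∀ k ∈ S, ∃ w, SAP w ∧ Same (vl w) k) :
    ∃ (T L R E D : ℕ) (v : List V → List Dir), Fam S T L R E D v := by
  have h1 : ∀ k : List V, ∃ (L : ℕ) (v : List Dir), k ∈ S → SmR L v ∧ Same (vl (.zm :: v)) k := by
    intro k
    by_cases hk : k ∈ S
    · obtain ⟨L, v, h1, h2⟩ := T_vex_proof k (hS k hk)
      exact ⟨L, v, fun _ => ⟨h1, h2⟩⟩
    · exact ⟨0, [], fun h => absurd h hk⟩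
  choose L v hv using h1
  obtain ⟨R, hR, hLR⟩ := d_LL (2 * S.sup L + 4) (S.sup L) le_rfl
  refine ⟨2 * S.sup L + 4, S.sup L, R, S.sup (fun k => (blk (2 * S.sup L + 4) (v k)).length) + 1,
    _, v, fun k hk => K3YALL.SmR_mono (Finset.le_sup hk) (hv k hk).1, fun k hk => (hv k hk).2,
    fun k hk => ?_, rfl, hLR, hR⟩
  have := Finset.le_sup (f := fun k => (blk (2 * S.sup L + 4) (v k)).length) hk
  omega

/-- few occurrences in the words of a knot type -/
theorem exists_C {S : Finset (List V)} {T L R E D : ℕ} {v : List V → List Dir}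
    (h : Fam S T L R E D v) (hF : ∀ k ∈ S, FNC k) {l : List V}
    (hl : ∃ w, SAP w ∧ Same (vl w) l) : ∃ C n1 : ℕ, ∀ n ≥ n1, ∀ w ∈ K (KO l) n,
      oct S T L v w ≤ C := by
  have h1 : ∀ k : List V, ∃ N : ℕ, k ∈ S → ¬ Plus k N l := by
    intro k
    by_cases hk : k ∈ S
    · obtain ⟨N, hN⟩ := bounded_fnc (hF k hk) hl
      exact ⟨N, fun _ => hN⟩
    · exact ⟨0, fun h => absurd h hk⟩
  choose N hN using h1
  refine ⟨∑ k ∈ S, N k * DD T L (v k), ∑ k ∈ S, N k * (blk T (v k)).length + 4,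
    fun n hn w hw => ?_⟩
  obtain ⟨g1, g2, g3⟩ := mem_K.1 hw
  unfold oct
  apply Finset.sum_le_sum
  intro k hk
  by_contra hcon
  rw [not_le] at hcon
  refine hN k hk (Plus_same (plus_of_oc (h.sm k hk) (h.same k hk) (N k) w g2 ?_ hcon.le) g3)
  rw [g1]
  have := Finset.single_le_sum (f := fun k => N k * (blk T (v k)).length)
    (fun _ _ => Nat.zero_le _) hk
  omega

/-- **uniform lower bound for connected sums with an arbitrary base knot** -/
theorem uniform (S : Finset (List V)) (hS : ∀ k ∈ S, FNC k ∧ ∃ w, SAP w ∧ Same (vl w) k)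
    {l : List V} (hl : ∃ w, SAP w ∧ Same (vl w) l) : ∃ (c : ℝ) (m : List V → ℕ), 0 < c ∧
      (∀ k, m k % 2 = 0) ∧
      ∀ᶠ n : ℕ in atTop, ∀ (ks : ℕ → List V) (N : ℕ), (∀ i < N, ks i ∈ S) → ∀ s : List V,
        SumFrom l ks N s → (c * (n : ℝ) ^ (2 / 3 : ℝ)) ^ N / N.factorial * pq (KT l) n ≤
          pq (KT s) (n + ∑ i ∈ range N, m (ks i)) := by
  obtain ⟨T, L, R, E, D, v, hfam⟩ := exists_fam S (fun k hk => (hS k hk).2)
  obtain ⟨C, n1, hC⟩ := exists_C hfam (fun k hk => (hS k hk).1) hl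
  obtain ⟨c, hc, n0, hit⟩ := iter_fam hfam hC
  set m : List V → ℕ := fun k => if k ∈ S then (blk T (v k)).length - 1 else 0 with hm
  set Mx : ℕ := S.sup m with hMx
  have hkap : (0 : ℝ) ≤ kap := Nat.cast_nonneg _
  set B : ℝ := kap * (C + D) + 1 with hB
  have hB0 : 0 < B := by positivity
  have hBle : (kap * (C + D) : ℝ) ≤ B := by linarith
  refine ⟨c / B / (2 * (1 + Mx)), m, by positivity, fun k => ?_, ?_⟩
  · simp only [hm]
    split_ifs with hk
    · obtain ⟨e, he⟩ := blk_even T (hfam.sm k hk)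
      omega
    · rfl
  filter_upwards [eventually_ge_atTop (max n0 1)] with n hn ks N hks s hs
  have hn1 : 1 ≤ n := (le_max_right _ _).trans hn
  have hnp : (0 : ℝ) < n := by exact_mod_cast hn1
  rcases Nat.eq_zero_or_pos N with rfl | hN
  · -- no summand
    have hs' : Same s l := hs
    have hs2 : Same s.reverse l.reverse := (c_rev s l).2 hs'
    have e : KT s = KT l := by
      funext w
      unfold KT
      apply propext
      exact ⟨fun h => h.elim (fun h => Or.inl (h.trans hs')) (fun h => Or.inr (h.trans hs2)),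
        fun h => h.elim (fun h => Or.inl (h.trans hs'.symm))
          (fun h => Or.inr (h.trans hs2.symm))⟩
    simp [e]
  · have h1 := hit n ((le_max_left _ _).trans hn) ks N hks s hs
    have e1 : ∑ i ∈ range N, ((blk T (v (ks i))).length - 1) = ∑ i ∈ range N, m (ks i) := by
      refine Finset.sum_congr rfl fun i hi => ?_
      simp only [hm]
      rw [if_pos (hks i (mem_range.1 hi))]
    rw [e1] at h1
    set σ₁ := ∑ i ∈ range N, m (ks i) with hσ
    have hσle : σ₁ ≤ N * Mx := by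
      rw [hσ]
      refine (Finset.sum_le_card_nsmul _ _ Mx fun i hi => ?_).trans (by simp)
      exact Finset.le_sup (hks i (mem_range.1 hi))
    have h2 : (FF S T L v s (n + σ₁) (C + N * D) : ℝ) ≤ a (KT s) (n + σ₁) := by
      unfold FF a
      refine Nat.cast_le.2 (card_le_card ?_)
      intro w hw
      rw [mem_filter, mem_K] at hw
      rw [mem_K]
      exact ⟨hw.1.1, hw.1.2.1, Or.inl hw.1.2.2⟩
    have h3 : (a (KT l) n : ℝ) ≤ 2 * a (KO l) n := by
      exact_mod_cast half S_rot_proof c_rev S_simple_proof l n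
    have hfac : (0 : ℝ) < N.factorial := by exact_mod_cast N.factorial_pos
    set y : ℝ := c * (n : ℝ) ^ (2 / 3 : ℝ) with hy
    have hy0 : 0 ≤ y := by positivity
    have hAs : (0 : ℝ) ≤ (a (KT s) (n + σ₁) : ℝ) := Nat.cast_nonneg _
    have hAl : (0 : ℝ) ≤ (a (KT l) n : ℝ) := Nat.cast_nonneg _
    -- the basic inequality
    have h4 : y ^ N * a (KT l) n ≤ 2 * (B ^ N * N.factorial * a (KT s) (n + σ₁)) := by
      calc y ^ N * a (KT l) n ≤ y ^ N * (2 * a (KO l) n) :=
            mul_le_mul_of_nonneg_left h3 (by positivity)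
        _ = 2 * (y ^ N * a (KO l) n) := by ring
        _ ≤ 2 * (B ^ N * N.factorial * a (KT s) (n + σ₁)) := by
            apply mul_le_mul_of_nonneg_left _ (by norm_num)
            refine h1.trans ?_
            apply mul_le_mul _ h2 (Nat.cast_nonneg _) (by positivity)
            apply mul_le_mul_of_nonneg_right _ hfac.le
            exact pow_le_pow_left₀ (by positivity) hBle N
    have h5 : 2 * ((n : ℝ) + σ₁) ≤ (2 * (1 + Mx)) ^ N * n := by
      have g1 : (2 : ℝ) ≤ 2 ^ N := by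
        calc (2 : ℝ) = 2 ^ 1 := by norm_num
          _ ≤ 2 ^ N := pow_le_pow_right₀ (by norm_num) hN
      have g2 : 1 + (N : ℝ) * Mx ≤ (1 + Mx) ^ N :=
        one_add_mul_le_pow (by have : (0 : ℝ) ≤ Mx := Nat.cast_nonneg _; linarith) N
      have g3 : (σ₁ : ℝ) ≤ N * Mx := by exact_mod_cast hσle
      have g4 : (n : ℝ) + σ₁ ≤ (1 + N * Mx) * n := by
        have : (1 : ℝ) ≤ n := by exact_mod_cast hn1
        have h0 : (0 : ℝ) ≤ N * Mx := by positivity
        nlinarith
      rw [mul_pow]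
      calc 2 * ((n : ℝ) + σ₁) ≤ 2 * ((1 + N * Mx) * n) := by linarith
        _ ≤ 2 ^ N * ((1 + Mx) ^ N * n) := by
            apply mul_le_mul g1 _ (by positivity) (by positivity)
            exact mul_le_mul_of_nonneg_right g2 hnp.le
        _ = 2 ^ N * (1 + Mx) ^ N * n := by ring
    unfold pq
    have hM0 : (0 : ℝ) < 2 * (1 + Mx) := by positivity
    have e2 : c / B / (2 * (1 + Mx)) * (n : ℝ) ^ (2 / 3 : ℝ) = y / (B * (2 * (1 + Mx))) := by
      rw [hy]
      field_simp
    rw [e2, div_pow, div_div, div_mul_div_comm]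
    have hpos2 : (0 : ℝ) < 2 * ((n + σ₁ : ℕ) : ℝ) := by
      push_cast
      have : (0 : ℝ) ≤ (σ₁ : ℝ) := Nat.cast_nonneg _
      linarith
    rw [div_le_div_iff₀ (by positivity) hpos2]
    push_cast
    calc y ^ N * a (KT l) n * (2 * ((n : ℝ) + σ₁))
        ≤ (2 * (B ^ N * N.factorial * a (KT s) (n + σ₁))) * ((2 * (1 + Mx)) ^ N * n) := by
          apply mul_le_mul h4 h5 (by positivity) (by positivity)
      _ = a (KT s) (n + σ₁) * ((B * (2 * (1 + Mx))) ^ N * N.factorial * (2 * n)) := by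
          rw [mul_pow B]; ring

end MS

end

end KN
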